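import Pool.Agent.Lib.MP_b8b490_an.Defs

open MeasureTheory Set Filter Topology
open scoped ENNReal

namespace Pool.Agent.Lib.MP_b8b490_an

/-- rational boxes: absolute continuity on lines gives local absolute continuity on almost every
whole line -/
theorem ACL.locAC {n : ℕ} {R : Set (Fin n → ℝ)} (hR : IsOpen R) {f : (Fin n → ℝ) → ℝ}
    (h : ACL R f) : LocAC R f := by
  intro i
  have h1 : ∀ᵐ x : Fin n → ℝ, ∀ p : (Fin n → ℚ) × (Fin n → ℚ),
      ((fun j => (p.1 j : ℝ)) ≤ (fun j => (p.2 j : ℝ)) ∧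
        Set.Icc (fun j => (p.1 j : ℝ)) (fun j => (p.2 j : ℝ)) ⊆ R) →
      (∀ j, j ≠ i → x j ∈ Set.Icc (p.1 j : ℝ) (p.2 j : ℝ)) →
      AbsolutelyContinuousOnInterval (fun s : ℝ => f (Function.update x i s))
        (p.1 i : ℝ) (p.2 i : ℝ) := by
    rw [ae_all_iff]
    intro p
    by_cases hp : ((fun j => (p.1 j : ℝ)) ≤ (fun j => (p.2 j : ℝ)) ∧
        Set.Icc (fun j => (p.1 j : ℝ)) (fun j => (p.2 j : ℝ)) ⊆ R)
    · filter_upwards [h _ _ hp.1 hp.2 i] with x hx _
      exact hx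
    · exact Filter.Eventually.of_forall fun x hx => absurd hx hp
  filter_upwards [h1] with x hx s hs
  obtain ⟨ε, hε, hball⟩ := Metric.isOpen_iff.mp hR _ hs
  set y := Function.update x i s with hy
  have hl : ∀ j, ∃ q : ℚ, y j - ε / 2 < q ∧ (q : ℝ) < y j := fun j =>
    exists_rat_btwn (by linarith)
  have hu : ∀ j, ∃ q : ℚ, y j < q ∧ (q : ℝ) < y j + ε / 2 := fun j =>
    exists_rat_btwn (by linarith)
  choose l hl1 hl2 using hl
  choose u hu1 hu2 using hu
  have hyi : y i = s := by rw [hy, Function.update_self]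
  have hle : (fun j => (l j : ℝ)) ≤ (fun j => (u j : ℝ)) := fun j => by
    have h2 := hl2 j
    have h3 := hu1 j
    change (l j : ℝ) ≤ u j
    linarith
  have hsub : Set.Icc (fun j => (l j : ℝ)) (fun j => (u j : ℝ)) ⊆ R := by
    intro z hz
    apply hball
    rw [Metric.mem_ball]
    refine lt_of_le_of_lt ((dist_pi_le_iff (r := ε / 2) (by linarith)).mpr fun j => ?_)
      (by linarith)
    have h2 : (l j : ℝ) ≤ z j := hz.1 j
    have h3 : z j ≤ (u j : ℝ) := hz.2 j
    have h4 := hl1 j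
    have h5 := hu2 j
    rw [Real.dist_eq, abs_le]
    constructor <;> linarith
  have hac := hx (l, u) ⟨hle, hsub⟩ fun j hj => by
    have h2 : x j = y j := by rw [hy, Function.update_of_ne hj]
    rw [h2]
    exact ⟨(hl2 j).le, (hu1 j).le⟩
  have h6 : (l i : ℝ) < s := by rw [← hyi]; exact hl2 i
  have h7 : s < (u i : ℝ) := by rw [← hyi]; exact hu1 i
  refine ⟨min (s - l i) (u i - s), lt_min (by linarith) (by linarith), hac.mono ?_⟩
  have h8 : min (s - (l i : ℝ)) (u i - s) ≤ s - l i := min_le_left _ _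
  have h9 : min (s - (l i : ℝ)) (u i - s) ≤ u i - s := min_le_right _ _
  have h10 : 0 < min (s - (l i : ℝ)) (u i - s) := lt_min (by linarith) (by linarith)
  rw [uIcc_of_le (by linarith), uIcc_of_le (by linarith)]
  exact Icc_subset_Icc (by linarith) (by linarith)

/-- composition with a Lipschitz function -/
theorem absCont_comp_lipschitz {g f : ℝ → ℝ} {L : NNReal} (hg : LipschitzWith L g) {a b : ℝ}
    (hf : AbsolutelyContinuousOnInterval f a b) :
    AbsolutelyContinuousOnInterval (fun s => g (f s)) a b := by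
  unfold AbsolutelyContinuousOnInterval at hf ⊢
  apply squeeze_zero (fun t ↦ ?_) (fun t ↦ ?_)
    (by simpa using Filter.Tendsto.const_mul (L : ℝ) hf)
  · exact Finset.sum_nonneg (fun i hi ↦ dist_nonneg)
  · rw [Finset.mul_sum]
    exact Finset.sum_le_sum fun i _ => hg.dist_le_mul _ _

theorem LocAC.comp_lipschitz {n : ℕ} {R : Set (Fin n → ℝ)} {f : (Fin n → ℝ) → ℝ}
    (h : LocAC R f) {g : ℝ → ℝ} {L : NNReal} (hg : LipschitzWith L g) :
    LocAC R (fun x => g (f x)) := by
  intro i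
  filter_upwards [h i] with x hx s hs
  obtain ⟨δ, hδ, hac⟩ := hx s hs
  exact ⟨δ, hδ, absCont_comp_lipschitz hg hac⟩

theorem LocAC.sub {n : ℕ} {R : Set (Fin n → ℝ)} {f g : (Fin n → ℝ) → ℝ}
    (hf : LocAC R f) (hg : LocAC R g) : LocAC R (fun x => f x - g x) := by
  intro i
  filter_upwards [hf i, hg i] with x hx hx' s hs
  obtain ⟨δ, hδ, hac⟩ := hx s hs
  obtain ⟨δ', hδ', hac'⟩ := hx' s hs
  have h0 : 0 < min δ δ' := lt_min hδ hδ'
  have h1 : min δ δ' ≤ δ := min_le_left _ _
  have h2 : min δ δ' ≤ δ' := min_le_right _ _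
  refine ⟨min δ δ', h0, AbsolutelyContinuousOnInterval.fun_sub (hac.mono ?_) (hac'.mono ?_)⟩
  · rw [uIcc_of_le (by linarith), uIcc_of_le (by linarith)]
    exact Icc_subset_Icc (by linarith) (by linarith)
  · rw [uIcc_of_le (by linarith), uIcc_of_le (by linarith)]
    exact Icc_subset_Icc (by linarith) (by linarith)

theorem locAC_of_contDiff {n : ℕ} {R : Set (Fin n → ℝ)} {f : (Fin n → ℝ) → ℝ}
    (hf : ContDiff ℝ 1 f) : LocAC R f := by
  intro i
  refine Filter.Eventually.of_forall fun x s _ => ⟨1, one_pos, ?_⟩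
  exact (hf.comp (contDiff_update 1 x i)).contDiffOn.absolutelyContinuousOnInterval

end Pool.Agent.Lib.MP_b8b490_an
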