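import Pool.Agent.Lib.MP_b8b490_an.Defs

open MeasureTheory Set Filter Topology
open scoped ENNReal

namespace Pool.Agent.Lib.MP_b8b490_an

private theorem A2_local {u f f' : ℝ → ℝ} {J V : Set ℝ} (hJ : IsClosed J) (hV : IsOpen V)
    (hJV : J ⊆ V) (hu0 : ∀ s, s ∉ J → u s = 0)
    (hu : ∀ s ∈ V, ∃ δ > 0, AbsolutelyContinuousOnInterval u (s - δ) (s + δ))
    (hf : ∀ s ∈ V, HasDerivAt f (f' s) s) (hf' : ContinuousOn f' V) (c : ℝ) :
    ∃ δ > 0, ∀ α ∈ Metric.ball c δ, ∀ β ∈ Metric.ball c δ,
      IntervalIntegrable (fun s => deriv u s * f s + u s * f' s) volume α β ∧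
      ∫ s in α..β, (deriv u s * f s + u s * f' s) = u β * f β - u α * f α := by
  have hball : ∀ {δ α β : ℝ}, α ∈ Metric.ball c δ → β ∈ Metric.ball c δ →
      uIcc α β ⊆ Metric.ball c δ := by
    intro δ α β ha hb
    rw [← segment_eq_uIcc]
    exact (convex_ball c δ).segment_subset ha hb
  by_cases hc : c ∈ J
  · obtain ⟨δ, hδ, hac⟩ := hu c (hJV hc)
    obtain ⟨ε, hε, hεV⟩ := Metric.isOpen_iff.1 hV c (hJV hc)
    refine ⟨min δ ε, lt_min hδ hε, fun α hα β hβ => ?_⟩
    have hsub := hball hα hβ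
    have hsubV : uIcc α β ⊆ V := fun x hx =>
      hεV (Metric.ball_subset_ball (min_le_right _ _) (hsub hx))
    have hsubI : uIcc α β ⊆ uIcc (c - δ) (c + δ) := by
      intro x hx
      have h1 := Metric.ball_subset_ball (min_le_left δ ε) (hsub hx)
      rw [Metric.mem_ball, Real.dist_eq, abs_lt] at h1
      rw [uIcc_of_le (by linarith)]
      exact ⟨by linarith [h1.1], by linarith [h1.2]⟩
    have hua := hac.mono hsubI
    have hfc : ContinuousOn f (uIcc α β) := fun x hx =>
      (hf x (hsubV hx)).continuousAt.continuousWithinAt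
    have hf'c : ContinuousOn f' (uIcc α β) := hf'.mono hsubV
    obtain ⟨C, hC⟩ := isCompact_uIcc.exists_bound_of_continuousOn hf'c
    have hlip : LipschitzOnWith (Real.toNNReal C) f (uIcc α β) := by
      refine (convex_uIcc α β).lipschitzOnWith_of_nnnorm_hasDerivWithin_le (f' := f')
        (fun x hx => (hf x (hsubV hx)).hasDerivWithinAt) (fun x hx => ?_)
      rw [← NNReal.coe_le_coe, coe_nnnorm]
      exact (hC x hx).trans (Real.le_coe_toNNReal C)
    have hfa := hlip.absolutelyContinuousOnInterval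
    have hder : ∀ x ∈ uIcc α β, deriv f x = f' x := fun x hx => (hf x (hsubV hx)).deriv
    constructor
    · exact (hua.intervalIntegrable_deriv.mul_continuousOn hfc).add
        ((hua.continuousOn.mul hf'c).intervalIntegrable)
    · rw [← hua.integral_deriv_mul_eq_sub hfa]
      apply intervalIntegral.integral_congr
      intro x hx
      simp only [hder x hx]
  · obtain ⟨ε, hε, hεJ⟩ := Metric.isOpen_iff.1 hJ.isOpen_compl c hc
    refine ⟨ε, hε, fun α hα β hβ => ?_⟩
    have hsub := hball hα hβ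
    have hz : ∀ x ∈ uIcc α β, deriv u x * f x + u x * f' x = 0 := by
      intro x hx
      have hxJ : x ∈ Jᶜ := hεJ (hsub hx)
      have h1 : u =ᶠ[𝓝 x] fun _ => (0 : ℝ) := by
        filter_upwards [hJ.isOpen_compl.mem_nhds hxJ] with y hy using hu0 y hy
      rw [h1.deriv_eq, hu0 x hxJ]
      simp
    constructor
    · exact (intervalIntegrable_const (c := (0 : ℝ))).congr
        (fun x hx => (hz x (uIoc_subset_uIcc hx)).symm)
    · rw [intervalIntegral.integral_congr (g := fun _ => (0 : ℝ)) hz]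
      have h1 : α ∉ J := hεJ hα
      have h2 : β ∉ J := hεJ hβ
      rw [hu0 α h1, hu0 β h2]
      simp

/-- integration by parts on a line: `u` vanishes off the compact set `J ⊆ V`, is locally absolutely
continuous in the open set `V`, and `f` is `C¹` in `V` -/
theorem oneDim {u f f' : ℝ → ℝ} {J V : Set ℝ} (hJ : IsCompact J) (hV : IsOpen V) (hJV : J ⊆ V)
    (hu0 : ∀ s, s ∉ J → u s = 0)
    (hu : ∀ s ∈ V, ∃ δ > 0, AbsolutelyContinuousOnInterval u (s - δ) (s + δ))
    (hf : ∀ s ∈ V, HasDerivAt f (f' s) s) (hf' : ContinuousOn f' V) :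
    ∫ s, (deriv u s * f s + u s * f' s) = 0 := by
  have hloc := A2_local hJ.isClosed hV hJV hu0 hu hf hf'
  choose δ hδ hδ' using hloc
  obtain ⟨M0, hM0⟩ := hJ.isBounded.subset_closedBall 0
  obtain ⟨M, hM⟩ : ∃ M, M = max M0 0 + 1 := ⟨_, rfl⟩
  have hMpos : 0 < M := by
    rw [hM]
    have := le_max_right M0 0
    linarith
  have hJM : ∀ x ∈ J, |x| < M := by
    intro x hx
    have h1 := hM0 hx
    rw [mem_closedBall_zero_iff, Real.norm_eq_abs] at h1
    rw [hM]
    have := le_max_left M0 0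
    linarith
  have hle : -M ≤ M := by linarith
  obtain ⟨t, ht0, htm, ⟨m, hm⟩, hcov⟩ := exists_monotone_Icc_subset_open_cover_Icc hle
    (c := fun i : ℝ => {x : Icc (-M) M | (x : ℝ) ∈ Metric.ball i (δ i)})
    (fun i => Metric.isOpen_ball.preimage continuous_subtype_val)
    (fun x _ => mem_iUnion.2 ⟨(x : ℝ), Metric.mem_ball_self (hδ _)⟩)
  have hstep : ∀ n : ℕ,
      IntervalIntegrable (fun s => deriv u s * f s + u s * f' s) volume (t n) (t (n + 1)) ∧
      ∫ s in (t n : ℝ)..(t (n + 1) : ℝ), (deriv u s * f s + u s * f' s) =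
        u (t (n + 1)) * f (t (n + 1)) - u (t n) * f (t n) := by
    intro n
    obtain ⟨i, hi⟩ := hcov n
    have hmono : t n ≤ t (n + 1) := htm (Nat.le_succ n)
    exact hδ' i _ (hi (left_mem_Icc.2 hmono)) _ (hi (right_mem_Icc.2 hmono))
  have hsum : ∀ n : ℕ,
      IntervalIntegrable (fun s => deriv u s * f s + u s * f' s) volume (t 0) (t n) ∧
      ∫ s in (t 0 : ℝ)..(t n : ℝ), (deriv u s * f s + u s * f' s) =
        u (t n) * f (t n) - u (t 0) * f (t 0) := by
    intro n
    induction n with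
    | zero => exact ⟨IntervalIntegrable.refl, by simp⟩
    | succ n ih =>
      obtain ⟨h1, h2⟩ := hstep n
      refine ⟨ih.1.trans h1, ?_⟩
      rw [← intervalIntegral.integral_add_adjacent_intervals ih.1 h1, ih.2, h2]
      ring
  have hfin := (hsum m).2
  rw [hm m le_rfl, ht0] at hfin
  have hMJ : M ∉ J := fun h => by
    have := hJM M h
    rw [abs_of_pos hMpos] at this
    exact lt_irrefl _ this
  have hMJ' : -M ∉ J := fun h => by
    have := hJM (-M) h
    rw [abs_neg, abs_of_pos hMpos] at this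
    exact lt_irrefl _ this
  rw [hu0 M hMJ, hu0 (-M) hMJ', zero_mul, zero_mul, sub_zero,
    intervalIntegral.integral_of_le hle] at hfin
  rw [← hfin]
  symm
  apply setIntegral_eq_integral_of_forall_compl_eq_zero
  intro x hx
  have hxJ : x ∉ J := by
    intro hxJ
    apply hx
    have := abs_lt.1 (hJM x hxJ)
    exact ⟨this.1, this.2.le⟩
  have h1 : u =ᶠ[𝓝 x] fun _ => (0 : ℝ) := by
    filter_upwards [hJ.isClosed.isOpen_compl.mem_nhds hxJ] with y hy using hu0 y hy
  rw [h1.deriv_eq, hu0 x hxJ]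
  simp

end Pool.Agent.Lib.MP_b8b490_an
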