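import Pool.Agent.Lib.MP_b8b490_an.A2

open MeasureTheory Set Filter Topology
open scoped ENNReal

namespace Pool.Agent.Lib.MP_b8b490_an

theorem measurable_pd {n : ℕ} {f : (Fin n → ℝ) → ℝ} (hf : Continuous f) (i : Fin n) :
    Measurable (pd f i) := by
  have hc : Continuous (Function.uncurry fun (x : Fin n → ℝ) (s : ℝ) =>
      f (Function.update x i s)) := by
    have : Continuous fun p : (Fin n → ℝ) × ℝ => Function.update p.1 i p.2 :=
      continuous_fst.update i continuous_snd
    exact hf.comp this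
  have h := measurable_deriv_with_param hc
  have h2 : Measurable fun x : Fin n → ℝ => (x, x i) :=
    measurable_id.prodMk (measurable_pi_apply i)
  exact h.comp h2

/-- transfer to the insertion coordinates -/
private theorem A3_ae_insert {k : ℕ} {P : (Fin (k + 1) → ℝ) → Prop} (i : Fin (k + 1))
    (h : ∀ᵐ x : Fin (k + 1) → ℝ, P x) :
    ∀ᵐ p : ℝ × (Fin k → ℝ), P (i.insertNth p.1 p.2) := by
  have hmp := (volume_preserving_piFinSuccAbove (fun _ : Fin (k + 1) => ℝ) i).symm
  have := hmp.quasiMeasurePreserving.ae h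
  exact this

private theorem A3_ae_insert_iff {k : ℕ} {P : (Fin (k + 1) → ℝ) → Prop} (i : Fin (k + 1))
    (h : ∀ᵐ p : ℝ × (Fin k → ℝ), P (i.insertNth p.1 p.2)) :
    ∀ᵐ x : Fin (k + 1) → ℝ, P x := by
  have hmp := (volume_preserving_piFinSuccAbove (fun _ : Fin (k + 1) => ℝ) i)
  have := hmp.quasiMeasurePreserving.ae h
  filter_upwards [this] with x hx
  simpa using hx

private theorem A3_ae_line {k : ℕ} {T : (Fin k → ℝ) → Prop} 
    (h : ∀ᵐ p : ℝ × (Fin k → ℝ), T p.2) : ∀ᵐ y : Fin k → ℝ, T y := by
  have h1 : ∀ᵐ _ : ℝ, ∀ᵐ y : Fin k → ℝ, T y := by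
    rw [Measure.volume_eq_prod] at h
    exact Measure.ae_ae_of_ae_prod h
  simpa using h1

/-- a property that holds at almost every point of almost every line in direction `i` holds almost
everywhere -/
theorem ae_of_ae_line {k : ℕ} {P : (Fin (k + 1) → ℝ) → Prop} (hP : MeasurableSet {x | P x})
    (i : Fin (k + 1))
    (h : ∀ᵐ x : Fin (k + 1) → ℝ, ∀ᵐ s : ℝ, P (Function.update x i s)) :
    ∀ᵐ x : Fin (k + 1) → ℝ, P x := by
  have h1 := A3_ae_insert i h
  simp only [Fin.update_insertNth] at h1
  have h2 : ∀ᵐ y : Fin k → ℝ, ∀ᵐ s : ℝ, P (i.insertNth s y) := A3_ae_line h1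
  refine A3_ae_insert_iff i ?_
  have hm : MeasurableSet {p : (Fin k → ℝ) × ℝ | P (i.insertNth p.2 p.1)} := by
    have hmp := (volume_preserving_piFinSuccAbove (fun _ : Fin (k + 1) => ℝ) i).symm
    have h3 : Measurable fun p : (Fin k → ℝ) × ℝ =>
        (MeasurableEquiv.piFinSuccAbove (fun _ : Fin (k + 1) => ℝ) i).symm (p.2, p.1) :=
      (MeasurableEquiv.measurable _).comp (measurable_snd.prodMk measurable_fst)
    exact h3 hP
  have h4 : ∀ᵐ p : (Fin k → ℝ) × ℝ, P (i.insertNth p.2 p.1) := by
    rw [Measure.volume_eq_prod]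
    exact (Measure.ae_prod_iff_ae_ae hm).2 h2
  have hsw : MeasurePreserving (Prod.swap : ℝ × (Fin k → ℝ) → (Fin k → ℝ) × ℝ) volume volume := by
    rw [Measure.volume_eq_prod, Measure.volume_eq_prod]
    exact Measure.measurePreserving_swap
  exact hsw.quasiMeasurePreserving.ae h4

theorem LocAC.ae_differentiableAt {k : ℕ} {R : Set (Fin (k + 1) → ℝ)} (hR : IsOpen R)
    {f : (Fin (k + 1) → ℝ) → ℝ} (hf : Continuous f) (h : LocAC R f) (i : Fin (k + 1)) :
    ∀ᵐ x : Fin (k + 1) → ℝ, x ∈ R →
      DifferentiableAt ℝ (fun s : ℝ => f (Function.update x i s)) (x i) := by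
  refine ae_of_ae_line ?_ i ?_
  · have hc : Continuous (Function.uncurry fun (x : Fin (k + 1) → ℝ) (s : ℝ) =>
        f (Function.update x i s)) := by
      have : Continuous fun p : (Fin (k + 1) → ℝ) × ℝ => Function.update p.1 i p.2 :=
        continuous_fst.update i continuous_snd
      exact hf.comp this
    have h1 := measurableSet_of_differentiableAt_with_param ℝ hc
    have h2 : Measurable fun x : Fin (k + 1) → ℝ => (x, x i) :=
      measurable_id.prodMk (measurable_pi_apply i)
    have h3 := h2 h1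
    have h4 : {x : Fin (k + 1) → ℝ | x ∈ R →
        DifferentiableAt ℝ (fun s : ℝ => f (Function.update x i s)) (x i)} = Rᶜ ∪
        (fun x : Fin (k + 1) → ℝ => (x, x i)) ⁻¹' {p : (Fin (k + 1) → ℝ) × ℝ |
          DifferentiableAt ℝ (fun s : ℝ => f (Function.update p.1 i s)) p.2} := by
      ext x
      simp only [mem_union, mem_compl_iff, mem_preimage]
      show (x ∈ R → _) ↔ _
      rw [imp_iff_not_or]
      rfl
    rw [h4]
    exact hR.measurableSet.compl.union h3
  · filter_upwards [h i] with x hx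
    have hV : IsOpen {s : ℝ | Function.update x i s ∈ R} := by
      have : Continuous fun s : ℝ => Function.update x i s :=
        continuous_const.update i continuous_id
      exact hR.preimage this
    have hnull : volume {s : ℝ | ¬ (Function.update x i s ∈ R →
        DifferentiableAt ℝ (fun r : ℝ => f (Function.update x i r)) s)} = 0 := by
      refine measure_null_of_locally_null _ fun s hs => ?_
      have hs' : Function.update x i s ∈ R := by
        by_contra hc
        exact hs fun h => absurd h hc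
      obtain ⟨δ, hδ, hac⟩ := hx s hs'
      refine ⟨Ioo (s - δ) (s + δ) ∩ {s : ℝ | ¬ (Function.update x i s ∈ R →
        DifferentiableAt ℝ (fun r : ℝ => f (Function.update x i r)) s)}, ?_, ?_⟩
      · exact inter_mem (mem_nhdsWithin_of_mem_nhds (Ioo_mem_nhds (by linarith) (by linarith)))
          self_mem_nhdsWithin
      · have h5 := hac.ae_differentiableAt
        rw [ae_iff] at h5
        refine measure_mono_null ?_ h5
        rintro r ⟨hr1, hr2⟩
        intro h6
        refine hr2 fun _ => h6 ?_
        rw [uIcc_of_le (by linarith)]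
        exact ⟨hr1.1.le, hr1.2.le⟩
    rw [ae_iff]
    simpa using hnull

/-- integration by parts in direction `i` -/
theorem ibp {k : ℕ} {R K : Set (Fin (k + 1) → ℝ)} (hR : IsOpen R) (hK : IsCompact K)
    (hKR : K ⊆ R) {w : (Fin (k + 1) → ℝ) → ℝ} (hwc : Continuous w) (hw0 : ∀ x, x ∉ K → w x = 0)
    (hloc : LocAC R w) (i : Fin (k + 1)) {F dF : (Fin (k + 1) → ℝ) → ℝ}
    (hF : ContinuousOn F R) (hdF : ContinuousOn dF R)
    (hder : ∀ x ∈ R, HasDerivAt (fun s : ℝ => F (Function.update x i s)) (dF x) (x i)) :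
    ∫ x, (pd w i x * F x + w x * dF x) = 0 := by
  by_cases hint : Integrable fun x => pd w i x * F x + w x * dF x
  swap
  · exact integral_undef hint
  have hmp := (volume_preserving_piFinSuccAbove (fun _ : Fin (k + 1) => ℝ) i).symm
  have e1 : ∫ p : ℝ × (Fin k → ℝ), (fun x => pd w i x * F x + w x * dF x) (i.insertNth p.1 p.2) =
      ∫ x, (pd w i x * F x + w x * dF x) :=
    hmp.integral_comp' (g := fun x => pd w i x * F x + w x * dF x)
  have hint2 : Integrable fun p : ℝ × (Fin k → ℝ) =>
      (fun x => pd w i x * F x + w x * dF x) (i.insertNth p.1 p.2) :=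
    hmp.integrable_comp_of_integrable hint
  rw [← e1]
  rw [Measure.volume_eq_prod] at hint2 ⊢
  rw [integral_prod_symm _ hint2]
  have h1 := A3_ae_insert i (hloc i)
  simp only [Fin.update_insertNth] at h1
  have h2 := A3_ae_line (T := fun y : Fin k → ℝ => ∀ s : ℝ,
    (i.insertNth s y : Fin (k + 1) → ℝ) ∈ R → ∃ δ > 0,
      AbsolutelyContinuousOnInterval (fun r : ℝ => w (i.insertNth r y)) (s - δ) (s + δ)) h1
  refine integral_eq_zero_of_ae ?_
  filter_upwards [h2] with y hy
  have hci : Continuous fun s : ℝ => (i.insertNth s y : Fin (k + 1) → ℝ) := by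
    have := (continuous_const (y := (i.insertNth 0 y : Fin (k + 1) → ℝ)) (X := ℝ)).update i
      continuous_id
    simpa only [Fin.update_insertNth, id] using this
  have hcl : IsClosed {s : ℝ | (i.insertNth s y : Fin (k + 1) → ℝ) ∈ K} :=
    hK.isClosed.preimage hci
  have hJ : IsCompact {s : ℝ | (i.insertNth s y : Fin (k + 1) → ℝ) ∈ K} := by
    refine IsCompact.of_isClosed_subset (hK.image (continuous_apply i)) hcl ?_
    intro s hs
    exact ⟨_, hs, by simp⟩
  have hVo : IsOpen {s : ℝ | (i.insertNth s y : Fin (k + 1) → ℝ) ∈ R} := hR.preimage hci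
  have hone := oneDim (u := fun s => w (i.insertNth s y)) (f := fun s => F (i.insertNth s y))
    (f' := fun s => dF (i.insertNth s y)) hJ hVo (fun s hs => hKR hs)
    (fun s hs => hw0 _ hs) hy ?_ ?_
  · refine Eq.trans ?_ hone
    refine integral_congr_ae (Eventually.of_forall fun s => ?_)
    simp only [pd, Fin.update_insertNth, Fin.insertNth_apply_same]
  · intro s hs
    have := hder _ hs
    simpa only [Fin.update_insertNth, Fin.insertNth_apply_same] using this
  · exact hdF.comp hci.continuousOn (fun s hs => hs)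

end Pool.Agent.Lib.MP_b8b490_an
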