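import Pool.Agent.Lib.MP_b8b490_an.A1
import Pool.Agent.Lib.MP_b8b490_an.A3

open MeasureTheory Set Filter Topology
open scoped ENNReal

namespace Pool.Agent.Lib.MP_b8b490_an

/-- the truncation `s ↦ max 0 (min 1 ((s - ε) / (1 - 2 ε)))` -/
noncomputable def trunc (ε s : ℝ) : ℝ := max 0 (min 1 ((s - ε) / (1 - 2 * ε)))

private theorem A5_trunc_lip {ε : ℝ} (hε2 : ε < 1 / 2) :
    LipschitzWith (Real.toNNReal (1 - 2 * ε)⁻¹) (trunc ε) := by
  have hpos : 0 < 1 - 2 * ε := by linarith
  have h1 : LipschitzWith (Real.toNNReal (1 - 2 * ε)⁻¹) (fun s : ℝ => (s - ε) / (1 - 2 * ε)) := by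
    refine LipschitzWith.of_dist_le_mul fun x y => ?_
    rw [Real.coe_toNNReal _ (inv_pos.mpr hpos).le, Real.dist_eq, Real.dist_eq]
    have : (x - ε) / (1 - 2 * ε) - (y - ε) / (1 - 2 * ε) = (1 - 2 * ε)⁻¹ * (x - y) := by
      field_simp
      ring
    rw [this, abs_mul, abs_of_pos (inv_pos.mpr hpos)]
  exact (h1.const_min 1).const_max 0

private theorem A5_trunc_zero {ε s : ℝ} (hε2 : ε < 1 / 2) (hs : s < ε) : trunc ε s = 0 := by
  have hpos : 0 < 1 - 2 * ε := by linarith
  have h1 : (s - ε) / (1 - 2 * ε) ≤ 0 :=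
    div_nonpos_of_nonpos_of_nonneg (by linarith) hpos.le
  unfold trunc
  rw [min_eq_right (by linarith), max_eq_left h1]

private theorem A5_trunc_one {ε s : ℝ} (hε2 : ε < 1 / 2) (hs : 1 - ε < s) : trunc ε s = 1 := by
  have hpos : 0 < 1 - 2 * ε := by linarith
  have h1 : 1 ≤ (s - ε) / (1 - 2 * ε) := by
    rw [le_div_iff₀ hpos]
    linarith
  unfold trunc
  rw [min_eq_left h1, max_eq_right zero_le_one]

/-- a function that is constant near `x` has directional derivatives zero at `x` -/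
private theorem A5_pd_zero {n : ℕ} {g : (Fin n → ℝ) → ℝ} {U : Set (Fin n → ℝ)} (hU : IsOpen U)
    {c : ℝ} (hg : ∀ y ∈ U, g y = c) {x : Fin n → ℝ} (hx : x ∈ U) (i : Fin n) : pd g i x = 0 := by
  have hc : Continuous (fun s : ℝ => Function.update x i s) :=
    continuous_const.update i continuous_id
  have h1 : ∀ᶠ s : ℝ in 𝓝 (x i), Function.update x i s ∈ U := by
    have h2 : Tendsto (fun s : ℝ => Function.update x i s) (𝓝 (x i)) (𝓝 x) := by
      have h3 := hc.tendsto (x i)
      rwa [Function.update_eq_self] at h3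
    exact h2.eventually (hU.mem_nhds hx)
  have h2 : (fun s : ℝ => g (Function.update x i s)) =ᶠ[𝓝 (x i)] fun _ => c := by
    filter_upwards [h1] with s hs
    exact hg _ hs
  unfold pd
  rw [h2.deriv_eq, deriv_const]

private theorem A5_deriv_le {g f : ℝ → ℝ} {L : NNReal} (hg : LipschitzWith L g) {x : ℝ}
    (hf : DifferentiableAt ℝ f x) : |deriv (fun s => g (f s)) x| ≤ L * |deriv f x| := by
  by_cases h : DifferentiableAt ℝ (fun s => g (f s)) x
  · have h1 := h.hasDerivAt.tendsto_slope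
    have h2 := hf.hasDerivAt.tendsto_slope
    refine le_of_tendsto_of_tendsto h1.abs (h2.abs.const_mul (L : ℝ)) ?_
    filter_upwards with s
    simp only [slope, vsub_eq_sub, smul_eq_mul, abs_mul]
    have h3 := hg.dist_le_mul (f s) (f x)
    rw [Real.dist_eq, Real.dist_eq] at h3
    calc |(s - x)⁻¹| * |g (f s) - g (f x)| ≤ |(s - x)⁻¹| * (L * |f s - f x|) :=
          mul_le_mul_of_nonneg_left h3 (abs_nonneg _)
      _ = L * (|(s - x)⁻¹| * |f s - f x|) := by ring
  · rw [deriv_zero_of_not_differentiableAt h, abs_zero]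
    positivity

private theorem A5_int_mul {n : ℕ} {R K : Set (Fin n → ℝ)} (hR : IsOpen R) (hK : IsCompact K)
    (hKR : K ⊆ R) {φ F : (Fin n → ℝ) → ℝ} (hF : ContinuousOn F R) (hφ : IntegrableOn φ R)
    (h0 : ∀ x ∈ R, x ∉ K → φ x = 0) : IntegrableOn (fun x => φ x * F x) R := by
  obtain ⟨M, hM⟩ := hK.exists_bound_of_continuousOn (hF.mono hKR)
  have hφM : IntegrableOn (fun x => |M| * |φ x|) R := (hφ.abs).const_mul _
  refine Integrable.mono' hφM (hφ.aestronglyMeasurable.mul
    (hF.aestronglyMeasurable hR.measurableSet)) ?_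
  refine (ae_restrict_iff' hR.measurableSet).mpr (Eventually.of_forall fun x hx => ?_)
  by_cases hxK : x ∈ K
  · have h1 := hM x hxK
    rw [norm_mul, mul_comm]
    simp only [Real.norm_eq_abs] at h1 ⊢
    exact mul_le_mul_of_nonneg_right (h1.trans (le_abs_self M)) (abs_nonneg _)
  · rw [h0 x hx hxK]
    simp

private theorem A5_int_cont {n : ℕ} {R : Set (Fin n → ℝ)} (hRb : Bornology.IsBounded R)
    {φ : (Fin n → ℝ) → ℝ} (hφ : Continuous φ) : IntegrableOn φ R := by
  have h1 : IsCompact (closure R) := hRb.isCompact_closure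
  exact (hφ.continuousOn.integrableOn_compact h1).mono_set subset_closure

private theorem A5_hasDerivAt {n : ℕ} {χ : (Fin n → ℝ) → ℝ} (hχ : ContDiff ℝ 1 χ) (i : Fin n)
    (x : Fin n → ℝ) : HasDerivAt (fun s : ℝ => χ (Function.update x i s))
      (fderiv ℝ χ x (Pi.single i 1)) (x i) := by
  have h1 : HasDerivAt (Function.update x i) (Pi.single i 1) (x i) := hasDerivAt_update x i (x i)
  have h2 : HasFDerivAt χ (fderiv ℝ χ x) (Function.update x i (x i)) := by
    rw [Function.update_eq_self]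
    exact (hχ.differentiable one_ne_zero x).hasFDerivAt
  exact h2.comp_hasDerivAt (x i) h1

private theorem A5_pd_cont {n : ℕ} {χ : (Fin n → ℝ) → ℝ} (hχ : ContDiff ℝ 1 χ) (i : Fin n) :
    Continuous (pd χ i) := by
  have h1 : pd χ i = fun x => fderiv ℝ χ x (Pi.single i 1) := by
    funext x
    exact (A5_hasDerivAt hχ i x).deriv
  rw [h1]
  exact (hχ.continuous_fderiv one_ne_zero).clm_apply continuous_const

private theorem A5_pd_int {k : ℕ} {R : Set (Fin (k + 1) → ℝ)}
    (hRb : Bornology.IsBounded R) {f : (Fin (k + 1) → ℝ) → ℝ} (hf : Continuous f)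
    (hfin : dirichlet R f ≠ ⊤) (i : Fin (k + 1)) : IntegrableOn (pd f i) R := by
  refine ⟨(measurable_pd hf i).aestronglyMeasurable, ?_⟩
  have hvol : volume R ≠ ⊤ := hRb.measure_lt_top.ne
  have hle : ∀ x, ‖pd f i x‖ₑ ≤ 1 + ENNReal.ofReal (euc (fun i => pd f i x) ^ (k + 1)) := by
    intro x
    have h1 : |pd f i x| ≤ euc (fun i => pd f i x) := by
      unfold euc
      refine Real.abs_le_sqrt ?_
      exact Finset.single_le_sum (f := fun i => pd f i x ^ 2) (fun j _ => sq_nonneg _)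
        (Finset.mem_univ i)
    have he : 0 ≤ euc (fun i => pd f i x) := Real.sqrt_nonneg _
    have h2 : euc (fun i => pd f i x) ≤ 1 + euc (fun i => pd f i x) ^ (k + 1) := by
      rcases le_total (euc (fun i => pd f i x)) 1 with h | h
      · have := pow_nonneg he (k + 1)
        linarith
      · have h3 : euc (fun i => pd f i x) ≤ euc (fun i => pd f i x) ^ (k + 1) :=
          le_self_pow₀ h (Nat.succ_ne_zero k)
        linarith
    rw [Real.enorm_eq_ofReal_abs, ← ENNReal.ofReal_one,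
      ← ENNReal.ofReal_add zero_le_one (pow_nonneg he _)]
    exact ENNReal.ofReal_le_ofReal (h1.trans h2)
  unfold HasFiniteIntegral
  calc ∫⁻ x in R, ‖pd f i x‖ₑ
      ≤ ∫⁻ x in R, (1 + ENNReal.ofReal (euc (fun i => pd f i x) ^ (k + 1))) :=
        lintegral_mono fun x => hle x
    _ = volume R + dirichlet R f := by
        rw [lintegral_add_left measurable_const, setLIntegral_one]
        rfl
    _ < ⊤ := ENNReal.add_lt_top.mpr ⟨hvol.lt_top, hfin.lt_top⟩

/-- the flux of a divergence free field through the level sets of an admissible function -/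
theorem flux_eq {k : ℕ} {R C0 C1 : Set (Fin (k + 1) → ℝ)} (hR : IsOpen R)
    (hRb : Bornology.IsBounded R) (hcov : ∀ x, x ∈ R ∨ x ∈ C0 ∨ x ∈ C1)
    {F dF : Fin (k + 1) → (Fin (k + 1) → ℝ) → ℝ} (hF : ∀ i, ContinuousOn (F i) R)
    (hdF : ∀ i, ContinuousOn (dF i) R)
    (hder : ∀ i, ∀ x ∈ R, HasDerivAt (fun s : ℝ => F i (Function.update x i s)) (dF i x) (x i))
    (hdiv : ∀ x ∈ R, ∑ i, dF i x = 0)
    {χ : (Fin (k + 1) → ℝ) → ℝ} (hχ : ContDiff ℝ 1 χ) {U0 U1 : Set (Fin (k + 1) → ℝ)}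
    (hU0 : IsOpen U0) (hU1 : IsOpen U1) (h0 : C0 ⊆ U0) (h1 : C1 ⊆ U1)
    (hχ0 : ∀ x ∈ U0, χ x = 0) (hχ1 : ∀ x ∈ U1, χ x = 1)
    {f : (Fin (k + 1) → ℝ) → ℝ} (hf : Continuous f) (hacl : LocAC R f)
    (hf0 : ∀ x ∈ C0, f x = 0) (hf1 : ∀ x ∈ C1, f x = 1) (hfin : dirichlet R f ≠ ⊤)
    {ε : ℝ} (hε : 0 < ε) (hε2 : ε < 1 / 2) :
    ∫ x in R, ∑ i, pd χ i x * F i x =
      ∫ x in R, ∑ i, pd (fun y => trunc ε (f y)) i x * F i x := by
  set g : (Fin (k + 1) → ℝ) → ℝ := fun y => trunc ε (f y) with hg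
  set w : (Fin (k + 1) → ℝ) → ℝ := fun y => g y - χ y with hw
  set V0 : Set (Fin (k + 1) → ℝ) := U0 ∩ {x | f x < ε} with hV0
  set V1 : Set (Fin (k + 1) → ℝ) := U1 ∩ {x | 1 - ε < f x} with hV1
  have hV0o : IsOpen V0 := hU0.inter (isOpen_lt hf continuous_const)
  have hV1o : IsOpen V1 := hU1.inter (isOpen_lt continuous_const hf)
  set K : Set (Fin (k + 1) → ℝ) := (V0 ∪ V1)ᶜ with hKdef
  have hRM := hR.measurableSet
  have hKR : K ⊆ R := by
    intro x hx
    rcases hcov x with h | h | h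
    · exact h
    · have h2 : f x < ε := by rw [hf0 x h]; exact hε
      exact absurd (Or.inl ⟨h0 h, h2⟩) hx
    · have h2 : 1 - ε < f x := by rw [hf1 x h]; linarith
      exact absurd (Or.inr ⟨h1 h, h2⟩) hx
  have hK : IsCompact K :=
    Metric.isCompact_of_isClosed_isBounded (hV0o.union hV1o).isClosed_compl (hRb.subset hKR)
  set K' : Set (Fin (k + 1) → ℝ) := (U0 ∪ U1)ᶜ with hK'def
  have hK'R : K' ⊆ R := by
    intro x hx
    rcases hcov x with h | h | h
    · exact h
    · exact absurd (Or.inl (h0 h)) hx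
    · exact absurd (Or.inr (h1 h)) hx
  have hK' : IsCompact K' :=
    Metric.isCompact_of_isClosed_isBounded (hU0.union hU1).isClosed_compl (hRb.subset hK'R)
  have hgV0 : ∀ x ∈ V0, g x = 0 := fun x hx => A5_trunc_zero hε2 hx.2
  have hgV1 : ∀ x ∈ V1, g x = 1 := fun x hx => A5_trunc_one hε2 hx.2
  have hlip := A5_trunc_lip hε2
  have hgc : Continuous g := hlip.continuous.comp hf
  have hwc : Continuous w := hgc.sub hχ.continuous
  have hgl : LocAC R g := hacl.comp_lipschitz hlip
  have hwl : LocAC R w := hgl.sub (locAC_of_contDiff hχ)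
  have hw0 : ∀ x, x ∉ K → w x = 0 := by
    intro x hx
    simp only [hKdef, mem_compl_iff, not_not] at hx
    rcases hx with h | h
    · simp only [hw, hgV0 x h, hχ0 x h.1, sub_zero]
    · simp only [hw, hgV1 x h, hχ1 x h.1, sub_self]
  have hgp : ∀ i, ∀ x ∈ R, x ∉ K → pd g i x = 0 := by
    intro i x _ hx
    simp only [hKdef, mem_compl_iff, not_not] at hx
    rcases hx with h | h
    · exact A5_pd_zero hV0o hgV0 h i
    · exact A5_pd_zero hV1o hgV1 h i
  have hχp : ∀ i, ∀ x ∈ R, x ∉ K' → pd χ i x = 0 := by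
    intro i x _ hx
    simp only [hK'def, mem_compl_iff, not_not] at hx
    rcases hx with h | h
    · exact A5_pd_zero hU0 hχ0 h i
    · exact A5_pd_zero hU1 hχ1 h i
  have hwp : ∀ i, ∀ x, x ∉ K → pd w i x = 0 := fun i x hx =>
    A5_pd_zero hK.isClosed.isOpen_compl (fun y hy => hw0 y hy) hx i
  -- integrability
  have iX : ∀ i, IntegrableOn (fun x => pd χ i x * F i x) R := fun i =>
    A5_int_mul hR hK' hK'R (hF i) (A5_int_cont hRb (A5_pd_cont hχ i)) (hχp i)
  have igp : ∀ i, IntegrableOn (pd g i) R := by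
    intro i
    have hfi := A5_pd_int hRb hf hfin i
    refine Integrable.mono' (hfi.abs.const_mul ((Real.toNNReal (1 - 2 * ε)⁻¹ : NNReal) : ℝ))
      (measurable_pd hgc i).aestronglyMeasurable ?_
    rw [ae_restrict_iff' hRM]
    filter_upwards [hacl.ae_differentiableAt hR hf i] with x hx hxR
    exact A5_deriv_le (f := fun s : ℝ => f (Function.update x i s)) hlip (hx hxR)
  have iG : ∀ i, IntegrableOn (fun x => pd g i x * F i x) R := fun i =>
    A5_int_mul hR hK hKR (hF i) (igp i) (hgp i)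
  have iW : ∀ i, IntegrableOn (fun x => w x * dF i x) R := fun i =>
    A5_int_mul hR hK hKR (hdF i) (A5_int_cont hRb hwc) (fun x _ hx => hw0 x hx)
  have hpdw : ∀ i, (fun x => pd w i x * F i x) =ᵐ[volume.restrict R]
      fun x => pd g i x * F i x - pd χ i x * F i x := by
    intro i
    refine (ae_restrict_iff' hRM).mpr ?_
    filter_upwards [hgl.ae_differentiableAt hR hgc i] with x hx hxR
    have h2 : pd w i x = pd g i x - pd χ i x :=
      deriv_fun_sub (hx hxR) (A5_hasDerivAt hχ i x).differentiableAt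
    rw [h2, sub_mul]
  have key : ∀ i, (∫ x in R, pd g i x * F i x) - (∫ x in R, pd χ i x * F i x) +
      (∫ x in R, w x * dF i x) = 0 := by
    intro i
    have e1 := ibp hR hK hKR hwc hw0 hwl i (hF i) (hdF i) (hder i)
    have e2 : ∫ x in R, (pd w i x * F i x + w x * dF i x) =
        ∫ x, (pd w i x * F i x + w x * dF i x) := by
      refine setIntegral_eq_integral_of_forall_compl_eq_zero fun x hx => ?_
      have hxK : x ∉ K := fun h => hx (hKR h)
      rw [hwp i x hxK, hw0 x hxK, zero_mul, zero_mul, add_zero]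
    have iPW : IntegrableOn (fun x => pd w i x * F i x) R :=
      ((iG i).sub (iX i)).congr (hpdw i).symm
    rw [integral_add iPW (iW i), integral_congr_ae (hpdw i), integral_sub (iG i) (iX i), e1] at e2
    linarith
  have hdivW : ∑ i, ∫ x in R, w x * dF i x = 0 := by
    rw [← integral_finsetSum _ (fun i _ => iW i)]
    refine setIntegral_eq_zero_of_forall_eq_zero fun x hx => ?_
    rw [← Finset.mul_sum, hdiv x hx, mul_zero]
  have hsum : ∑ i, ((∫ x in R, pd g i x * F i x) - (∫ x in R, pd χ i x * F i x) +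
      (∫ x in R, w x * dF i x)) = 0 := Finset.sum_eq_zero fun i _ => key i
  rw [Finset.sum_add_distrib, Finset.sum_sub_distrib, hdivW, add_zero] at hsum
  rw [integral_finsetSum _ (fun i _ => iX i), integral_finsetSum _ (fun i _ => iG i)]
  linarith

end Pool.Agent.Lib.MP_b8b490_an
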