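import Pool.Agent.Lib.MP_b8b490_an.A5

open MeasureTheory Set Filter Topology
open scoped ENNReal

namespace Pool.Agent.Lib.MP_b8b490_an

private theorem A6_euc_nonneg {n : ℕ} (v : Fin n → ℝ) : 0 ≤ euc v := Real.sqrt_nonneg _

private theorem A6_euc_mul {n : ℕ} {L : ℝ} (hL : 0 ≤ L) (v : Fin n → ℝ) :
    euc (fun i => L * v i) = L * euc v := by
  unfold euc
  have h1 : ∑ i, (L * v i) ^ 2 = L ^ 2 * ∑ i, v i ^ 2 := by
    rw [Finset.mul_sum]
    refine Finset.sum_congr rfl fun i _ => ?_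
    ring
  rw [h1, Real.sqrt_mul (sq_nonneg L), Real.sqrt_sq hL]

private theorem A6_euc_mono {n : ℕ} {v w : Fin n → ℝ} (h : ∀ i, |v i| ≤ |w i|) :
    euc v ≤ euc w := by
  unfold euc
  refine Real.sqrt_le_sqrt (Finset.sum_le_sum fun i _ => ?_)
  exact sq_le_sq.mpr (h i)

private theorem A6_trunc_lip {ε : ℝ} (hε2 : ε < 1 / 2) (s t : ℝ) :
    |trunc ε s - trunc ε t| ≤ (1 - 2 * ε)⁻¹ * |s - t| := by
  have hpos : 0 < 1 - 2 * ε := by linarith
  unfold trunc
  calc |max 0 (min 1 ((s - ε) / (1 - 2 * ε))) - max 0 (min 1 ((t - ε) / (1 - 2 * ε)))|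
      ≤ |min 1 ((s - ε) / (1 - 2 * ε)) - min 1 ((t - ε) / (1 - 2 * ε))| := by
        have := abs_max_sub_max_le_abs (min 1 ((s - ε) / (1 - 2 * ε)))
          (min 1 ((t - ε) / (1 - 2 * ε))) (0 : ℝ)
        rw [max_comm _ (0 : ℝ), max_comm _ (0 : ℝ)] at this
        exact this
    _ ≤ |(s - ε) / (1 - 2 * ε) - (t - ε) / (1 - 2 * ε)| := by
        have := abs_min_sub_min_le_max (1 : ℝ) ((s - ε) / (1 - 2 * ε)) 1
          ((t - ε) / (1 - 2 * ε))
        refine this.trans ?_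
        simp
    _ = (1 - 2 * ε)⁻¹ * |s - t| := by
        have : (s - ε) / (1 - 2 * ε) - (t - ε) / (1 - 2 * ε) = (1 - 2 * ε)⁻¹ * (s - t) := by
          field_simp
          ring
        rw [this, abs_mul, abs_of_pos (inv_pos.mpr hpos)]

private theorem A6_deriv_le {g : ℝ → ℝ} {x ε : ℝ} (hε2 : ε < 1 / 2)
    (hg : DifferentiableAt ℝ g x) :
    |deriv (fun s => trunc ε (g s)) x| ≤ (1 - 2 * ε)⁻¹ * |deriv g x| := by
  have hpos : 0 < 1 - 2 * ε := by linarith
  by_cases hd : DifferentiableAt ℝ (fun s => trunc ε (g s)) x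
  · have h1 := hasDerivAt_iff_tendsto_slope.mp hd.hasDerivAt
    have h2 := hasDerivAt_iff_tendsto_slope.mp hg.hasDerivAt
    have h3 := h1.abs
    have h4 := (h2.abs).const_mul ((1 - 2 * ε)⁻¹)
    refine le_of_tendsto_of_tendsto h3 h4 (Filter.Eventually.of_forall fun s => ?_)
    simp only [slope_def_field, abs_div]
    rw [← mul_div_assoc]
    exact div_le_div_of_nonneg_right (A6_trunc_lip hε2 _ _) (abs_nonneg _)
  · rw [deriv_zero_of_not_differentiableAt hd, abs_zero]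
    positivity

/-- the gradient of the truncated function -/
theorem euc_pd_trunc_le {k : ℕ} {R : Set (Fin (k + 1) → ℝ)} (hR : IsOpen R)
    {f : (Fin (k + 1) → ℝ) → ℝ} (hf : Continuous f) (hacl : LocAC R f)
    {ε : ℝ} (hε : 0 < ε) (hε2 : ε < 1 / 2) :
    ∀ᵐ x : Fin (k + 1) → ℝ, x ∈ R → euc (fun i => pd (fun y => trunc ε (f y)) i x) ≤
      (1 - 2 * ε)⁻¹ * euc (fun i => pd f i x) := by
  have hpos : 0 < 1 - 2 * ε := by linarith
  have hall : ∀ᵐ x : Fin (k + 1) → ℝ, ∀ i, x ∈ R →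
      DifferentiableAt ℝ (fun s : ℝ => f (Function.update x i s)) (x i) :=
    ae_all_iff.mpr fun i => hacl.ae_differentiableAt hR hf i
  filter_upwards [hall] with x hx hxR
  rw [← A6_euc_mul (inv_nonneg.mpr hpos.le)]
  refine A6_euc_mono fun i => ?_
  rw [abs_mul, abs_of_pos (inv_pos.mpr hpos)]
  exact A6_deriv_le hε2 (hx i hxR)

private theorem A6_cs {n : ℕ} (v w : Fin n → ℝ) : |∑ i, v i * w i| ≤ euc v * euc w := by
  unfold euc
  rw [← Real.sqrt_mul (Finset.sum_nonneg fun i _ => sq_nonneg _)]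
  exact Real.abs_le_sqrt (Finset.sum_mul_sq_le_sq_mul_sq _ _ _)

private theorem A6_bound {k : ℕ} (hk : 1 ≤ k) {R C0 C1 : Set (Fin (k + 1) → ℝ)} (hR : IsOpen R)
    (hRb : Bornology.IsBounded R) (hcov : ∀ x, x ∈ R ∨ x ∈ C0 ∨ x ∈ C1)
    {F dF : Fin (k + 1) → (Fin (k + 1) → ℝ) → ℝ} (hF : ∀ i, ContinuousOn (F i) R)
    (hdF : ∀ i, ContinuousOn (dF i) R)
    (hder : ∀ i, ∀ x ∈ R, HasDerivAt (fun s : ℝ => F i (Function.update x i s)) (dF i x) (x i))
    (hdiv : ∀ x ∈ R, ∑ i, dF i x = 0)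
    {χ : (Fin (k + 1) → ℝ) → ℝ} (hχ : ContDiff ℝ 1 χ) {U0 U1 : Set (Fin (k + 1) → ℝ)}
    (hU0 : IsOpen U0) (hU1 : IsOpen U1) (h0 : C0 ⊆ U0) (h1 : C1 ⊆ U1)
    (hχ0 : ∀ x ∈ U0, χ x = 0) (hχ1 : ∀ x ∈ U1, χ x = 1)
    {f : (Fin (k + 1) → ℝ) → ℝ} (hf : Admissible R C0 C1 f) (hfin : dirichlet R f ≠ ⊤)
    {ε : ℝ} (hε : 0 < ε) (hε2 : ε < 1 / 2) :
    ENNReal.ofReal (∫ x in R, ∑ i, pd χ i x * F i x) ≤
      ENNReal.ofReal ((1 - 2 * ε)⁻¹) * (dirichlet R f ^ (1 / (((k + 1 : ℕ) : ℝ))) *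
        (∫⁻ x in R, ENNReal.ofReal (euc (fun i => F i x) ^ ((((k + 1 : ℕ) : ℝ)) / k))) ^
          ((k : ℝ) / (((k + 1 : ℕ) : ℝ)))) := by
  obtain ⟨hfc, hfacl, hf0, hf1⟩ := hf
  have hcont : Continuous f := by
    have huniv : R ∪ C0 ∪ C1 = univ := by
      ext x
      simp only [mem_union, mem_univ, iff_true]
      rcases hcov x with h | h | h
      · exact Or.inl (Or.inl h)
      · exact Or.inl (Or.inr h)
      · exact Or.inr h
    rw [huniv] at hfc
    exact continuousOn_univ.mp hfc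
  have hloc : LocAC R f := hfacl.locAC hR
  have hpos : 0 < 1 - 2 * ε := by linarith
  have hk0 : (0 : ℝ) < k := by exact_mod_cast hk
  rw [flux_eq hR hRb hcov hF hdF hder hdiv hχ hU0 hU1 h0 h1 hχ0 hχ1 hcont hloc hf0 hf1 hfin hε hε2]
  have hmeasR : MeasurableSet R := hR.measurableSet
  have hb := euc_pd_trunc_le hR hcont hloc hε hε2
  have hmpd : Measurable (fun x => ENNReal.ofReal (euc (fun i => pd f i x))) := by
    unfold euc
    refine (Real.continuous_sqrt.measurable.comp ?_).ennreal_ofReal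
    exact Finset.measurable_sum _ fun i _ => (measurable_pd hcont i).pow_const 2
  have hmF : AEMeasurable (fun x => ENNReal.ofReal (euc (fun i => F i x)))
      (volume.restrict R) := by
    have : ContinuousOn (fun x => euc (fun i => F i x)) R := by
      unfold euc
      refine Real.continuous_sqrt.comp_continuousOn ?_
      exact continuousOn_finsetSum _ fun i _ => (hF i).pow 2
    exact (this.aemeasurable hmeasR).ennreal_ofReal
  have hconj : (((k + 1 : ℕ) : ℝ)).HolderConjugate ((((k + 1 : ℕ) : ℝ)) / k) := by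
    rw [Real.holderConjugate_iff]
    refine ⟨?_, ?_⟩
    · push_cast
      linarith
    · push_cast
      field_simp
      ring
  calc ENNReal.ofReal (∫ x in R, ∑ i, pd (fun y => trunc ε (f y)) i x * F i x)
      ≤ ‖∫ x in R, ∑ i, pd (fun y => trunc ε (f y)) i x * F i x‖ₑ := by
        rw [Real.enorm_eq_ofReal_abs]
        exact ENNReal.ofReal_le_ofReal (le_abs_self _)
    _ ≤ ∫⁻ x in R, ‖∑ i, pd (fun y => trunc ε (f y)) i x * F i x‖ₑ :=
        enorm_integral_le_lintegral_enorm _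
    _ ≤ ∫⁻ x in R, ENNReal.ofReal ((1 - 2 * ε)⁻¹) *
          (ENNReal.ofReal (euc (fun i => pd f i x)) * ENNReal.ofReal (euc (fun i => F i x))) := by
        refine lintegral_mono_ae ?_
        rw [ae_restrict_iff' hmeasR]
        filter_upwards [hb] with x hx hxR
        rw [Real.enorm_eq_ofReal_abs, ← mul_assoc,
          ← ENNReal.ofReal_mul (inv_nonneg.mpr hpos.le),
          ← ENNReal.ofReal_mul (mul_nonneg (inv_nonneg.mpr hpos.le) (A6_euc_nonneg _))]
        refine ENNReal.ofReal_le_ofReal ((A6_cs _ _).trans ?_)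
        exact mul_le_mul_of_nonneg_right (hx hxR) (A6_euc_nonneg _)
    _ = ENNReal.ofReal ((1 - 2 * ε)⁻¹) * ∫⁻ x in R,
          (ENNReal.ofReal (euc (fun i => pd f i x)) * ENNReal.ofReal (euc (fun i => F i x))) :=
        lintegral_const_mul' _ _ ENNReal.ofReal_ne_top
    _ ≤ _ := by
        gcongr
        have hH := ENNReal.lintegral_mul_le_Lp_mul_Lq (volume.restrict R) hconj
          hmpd.aemeasurable hmF
        refine (le_of_eq ?_).trans (hH.trans (le_of_eq ?_))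
        · rfl
        · congr 1
          · congr 1
            unfold dirichlet
            refine lintegral_congr fun x => ?_
            rw [ENNReal.rpow_natCast, ENNReal.ofReal_pow (A6_euc_nonneg _)]
          · have he : (1 : ℝ) / ((((k + 1 : ℕ) : ℝ)) / k) = (k : ℝ) / (((k + 1 : ℕ) : ℝ)) := by
              rw [one_div_div]
            rw [he]
            congr 1
            refine lintegral_congr fun x => ?_
            rw [ENNReal.ofReal_rpow_of_nonneg (A6_euc_nonneg _) (by positivity)]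

/-- the duality inequality -/
theorem dual {k : ℕ} (hk : 1 ≤ k) {R C0 C1 : Set (Fin (k + 1) → ℝ)} (hR : IsOpen R)
    (hRb : Bornology.IsBounded R) (hcov : ∀ x, x ∈ R ∨ x ∈ C0 ∨ x ∈ C1)
    {F dF : Fin (k + 1) → (Fin (k + 1) → ℝ) → ℝ} (hF : ∀ i, ContinuousOn (F i) R)
    (hdF : ∀ i, ContinuousOn (dF i) R)
    (hder : ∀ i, ∀ x ∈ R, HasDerivAt (fun s : ℝ => F i (Function.update x i s)) (dF i x) (x i))
    (hdiv : ∀ x ∈ R, ∑ i, dF i x = 0)
    {χ : (Fin (k + 1) → ℝ) → ℝ} (hχ : ContDiff ℝ 1 χ) {U0 U1 : Set (Fin (k + 1) → ℝ)}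
    (hU0 : IsOpen U0) (hU1 : IsOpen U1) (h0 : C0 ⊆ U0) (h1 : C1 ⊆ U1)
    (hχ0 : ∀ x ∈ U0, χ x = 0) (hχ1 : ∀ x ∈ U1, χ x = 1)
    {f : (Fin (k + 1) → ℝ) → ℝ} (hf : Admissible R C0 C1 f) (hfin : dirichlet R f ≠ ⊤) :
    ENNReal.ofReal (∫ x in R, ∑ i, pd χ i x * F i x) ≤
      dirichlet R f ^ (1 / (((k + 1 : ℕ) : ℝ))) *
        (∫⁻ x in R, ENNReal.ofReal (euc (fun i => F i x) ^ ((((k + 1 : ℕ) : ℝ)) / k))) ^
          ((k : ℝ) / (((k + 1 : ℕ) : ℝ))) := by
  set X : ℝ≥0∞ := dirichlet R f ^ (1 / (((k + 1 : ℕ) : ℝ))) *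
        (∫⁻ x in R, ENNReal.ofReal (euc (fun i => F i x) ^ ((((k + 1 : ℕ) : ℝ)) / k))) ^
          ((k : ℝ) / (((k + 1 : ℕ) : ℝ))) with hX
  have hlim : Tendsto (fun ε : ℝ => ENNReal.ofReal ((1 - 2 * ε)⁻¹) * X) (𝓝[>] 0) (𝓝 (1 * X)) := by
    refine ENNReal.Tendsto.mul_const ?_ (Or.inl one_ne_zero)
    have h2 : Tendsto (fun ε : ℝ => (1 - 2 * ε)⁻¹) (𝓝[>] 0) (𝓝 1) := by
      have h3 : ContinuousAt (fun ε : ℝ => (1 - 2 * ε)⁻¹) 0 := by
        refine ContinuousAt.inv₀ (by fun_prop) (by norm_num)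
      have h4 := h3.tendsto
      simp only [mul_zero, sub_zero, inv_one] at h4
      exact h4.mono_left nhdsWithin_le_nhds
    have h5 := ENNReal.tendsto_ofReal h2
    rwa [ENNReal.ofReal_one] at h5
  rw [one_mul] at hlim
  refine ge_of_tendsto hlim ?_
  have hmem : Set.Ioo (0 : ℝ) (1 / 2) ∈ 𝓝[>] (0 : ℝ) := Ioo_mem_nhdsGT (by norm_num)
  filter_upwards [hmem] with ε hε
  exact A6_bound hk hR hRb hcov hF hdF hder hdiv hχ hU0 hU1 h0 h1 hχ0 hχ1 hf hfin hε.1 hε.2

theorem sphereArea_three : sphereArea 3 = 4 * Real.pi := by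
  unfold sphereArea
  have hG : Real.Gamma (1 + ((3 : ℕ) : ℝ) / 2) = 3 / 4 * Real.sqrt Real.pi := by
    have e1 : (1 + ((3 : ℕ) : ℝ) / 2) = 3 / 2 + 1 := by push_cast; ring
    rw [e1, Real.Gamma_add_one (by norm_num)]
    have e2 : (3 / 2 : ℝ) = 1 / 2 + 1 := by norm_num
    rw [e2, Real.Gamma_add_one (by norm_num), Real.Gamma_one_half_eq]
    ring
  rw [hG]
  have hpi := Real.pi_pos
  have hp : Real.pi ^ (((3 : ℕ) : ℝ) / 2) = Real.pi * Real.sqrt Real.pi := by
    have e3 : (((3 : ℕ) : ℝ) / 2) = 1 + 1 / 2 := by push_cast; norm_num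
    rw [e3, Real.rpow_add hpi, Real.rpow_one, ← Real.sqrt_eq_rpow]
  rw [hp]
  have hs : Real.sqrt Real.pi ≠ 0 := (Real.sqrt_pos.mpr hpi).ne'
  push_cast
  field_simp

/-- from the duality inequality to the modulus; if `N = 0` or `cap = ⊤` the left side is `0` -/
theorem modulus_le {R C0 C1 : Set (Fin 3 → ℝ)} {N : ℝ} (hN : 0 ≤ N)
    (h : ∀ f, Admissible R C0 C1 f → dirichlet R f ≠ ⊤ →
      ENNReal.ofReal (4 * Real.pi) ≤
        dirichlet R f ^ ((1 : ℝ) / 3) * ENNReal.ofReal N ^ ((2 : ℝ) / 3)) :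
    modulus R C0 C1 ≤ N / (4 * Real.pi) := by
  have hpi := Real.pi_pos
  have h4 : 0 < 4 * Real.pi := by positivity
  unfold modulus
  rw [sphereArea_three]
  have hexp : (1 / (((3 : ℕ) : ℝ) - 1)) = 1 / 2 := by push_cast; norm_num
  rw [hexp, ← Real.sqrt_eq_rpow]
  by_cases htop : cap R C0 C1 = ⊤
  · rw [htop]
    simp only [ENNReal.toReal_top, div_zero, Real.sqrt_zero]
    positivity
  rcases hN.eq_or_lt with hN0 | hNpos
  · exfalso
    apply htop
    unfold cap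
    refine iInf_eq_top.mpr fun f => iInf_eq_top.mpr fun hf => ?_
    by_contra hne
    have h5 := h f hf hne
    rw [← hN0, ENNReal.ofReal_zero, ENNReal.zero_rpow_of_pos (by norm_num), mul_zero] at h5
    have h6 : ENNReal.ofReal (4 * Real.pi) = 0 := le_antisymm h5 (zero_le)
    rw [ENNReal.ofReal_eq_zero] at h6
    linarith
  · have hcap : ENNReal.ofReal ((4 * Real.pi) ^ 3 / N ^ 2) ≤ cap R C0 C1 := by
      unfold cap
      refine le_iInf fun f => le_iInf fun hf => ?_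
      by_cases hne : dirichlet R f = ⊤
      · rw [hne]
        exact le_top
      · have h5 := h f hf hne
        set D := (dirichlet R f).toReal with hD
        have hDr : dirichlet R f = ENNReal.ofReal D := (ENNReal.ofReal_toReal hne).symm
        rw [hDr] at h5 ⊢
        have hD0 : 0 ≤ D := ENNReal.toReal_nonneg
        rw [ENNReal.ofReal_rpow_of_nonneg hD0 (by norm_num),
          ENNReal.ofReal_rpow_of_nonneg hN (by norm_num),
          ← ENNReal.ofReal_mul (by positivity)] at h5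
        rw [ENNReal.ofReal_le_ofReal_iff (by positivity)] at h5
        refine ENNReal.ofReal_le_ofReal ?_
        rw [div_le_iff₀ (by positivity)]
        have h6 : (4 * Real.pi) ^ 3 ≤ (D ^ ((1 : ℝ) / 3) * N ^ ((2 : ℝ) / 3)) ^ 3 := by
          gcongr
        refine h6.trans (le_of_eq ?_)
        rw [mul_pow, ← Real.rpow_natCast, ← Real.rpow_natCast, ← Real.rpow_mul hD0,
          ← Real.rpow_mul hN]
        norm_num
    have hreal : (4 * Real.pi) ^ 3 / N ^ 2 ≤ (cap R C0 C1).toReal := by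
      have h7 := ENNReal.toReal_mono htop hcap
      rwa [ENNReal.toReal_ofReal (by positivity)] at h7
    have hpos3 : 0 < (4 * Real.pi) ^ 3 / N ^ 2 := by positivity
    have h8 : 4 * Real.pi / (cap R C0 C1).toReal ≤ (N / (4 * Real.pi)) ^ 2 := by
      calc 4 * Real.pi / (cap R C0 C1).toReal
          ≤ 4 * Real.pi / ((4 * Real.pi) ^ 3 / N ^ 2) := by gcongr
        _ = (N / (4 * Real.pi)) ^ 2 := by
            field_simp
    calc Real.sqrt (4 * Real.pi / (cap R C0 C1).toReal)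
        ≤ Real.sqrt ((N / (4 * Real.pi)) ^ 2) := Real.sqrt_le_sqrt h8
      _ = N / (4 * Real.pi) := Real.sqrt_sq (by positivity)

end Pool.Agent.Lib.MP_b8b490_an
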