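import Pool.Agent.Lib.MP_b8b490_an.Defs

open MeasureTheory Set Filter Topology
open scoped ENNReal

namespace Pool.Agent.Lib.MP_b8b490_an

/-! ### Row B1: the functions `rr`, `Cc`, `tt` -/

theorem continuous_rr {k : ℕ} (b : ℝ) : Continuous (rr (k := k) b) := by
  unfold rr euc
  fun_prop

theorem continuous_Cc {k : ℕ} (a : ℝ) : Continuous (Cc (k := k) a) := by
  have h1 := continuous_rr (k := k) 0
  have h2 := continuous_rr (k := k) a
  unfold Cc
  fun_prop

theorem continuous_tt {k : ℕ} (a : ℝ) : Continuous (tt (k := k) a) := by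
  have h1 := continuous_rr (k := k) 0
  have h2 := continuous_rr (k := k) a
  unfold tt
  fun_prop

theorem rr_nonneg {k : ℕ} (b : ℝ) (x : Fin (k + 1) → ℝ) : 0 ≤ rr b x := Real.sqrt_nonneg _

theorem rr_sq {k : ℕ} (b : ℝ) (x : Fin (k + 1) → ℝ) :
    rr b x ^ 2 = ∑ i, (x i - pt b i) ^ 2 := by
  unfold rr euc
  exact Real.sq_sqrt (Finset.sum_nonneg fun i _ => sq_nonneg _)

theorem rr_zero_eq {k : ℕ} (x : Fin (k + 1) → ℝ) : rr 0 x = euc x := by
  unfold rr pt
  simp

private theorem B1_pt_zero {k : ℕ} (b : ℝ) : pt (k := k) b 0 = b := by simp [pt]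

private theorem B1_pt_succ {k : ℕ} (b : ℝ) (i : Fin k) : pt (k := k) b i.succ = 0 := by
  simp [pt, Fin.succ_ne_zero]

private theorem B1_rr_sq' {k : ℕ} (b : ℝ) (x : Fin (k + 1) → ℝ) :
    rr b x ^ 2 = (x 0 - b) ^ 2 + ∑ i : Fin k, x i.succ ^ 2 := by
  rw [rr_sq, Fin.sum_univ_succ]
  simp [B1_pt_zero, B1_pt_succ]

/-- difference of the squares of the two distances -/
private theorem B1_sq_sub {k : ℕ} (a : ℝ) (x : Fin (k + 1) → ℝ) :
    rr 0 x ^ 2 - rr a x ^ 2 = 2 * a * x 0 - a ^ 2 := by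
  rw [B1_rr_sq', B1_rr_sq']
  ring

private theorem B1_x0_le {k : ℕ} (b : ℝ) (x : Fin (k + 1) → ℝ) : (x 0 - b) ^ 2 ≤ rr b x ^ 2 := by
  rw [B1_rr_sq']
  have : 0 ≤ ∑ i : Fin k, x i.succ ^ 2 := Finset.sum_nonneg fun i _ => sq_nonneg _
  linarith

/-- triangle inequalities in the triangle `0`, `(a, 0, ..., 0)`, `x` -/
theorem tt_le {k : ℕ} {a : ℝ} (ha : 0 < a) (x : Fin (k + 1) → ℝ) :
    -1 ≤ tt a x ∧ tt a x ≤ 1 ∧ 1 ≤ Cc a x := by
  have h1 := rr_nonneg 0 x
  have h2 := rr_nonneg a x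
  have h3 := B1_x0_le 0 x
  have h4 := B1_x0_le a x
  have h5 := B1_sq_sub a x
  have h6 : x 0 ≤ rr 0 x := by
    have := sq_le_sq.mp h3
    rw [sub_zero, abs_of_nonneg h1] at this
    exact (le_abs_self _).trans this
  have h6' : -x 0 ≤ rr 0 x := by
    have := sq_le_sq.mp h3
    rw [sub_zero, abs_of_nonneg h1] at this
    exact (neg_le_abs _).trans this
  have h7 : a - x 0 ≤ rr a x := by
    have := sq_le_sq.mp h4
    rw [abs_of_nonneg h2] at this
    have h8 := neg_le_abs (x 0 - a)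
    linarith
  have h7' : x 0 - a ≤ rr a x := by
    have := sq_le_sq.mp h4
    rw [abs_of_nonneg h2] at this
    exact (le_abs_self _).trans this
  refine ⟨?_, ?_, ?_⟩
  · unfold tt
    rw [le_div_iff₀ ha]
    -- `r2 ≤ r1 + a`
    by_contra hlt
    push Not at hlt
    nlinarith
  · unfold tt
    rw [div_le_iff₀ ha]
    by_contra hlt
    push Not at hlt
    nlinarith
  · unfold Cc
    rw [le_div_iff₀ ha]
    linarith

theorem one_lt_Cc_iff {k : ℕ} {a : ℝ} (ha : 0 < a) (x : Fin (k + 1) → ℝ) :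
    1 < Cc a x ↔ x ∉ slit a := by
  have hC := (tt_le ha x).2.2
  have h1 := rr_nonneg 0 x
  have h2 := rr_nonneg a x
  have h5 := B1_sq_sub a x
  constructor
  · intro h hx
    obtain ⟨hx0, hxa, hxi⟩ := hx
    have e1 : rr 0 x = x 0 := by
      have : rr 0 x ^ 2 = x 0 ^ 2 := by
        rw [B1_rr_sq']
        have : ∑ i : Fin k, x i.succ ^ 2 = 0 :=
          Finset.sum_eq_zero fun i _ => by rw [hxi _ (Fin.succ_ne_zero i)]; ring
        rw [this]
        ring
      nlinarith [sq_nonneg (rr 0 x - x 0)]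
    have e2 : rr a x = a - x 0 := by
      have : rr a x ^ 2 = (a - x 0) ^ 2 := by
        rw [B1_rr_sq']
        have : ∑ i : Fin k, x i.succ ^ 2 = 0 :=
          Finset.sum_eq_zero fun i _ => by rw [hxi _ (Fin.succ_ne_zero i)]; ring
        rw [this]
        ring
      have h0 : 0 ≤ a - x 0 := by linarith
      exact (pow_left_inj₀ h2 h0 (by norm_num)).mp this
    unfold Cc at h
    rw [e1, e2] at h
    have : (x 0 + (a - x 0)) / a = 1 := by field_simp; ring
    linarith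
  · intro hx
    by_contra hle
    have hC1 : Cc a x = 1 := le_antisymm (not_lt.mp hle) hC
    apply hx
    unfold Cc at hC1
    rw [div_eq_one_iff_eq ha.ne'] at hC1
    have e3 : rr 0 x - rr a x = 2 * x 0 - a := by
      have h6 : a * (rr 0 x - rr a x) = a * (2 * x 0 - a) := by
        have h7 : (rr 0 x + rr a x) * (rr 0 x - rr a x) = 2 * a * x 0 - a ^ 2 := by
          rw [← h5]
          ring
        rw [hC1] at h7
        rw [h7]
        ring
      exact mul_left_cancel₀ ha.ne' h6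
    have e1 : rr 0 x = x 0 := by linarith
    have e2 : rr a x = a - x 0 := by linarith
    have hs : ∑ i : Fin k, x i.succ ^ 2 = 0 := by
      have := B1_rr_sq' 0 x
      rw [e1] at this
      linarith
    refine ⟨by linarith, by linarith, fun i hi => ?_⟩
    obtain ⟨j, rfl⟩ := Fin.exists_succ_eq.mpr hi
    have := (Finset.sum_eq_zero_iff_of_nonneg fun i _ => sq_nonneg (x (Fin.succ i))).mp hs j
      (Finset.mem_univ j)
    exact pow_eq_zero_iff (two_ne_zero) |>.mp this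

theorem rr_pos {k : ℕ} {a : ℝ} (ha : 0 < a) {x : Fin (k + 1) → ℝ} (hx : x ∉ slit a) :
    0 < rr 0 x ∧ 0 < rr a x := by
  have hC := (one_lt_Cc_iff ha x).mpr hx
  obtain ⟨ht1, ht2, -⟩ := tt_le ha x
  unfold Cc at hC
  unfold tt at ht1 ht2
  rw [lt_div_iff₀ ha] at hC
  rw [le_div_iff₀ ha] at ht1
  rw [div_le_iff₀ ha] at ht2
  constructor <;> linarith

theorem isClosed_slit {k : ℕ} (a : ℝ) : IsClosed (slit (k := k) a) := by
  have h1 : IsClosed {x : Fin (k + 1) → ℝ | 0 ≤ x 0} :=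
    isClosed_le continuous_const (continuous_apply 0)
  have h2 : IsClosed {x : Fin (k + 1) → ℝ | x 0 ≤ a} :=
    isClosed_le (continuous_apply 0) continuous_const
  have h3 : IsClosed {x : Fin (k + 1) → ℝ | ∀ i, i ≠ 0 → x i = 0} := by
    simp only [Set.ofPred_forall]
    exact isClosed_iInter fun i => isClosed_iInter fun _ =>
      isClosed_eq (continuous_apply i) continuous_const
  exact h1.inter (h2.inter h3)

theorem rr_mul_rr {k : ℕ} {a : ℝ} (ha : 0 < a) (x : Fin (k + 1) → ℝ) :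
    rr 0 x * rr a x = (a / 2) ^ 2 * (Cc a x ^ 2 - tt a x ^ 2) := by
  unfold Cc tt
  field_simp
  ring

theorem continuousOn_dC {k : ℕ} {a : ℝ} (ha : 0 < a) (i : Fin (k + 1)) :
    ContinuousOn (dC a i) (slit a)ᶜ := by
  have h1 := (continuous_rr (k := k) 0).continuousOn (s := (slit a)ᶜ)
  have h2 := (continuous_rr (k := k) a).continuousOn (s := (slit a)ᶜ)
  have h3 : ContinuousOn (fun x : Fin (k + 1) → ℝ => x i) (slit a)ᶜ :=
    (continuous_apply i).continuousOn
  exact ((h3.div h1 fun x hx => (rr_pos ha hx).1.ne').add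
    ((h3.sub continuousOn_const).div h2 fun x hx => (rr_pos ha hx).2.ne')).div_const a

theorem continuousOn_dT {k : ℕ} {a : ℝ} (ha : 0 < a) (i : Fin (k + 1)) :
    ContinuousOn (dT a i) (slit a)ᶜ := by
  have h1 := (continuous_rr (k := k) 0).continuousOn (s := (slit a)ᶜ)
  have h2 := (continuous_rr (k := k) a).continuousOn (s := (slit a)ᶜ)
  have h3 : ContinuousOn (fun x : Fin (k + 1) → ℝ => x i) (slit a)ᶜ :=
    (continuous_apply i).continuousOn
  exact ((h3.div h1 fun x hx => (rr_pos ha hx).1.ne').sub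
    ((h3.sub continuousOn_const).div h2 fun x hx => (rr_pos ha hx).2.ne')).div_const a

/-- the three sums of products of the vectors `p = x` and `q = x - (a, 0, ..., 0)` -/
private theorem B1_sums {k : ℕ} (a : ℝ) (x : Fin (k + 1) → ℝ) :
    ∑ i, x i ^ 2 = rr 0 x ^ 2 ∧ ∑ i, (x i - pt a i) ^ 2 = rr a x ^ 2 ∧
      ∑ i, x i * (x i - pt a i) = (rr 0 x ^ 2 + rr a x ^ 2 - a ^ 2) / 2 := by
  refine ⟨?_, (rr_sq a x).symm, ?_⟩
  · rw [rr_sq]
    simp [pt]
  · rw [B1_rr_sq', B1_rr_sq', Fin.sum_univ_succ]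
    simp only [B1_pt_zero, B1_pt_succ, sub_zero]
    have : ∑ i : Fin k, x i.succ * x i.succ = ∑ i : Fin k, x i.succ ^ 2 :=
      Finset.sum_congr rfl fun i _ => by ring
    rw [this]
    ring

theorem sum_dC_sq {k : ℕ} {a : ℝ} (ha : 0 < a) {x : Fin (k + 1) → ℝ} (hx : x ∉ slit a) :
    ∑ i, dC a i x ^ 2 = (Cc a x ^ 2 - 1) / (rr 0 x * rr a x) := by
  obtain ⟨h1, h2, h3⟩ := B1_sums a x
  obtain ⟨p1, p2⟩ := rr_pos ha hx
  have e : ∀ i, dC a i x ^ 2 = (1 / (rr 0 x ^ 2 * a ^ 2)) * x i ^ 2 +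
      (1 / (rr a x ^ 2 * a ^ 2)) * (x i - pt a i) ^ 2 +
      (2 / (rr 0 x * rr a x * a ^ 2)) * (x i * (x i - pt a i)) := by
    intro i
    unfold dC
    field_simp
    ring
  simp only [e, Finset.sum_add_distrib, ← Finset.mul_sum, h1, h2, h3]
  unfold Cc
  field_simp
  ring

theorem sum_dT_sq {k : ℕ} {a : ℝ} (ha : 0 < a) {x : Fin (k + 1) → ℝ} (hx : x ∉ slit a) :
    ∑ i, dT a i x ^ 2 = (1 - tt a x ^ 2) / (rr 0 x * rr a x) := by
  obtain ⟨h1, h2, h3⟩ := B1_sums a x
  obtain ⟨p1, p2⟩ := rr_pos ha hx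
  have e : ∀ i, dT a i x ^ 2 = (1 / (rr 0 x ^ 2 * a ^ 2)) * x i ^ 2 +
      (1 / (rr a x ^ 2 * a ^ 2)) * (x i - pt a i) ^ 2 -
      (2 / (rr 0 x * rr a x * a ^ 2)) * (x i * (x i - pt a i)) := by
    intro i
    unfold dT
    field_simp
    ring
  simp only [e, Finset.sum_add_distrib, Finset.sum_sub_distrib, ← Finset.mul_sum, h1, h2, h3]
  unfold tt
  field_simp
  ring

theorem sum_dC_mul_dT {k : ℕ} {a : ℝ} (ha : 0 < a) {x : Fin (k + 1) → ℝ} (hx : x ∉ slit a) :
    ∑ i, dC a i x * dT a i x = 0 := by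
  obtain ⟨h1, h2, h3⟩ := B1_sums a x
  obtain ⟨p1, p2⟩ := rr_pos ha hx
  have e : ∀ i, dC a i x * dT a i x = (1 / (rr 0 x ^ 2 * a ^ 2)) * x i ^ 2 -
      (1 / (rr a x ^ 2 * a ^ 2)) * (x i - pt a i) ^ 2 := by
    intro i
    unfold dC dT
    field_simp
    ring
  simp only [e, Finset.sum_sub_distrib, ← Finset.mul_sum, h1, h2]
  field_simp
  ring

/-- second derivatives -/
noncomputable def ddr {k : ℕ} (b : ℝ) (i : Fin (k + 1)) (x : Fin (k + 1) → ℝ) : ℝ :=
  1 / rr b x - (x i - pt b i) ^ 2 / rr b x ^ 3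

theorem hasDerivAt_rr {k : ℕ} {b : ℝ} {x : Fin (k + 1) → ℝ} (hx : 0 < rr b x)
    (i : Fin (k + 1)) :
    HasDerivAt (fun s : ℝ => rr b (Function.update x i s)) ((x i - pt b i) / rr b x) (x i) := by
  have h1 : ∀ j, HasDerivAt (fun s : ℝ => (Function.update x i s j - pt b j) ^ 2)
      (if j = i then 2 * (x i - pt b i) else 0) (x i) := by
    intro j
    by_cases hj : j = i
    · subst hj
      simp only [Function.update_self, if_true]
      have h := ((hasDerivAt_id (x j)).sub_const (pt b j)).fun_pow 2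
      simpa using h
    · simp only [Function.update_of_ne hj, if_neg hj]
      exact hasDerivAt_const _ _
  have h2 : HasDerivAt (fun s : ℝ => ∑ j, (Function.update x i s j - pt b j) ^ 2)
      (2 * (x i - pt b i)) (x i) := by
    have := HasDerivAt.fun_sum (u := Finset.univ) fun j _ => h1 j
    simpa using this
  have h3 : (∑ j, (Function.update x i (x i) j - pt b j) ^ 2) = rr b x ^ 2 := by
    rw [Function.update_eq_self, rr_sq]
  have h4 : (∑ j, (Function.update x i (x i) j - pt b j) ^ 2) ≠ 0 := by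
    rw [h3]
    positivity
  have h5 := h2.sqrt h4
  rw [h3, Real.sqrt_sq hx.le] at h5
  have h6 : 2 * (x i - pt b i) / (2 * rr b x) = (x i - pt b i) / rr b x := by
    field_simp
  rw [h6] at h5
  exact h5

theorem hasDerivAt_drr {k : ℕ} {b : ℝ} {x : Fin (k + 1) → ℝ} (hx : 0 < rr b x)
    (i : Fin (k + 1)) :
    HasDerivAt (fun s : ℝ => (Function.update x i s i - pt b i) / rr b (Function.update x i s))
      (ddr b i x) (x i) := by
  have h1 := hasDerivAt_rr hx i
  have h2 : HasDerivAt (fun s : ℝ => Function.update x i s i - pt b i) 1 (x i) := by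
    simp only [Function.update_self]
    exact (hasDerivAt_id (x i)).sub_const _
  have h3 : rr b (Function.update x i (x i)) ≠ 0 := by
    rw [Function.update_eq_self]
    exact hx.ne'
  have h4 := h2.div h1 h3
  refine h4.congr_deriv ?_
  simp only [Function.update_eq_self]
  unfold ddr
  field_simp

theorem sum_ddr {k : ℕ} {b : ℝ} {x : Fin (k + 1) → ℝ} (hx : 0 < rr b x) :
    ∑ i, ddr b i x = k / rr b x := by
  unfold ddr
  rw [Finset.sum_sub_distrib, ← Finset.sum_div Finset.univ (fun i => (x i - pt b i) ^ 2), ← rr_sq]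
  simp only [Finset.sum_const, Finset.card_univ, Fintype.card_fin, nsmul_eq_mul]
  push_cast
  field_simp
  ring

theorem continuousOn_ddr {k : ℕ} (b : ℝ) (i : Fin (k + 1)) :
    ContinuousOn (ddr (k := k) b i) {x | 0 < rr b x} := by
  have h1 := (continuous_rr (k := k) b).continuousOn (s := {x | 0 < rr b x})
  have h3 : ContinuousOn (fun x : Fin (k + 1) → ℝ => x i) {x | 0 < rr b x} :=
    (continuous_apply i).continuousOn
  exact (continuousOn_const.div h1 fun x hx => (ne_of_gt hx)).sub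
    (((h3.sub continuousOn_const).pow 2).div (h1.pow 3) fun x hx =>
      pow_ne_zero 3 (ne_of_gt hx))

theorem hasDerivAt_Cc {k : ℕ} {a : ℝ} (ha : 0 < a) {x : Fin (k + 1) → ℝ} (hx : x ∉ slit a)
    (i : Fin (k + 1)) :
    HasDerivAt (fun s : ℝ => Cc a (Function.update x i s)) (dC a i x) (x i) := by
  obtain ⟨p1, p2⟩ := rr_pos ha hx
  have h := ((hasDerivAt_rr p1 i).add (hasDerivAt_rr p2 i)).div_const a
  have e : x i - pt 0 i = x i := by simp [pt]
  rw [e] at h
  exact h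

theorem hasDerivAt_tt {k : ℕ} {a : ℝ} (ha : 0 < a) {x : Fin (k + 1) → ℝ} (hx : x ∉ slit a)
    (i : Fin (k + 1)) :
    HasDerivAt (fun s : ℝ => tt a (Function.update x i s)) (dT a i x) (x i) := by
  obtain ⟨p1, p2⟩ := rr_pos ha hx
  have h := ((hasDerivAt_rr p1 i).sub (hasDerivAt_rr p2 i)).div_const a
  have e : x i - pt 0 i = x i := by simp [pt]
  rw [e] at h
  exact h

end Pool.Agent.Lib.MP_b8b490_an
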