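import Pool.Agent.Lib.MP_b8b490_an.B1

open MeasureTheory Set Filter Topology
open scoped ENNReal

namespace Pool.Agent.Lib.MP_b8b490_an

/-! ### Row B2: the field `α(C, t) ∇C + β(C, t) ∇t` -/

/-- `C¹` functions of `(C, t)` for `C > 1`, with given first derivatives -/
structure IsC1 (α αC αt : ℝ → ℝ → ℝ) : Prop where
  deriv : ∀ C t, 1 < C → HasFDerivAt (fun p : ℝ × ℝ => α p.1 p.2)
    (αC C t • ContinuousLinearMap.fst ℝ ℝ ℝ + αt C t • ContinuousLinearMap.snd ℝ ℝ ℝ) (C, t)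
  contC : ContinuousOn (fun p : ℝ × ℝ => αC p.1 p.2) {p | 1 < p.1}
  contt : ContinuousOn (fun p : ℝ × ℝ => αt p.1 p.2) {p | 1 < p.1}

/-- the derivative of the `i`-th component in direction `i` -/
noncomputable def dfld {k : ℕ} (a : ℝ) (α αC αt β βC βt : ℝ → ℝ → ℝ) (i : Fin (k + 1))
    (x : Fin (k + 1) → ℝ) : ℝ :=
  (αC (Cc a x) (tt a x) * dC a i x + αt (Cc a x) (tt a x) * dT a i x) * dC a i x +
    α (Cc a x) (tt a x) * ((ddr 0 i x + ddr a i x) / a) +
    (βC (Cc a x) (tt a x) * dC a i x + βt (Cc a x) (tt a x) * dT a i x) * dT a i x +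
    β (Cc a x) (tt a x) * ((ddr 0 i x - ddr a i x) / a)

variable {k : ℕ} {a : ℝ} {α αC αt β βC βt : ℝ → ℝ → ℝ}

/-- continuity of functions of `(C, t)` off the slit -/
private theorem B2_comp (ha : 0 < a) {g : ℝ → ℝ → ℝ}
    (hg : ContinuousOn (fun p : ℝ × ℝ => g p.1 p.2) {p | 1 < p.1}) :
    ContinuousOn (fun x : Fin (k + 1) → ℝ => g (Cc a x) (tt a x)) (slit a)ᶜ := by
  have h1 : ContinuousOn (fun x : Fin (k + 1) → ℝ => (Cc a x, tt a x)) (slit a)ᶜ :=
    ((continuous_Cc a).prodMk (continuous_tt a)).continuousOn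
  exact hg.comp h1 fun x hx => (one_lt_Cc_iff ha x).mpr hx

private theorem B2_cont (h : IsC1 α αC αt) :
    ContinuousOn (fun p : ℝ × ℝ => α p.1 p.2) {p | 1 < p.1} := by
  rintro ⟨C, t⟩ hp
  exact (h.deriv C t hp).continuousAt.continuousWithinAt

theorem fld_cont (ha : 0 < a) (hα : IsC1 α αC αt) (hβ : IsC1 β βC βt) (i : Fin (k + 1)) :
    ContinuousOn (fld a α β i) (slit a)ᶜ :=
  ((B2_comp ha (B2_cont hα)).mul (continuousOn_dC ha i)).add
    ((B2_comp ha (B2_cont hβ)).mul (continuousOn_dT ha i))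

theorem dfld_cont (ha : 0 < a) (hα : IsC1 α αC αt) (hβ : IsC1 β βC βt) (i : Fin (k + 1)) :
    ContinuousOn (dfld a α αC αt β βC βt i) (slit a)ᶜ := by
  have hd0 : ContinuousOn (ddr (k := k) 0 i) (slit a)ᶜ :=
    (continuousOn_ddr 0 i).mono fun x hx => (rr_pos ha hx).1
  have hda : ContinuousOn (ddr (k := k) a i) (slit a)ᶜ :=
    (continuousOn_ddr a i).mono fun x hx => (rr_pos ha hx).2
  have hC := continuousOn_dC (k := k) ha i
  have hT := continuousOn_dT (k := k) ha i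
  exact (((((((B2_comp ha hα.contC).mul hC).add ((B2_comp ha hα.contt).mul hT)).mul hC).add
    ((B2_comp ha (B2_cont hα)).mul ((hd0.add hda).div_const a))).add
      ((((B2_comp ha hβ.contC).mul hC).add ((B2_comp ha hβ.contt).mul hT)).mul hT))).add
    ((B2_comp ha (B2_cont hβ)).mul ((hd0.sub hda).div_const a))

/-- chain rule -/
private theorem B2_chain (ha : 0 < a) (h : IsC1 α αC αt) (i : Fin (k + 1))
    {x : Fin (k + 1) → ℝ} (hx : x ∉ slit a) :
    HasDerivAt (fun s : ℝ => α (Cc a (Function.update x i s)) (tt a (Function.update x i s)))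
      (αC (Cc a x) (tt a x) * dC a i x + αt (Cc a x) (tt a x) * dT a i x) (x i) := by
  have h1 := (hasDerivAt_Cc ha hx i).prodMk (hasDerivAt_tt ha hx i)
  have h2 := h.deriv (Cc a x) (tt a x) ((one_lt_Cc_iff ha x).mpr hx)
  have h3 : HasFDerivAt (fun p : ℝ × ℝ => α p.1 p.2)
      (αC (Cc a x) (tt a x) • ContinuousLinearMap.fst ℝ ℝ ℝ +
        αt (Cc a x) (tt a x) • ContinuousLinearMap.snd ℝ ℝ ℝ)
      ((fun s : ℝ => (Cc a (Function.update x i s), tt a (Function.update x i s))) (x i)) := by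
    simpa using h2
  have h4 := h3.comp_hasDerivAt (x i) h1
  simpa [Function.comp_def] using h4

theorem fld_deriv (ha : 0 < a) (hα : IsC1 α αC αt) (hβ : IsC1 β βC βt) (i : Fin (k + 1))
    {x : Fin (k + 1) → ℝ} (hx : x ∉ slit a) :
    HasDerivAt (fun s : ℝ => fld a α β i (Function.update x i s))
      (dfld a α αC αt β βC βt i x) (x i) := by
  obtain ⟨p1, p2⟩ := rr_pos ha hx
  have h1 := B2_chain ha hα i hx
  have h2 := B2_chain ha hβ i hx
  have e0 : pt (k := k) 0 i = 0 := by simp [pt]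
  have h3 := hasDerivAt_drr p1 i
  have h4 := hasDerivAt_drr p2 i
  rw [e0] at h3
  simp only [sub_zero] at h3
  have hC : HasDerivAt (fun s : ℝ => dC a i (Function.update x i s))
      ((ddr 0 i x + ddr a i x) / a) (x i) := (h3.add h4).div_const a
  have hT : HasDerivAt (fun s : ℝ => dT a i (Function.update x i s))
      ((ddr 0 i x - ddr a i x) / a) (x i) := (h3.sub h4).div_const a
  have h5 := (h1.mul hC).add (h2.mul hT)
  refine h5.congr_deriv ?_
  simp only [Function.update_eq_self]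
  unfold dfld
  ring

theorem fld_div (ha : 0 < a)
    (hid : ∀ C t, 1 < C → αC C t * (C ^ 2 - 1) + k * C * α C t + βt C t * (1 - t ^ 2) -
      k * t * β C t = 0) {x : Fin (k + 1) → ℝ} (hx : x ∉ slit a) :
    ∑ i, dfld a α αC αt β βC βt i x = 0 := by
  obtain ⟨p1, p2⟩ := rr_pos ha hx
  have hid' := hid (Cc a x) (tt a x) ((one_lt_Cc_iff ha x).mpr hx)
  have s1 := sum_dC_sq ha hx
  have s2 := sum_dT_sq ha hx
  have s3 := sum_dC_mul_dT ha hx
  have s4 := sum_ddr p1
  have s5 := sum_ddr p2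
  have e : ∀ i, dfld a α αC αt β βC βt i x =
      αC (Cc a x) (tt a x) * dC a i x ^ 2 +
        (αt (Cc a x) (tt a x) + βC (Cc a x) (tt a x)) * (dC a i x * dT a i x) +
        βt (Cc a x) (tt a x) * dT a i x ^ 2 +
        (α (Cc a x) (tt a x) / a) * (ddr 0 i x + ddr a i x) +
        (β (Cc a x) (tt a x) / a) * (ddr 0 i x - ddr a i x) := by
    intro i
    unfold dfld
    ring
  simp only [e, Finset.sum_add_distrib, Finset.sum_sub_distrib, ← Finset.mul_sum, s1, s2, s3, s4, s5]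
  have hC : Cc a x * a = rr 0 x + rr a x := by
    unfold Cc
    field_simp
  have hT : tt a x * a = rr 0 x - rr a x := by
    unfold tt
    field_simp
  have e2 : (k : ℝ) / rr 0 x + k / rr a x = k * (Cc a x * a) / (rr 0 x * rr a x) := by
    rw [hC]
    field_simp
    ring
  have e3 : (k : ℝ) / rr 0 x - k / rr a x = -(k * (tt a x * a) / (rr 0 x * rr a x)) := by
    rw [hT]
    field_simp
    ring
  rw [e2, e3]
  have : αC (Cc a x) (tt a x) * ((Cc a x ^ 2 - 1) / (rr 0 x * rr a x)) +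
      (αt (Cc a x) (tt a x) + βC (Cc a x) (tt a x)) * 0 +
      βt (Cc a x) (tt a x) * ((1 - tt a x ^ 2) / (rr 0 x * rr a x)) +
      α (Cc a x) (tt a x) / a * (k * (Cc a x * a) / (rr 0 x * rr a x)) +
      β (Cc a x) (tt a x) / a * -(k * (tt a x * a) / (rr 0 x * rr a x)) =
      (αC (Cc a x) (tt a x) * (Cc a x ^ 2 - 1) + k * Cc a x * α (Cc a x) (tt a x) +
        βt (Cc a x) (tt a x) * (1 - tt a x ^ 2) - k * tt a x * β (Cc a x) (tt a x)) /
        (rr 0 x * rr a x) := by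
    field_simp
    ring
  rw [this, hid', zero_div]

theorem fld_norm (ha : 0 < a) {x : Fin (k + 1) → ℝ} (hx : x ∉ slit a) :
    euc (fun i => fld a α β i x) =
      Real.sqrt ((α (Cc a x) (tt a x) ^ 2 * (Cc a x ^ 2 - 1) +
        β (Cc a x) (tt a x) ^ 2 * (1 - tt a x ^ 2)) / (rr 0 x * rr a x)) := by
  unfold euc
  congr 1
  have e : ∀ i, fld a α β i x ^ 2 = α (Cc a x) (tt a x) ^ 2 * dC a i x ^ 2 +
      (2 * α (Cc a x) (tt a x) * β (Cc a x) (tt a x)) * (dC a i x * dT a i x) +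
      β (Cc a x) (tt a x) ^ 2 * dT a i x ^ 2 := by
    intro i
    unfold fld
    ring
  simp only [e, Finset.sum_add_distrib, ← Finset.mul_sum, sum_dC_sq ha hx, sum_dT_sq ha hx,
    sum_dC_mul_dT ha hx]
  ring

theorem fld_dC (ha : 0 < a) {x : Fin (k + 1) → ℝ} (hx : x ∉ slit a) :
    ∑ i, dC a i x * fld a α β i x =
      α (Cc a x) (tt a x) * (Cc a x ^ 2 - 1) / (rr 0 x * rr a x) := by
  have e : ∀ i, dC a i x * fld a α β i x = α (Cc a x) (tt a x) * dC a i x ^ 2 +
      β (Cc a x) (tt a x) * (dC a i x * dT a i x) := by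
    intro i
    unfold fld
    ring
  simp only [e, Finset.sum_add_distrib, ← Finset.mul_sum, sum_dC_sq ha hx, sum_dC_mul_dT ha hx]
  ring

end Pool.Agent.Lib.MP_b8b490_an
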