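import Pool.Agent.Lib.MP_b8b490_an.Defs

open MeasureTheory Set Filter Topology
open scoped ENNReal

namespace Pool.Agent.Lib.MP_b8b490_an

private theorem C1_plane {h : ℝ → ℝ≥0∞} (hh : Measurable h) :
    ∫⁻ y : Fin 2 → ℝ, h (Real.sqrt (y 0 ^ 2 + y 1 ^ 2)) =
      ∫⁻ r in Ioi (0 : ℝ), ENNReal.ofReal (2 * Real.pi * r) * h r := by
  have hm : Measurable fun q : ℝ × ℝ => h (Real.sqrt (q.1 ^ 2 + q.2 ^ 2)) :=
    hh.comp (by fun_prop)
  have h1 : ∫⁻ y : Fin 2 → ℝ, h (Real.sqrt (y 0 ^ 2 + y 1 ^ 2)) =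
      ∫⁻ q : ℝ × ℝ, h (Real.sqrt (q.1 ^ 2 + q.2 ^ 2)) :=
    (volume_preserving_finTwoArrow ℝ).lintegral_comp hm
  rw [h1, ← lintegral_comp_polarCoord_symm]
  have h2 : ∫⁻ p in polarCoord.target, ENNReal.ofReal p.1 •
      h (Real.sqrt ((polarCoord.symm p).1 ^ 2 + (polarCoord.symm p).2 ^ 2)) =
      ∫⁻ p in Ioi (0 : ℝ) ×ˢ Ioo (-Real.pi) Real.pi, ENNReal.ofReal p.1 * h p.1 := by
    have ht : polarCoord.target = Ioi (0 : ℝ) ×ˢ Ioo (-Real.pi) Real.pi := rfl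
    rw [ht]
    refine setLIntegral_congr_fun (measurableSet_Ioi.prod measurableSet_Ioo) ?_
    rintro ⟨r, θ⟩ ⟨hr, -⟩
    have hr' : (0 : ℝ) < r := hr
    simp only [polarCoord_symm_apply, smul_eq_mul]
    have e : (r * Real.cos θ) ^ 2 + (r * Real.sin θ) ^ 2 = r ^ 2 := by
      have := Real.sin_sq_add_cos_sq θ
      linear_combination r ^ 2 * this
    rw [e, Real.sqrt_sq hr'.le]
  rw [h2]
  have hm2 : Measurable fun p : ℝ × ℝ => ENNReal.ofReal p.1 * h p.1 := by fun_prop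
  rw [Measure.volume_eq_prod, ← Measure.prod_restrict, lintegral_prod _ hm2.aemeasurable]
  refine setLIntegral_congr_fun measurableSet_Ioi ?_
  intro r hr
  have hr' : (0 : ℝ) < r := hr
  simp only
  rw [lintegral_const, Measure.restrict_apply_univ, Real.volume_Ioo]
  have e : Real.pi - -Real.pi = 2 * Real.pi := by ring
  have e2 : ENNReal.ofReal (2 * Real.pi * r) =
      ENNReal.ofReal (2 * Real.pi) * ENNReal.ofReal r := ENNReal.ofReal_mul (by positivity)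
  rw [e, e2]
  ring

/-- Row C1: integrals of rotation symmetric functions on `ℝ³` (`lintegral_comp_polarCoord_symm`) -/
theorem lintegral_axisym {g : ℝ × ℝ → ℝ≥0∞} (hg : Measurable g) :
    ∫⁻ x : Fin 3 → ℝ, g (x 0, Real.sqrt (x 1 ^ 2 + x 2 ^ 2)) =
      ∫⁻ p in (univ : Set ℝ) ×ˢ Ioi (0 : ℝ), ENNReal.ofReal (2 * Real.pi * p.2) * g p := by
  have hm : Measurable fun z : ℝ × (Fin 2 → ℝ) => g (z.1, Real.sqrt (z.2 0 ^ 2 + z.2 1 ^ 2)) :=
    hg.comp (by fun_prop)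
  have h1 : ∫⁻ x : Fin 3 → ℝ, g (x 0, Real.sqrt (x 1 ^ 2 + x 2 ^ 2)) =
      ∫⁻ z : ℝ × (Fin 2 → ℝ), g (z.1, Real.sqrt (z.2 0 ^ 2 + z.2 1 ^ 2)) :=
    (volume_preserving_piFinSuccAbove (fun _ : Fin 3 => ℝ) 0).lintegral_comp hm
  rw [h1, Measure.volume_eq_prod, lintegral_prod _ hm.aemeasurable]
  have hm2 : Measurable fun p : ℝ × ℝ => ENNReal.ofReal (2 * Real.pi * p.2) * g p := by fun_prop
  rw [Measure.volume_eq_prod, ← Measure.prod_restrict, lintegral_prod _ hm2.aemeasurable,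
    Measure.restrict_univ]
  refine lintegral_congr fun s => ?_
  exact C1_plane (h := fun r => g (s, r)) (hg.comp (by fun_prop))

end Pool.Agent.Lib.MP_b8b490_an
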