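import Pool.Agent.Lib.MP_b8b490_an.Defs

open MeasureTheory Set Filter Topology
open scoped ENNReal

namespace Pool.Agent.Lib.MP_b8b490_an

/-- elliptic coordinates in the half plane; the foci are `0` and `a` -/
noncomputable def Psi (a : ℝ) (q : ℝ × ℝ) : ℝ × ℝ :=
  (a / 2 + a / 2 * (q.1 * q.2), a / 2 * (Real.sqrt (q.1 ^ 2 - 1) * Real.sqrt (1 - q.2 ^ 2)))

/-- the inverse map -/
noncomputable def Phi (a : ℝ) (p : ℝ × ℝ) : ℝ × ℝ :=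
  ((Real.sqrt (p.1 ^ 2 + p.2 ^ 2) + Real.sqrt ((p.1 - a) ^ 2 + p.2 ^ 2)) / a,
    (Real.sqrt (p.1 ^ 2 + p.2 ^ 2) - Real.sqrt ((p.1 - a) ^ 2 + p.2 ^ 2)) / a)

private theorem C2_pos1 {q : ℝ × ℝ} (hq : q ∈ Ioi (1 : ℝ) ×ˢ Ioo (-1 : ℝ) 1) :
    0 < q.1 ^ 2 - 1 := by
  have h : (1 : ℝ) < q.1 := hq.1
  nlinarith

private theorem C2_pos2 {q : ℝ × ℝ} (hq : q ∈ Ioi (1 : ℝ) ×ˢ Ioo (-1 : ℝ) 1) :
    0 < 1 - q.2 ^ 2 := by
  have h1 : (-1 : ℝ) < q.2 := hq.2.1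
  have h2 : q.2 < (1 : ℝ) := hq.2.2
  nlinarith

/-- Row C2 -/
theorem Phi_Psi {a : ℝ} (ha : 0 < a) {q : ℝ × ℝ} (hq : q ∈ Ioi (1 : ℝ) ×ˢ Ioo (-1 : ℝ) 1) :
    Phi a (Psi a q) = q := by
  have hC : (1 : ℝ) < q.1 := hq.1
  have h1 : (-1 : ℝ) < q.2 := hq.2.1
  have h2 : q.2 < (1 : ℝ) := hq.2.2
  have e1 : Real.sqrt (q.1 ^ 2 - 1) ^ 2 = q.1 ^ 2 - 1 := Real.sq_sqrt (C2_pos1 hq).le
  have e2 : Real.sqrt (1 - q.2 ^ 2) ^ 2 = 1 - q.2 ^ 2 := Real.sq_sqrt (C2_pos2 hq).le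
  have r1 : (Psi a q).1 ^ 2 + (Psi a q).2 ^ 2 = (a / 2 * (q.1 + q.2)) ^ 2 := by
    have : (Psi a q).2 ^ 2 = (a / 2) ^ 2 * ((q.1 ^ 2 - 1) * (1 - q.2 ^ 2)) := by
      simp only [Psi]
      rw [mul_pow, mul_pow, e1, e2]
    rw [this]
    simp only [Psi]
    ring
  have r2 : ((Psi a q).1 - a) ^ 2 + (Psi a q).2 ^ 2 = (a / 2 * (q.1 - q.2)) ^ 2 := by
    have : (Psi a q).2 ^ 2 = (a / 2) ^ 2 * ((q.1 ^ 2 - 1) * (1 - q.2 ^ 2)) := by
      simp only [Psi]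
      rw [mul_pow, mul_pow, e1, e2]
    rw [this]
    simp only [Psi]
    ring
  have s1 : Real.sqrt ((Psi a q).1 ^ 2 + (Psi a q).2 ^ 2) = a / 2 * (q.1 + q.2) := by
    rw [r1]
    exact Real.sqrt_sq (mul_nonneg (by linarith) (by linarith))
  have s2 : Real.sqrt (((Psi a q).1 - a) ^ 2 + (Psi a q).2 ^ 2) = a / 2 * (q.1 - q.2) := by
    rw [r2]
    exact Real.sqrt_sq (mul_nonneg (by linarith) (by linarith))
  unfold Phi
  rw [s1, s2]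
  refine Prod.ext ?_ ?_
  · show (a / 2 * (q.1 + q.2) + a / 2 * (q.1 - q.2)) / a = q.1
    field_simp
    ring
  · show (a / 2 * (q.1 + q.2) - a / 2 * (q.1 - q.2)) / a = q.2
    field_simp
    ring

private theorem C2_mem {a : ℝ} (ha : 0 < a) {p : ℝ × ℝ} (hp : 0 < p.2) :
    Phi a p ∈ Ioi (1 : ℝ) ×ˢ Ioo (-1 : ℝ) 1 ∧ Psi a (Phi a p) = p := by
  set r := Real.sqrt (p.1 ^ 2 + p.2 ^ 2) with hr
  set s := Real.sqrt ((p.1 - a) ^ 2 + p.2 ^ 2) with hs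
  have hp2 : 0 < p.2 ^ 2 := by positivity
  have r2 : r ^ 2 = p.1 ^ 2 + p.2 ^ 2 := Real.sq_sqrt (by positivity)
  have s2 : s ^ 2 = (p.1 - a) ^ 2 + p.2 ^ 2 := Real.sq_sqrt (by positivity)
  have r0 : 0 ≤ r := Real.sqrt_nonneg _
  have s0 : 0 ≤ s := Real.sqrt_nonneg _
  have hrx : |p.1| < r := by
    apply abs_lt_of_sq_lt_sq _ r0
    linarith
  have hsx : |p.1 - a| < s := by
    apply abs_lt_of_sq_lt_sq _ s0
    linarith
  have hx1 := le_abs_self p.1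
  have hx2 := neg_abs_le p.1
  have hx3 := le_abs_self (p.1 - a)
  have hx4 := neg_abs_le (p.1 - a)
  have hsum : a < r + s := by linarith
  have hprod : (r - s) * (r + s) = a * (2 * p.1 - a) := by
    have : (r - s) * (r + s) = r ^ 2 - s ^ 2 := by ring
    rw [this, r2, s2]
    ring
  have hd1 : r - s < a := by
    by_contra h
    push Not at h
    have h5 : a * (r + s) ≤ (r - s) * (r + s) := mul_le_mul_of_nonneg_right h (by linarith)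
    rw [hprod] at h5
    have h6 : r + s ≤ 2 * p.1 - a := le_of_mul_le_mul_left h5 ha
    linarith
  have hd2 : -a < r - s := by
    by_contra h
    push Not at h
    have h5 : (r - s) * (r + s) ≤ (-a) * (r + s) := mul_le_mul_of_nonneg_right h (by linarith)
    rw [hprod] at h5
    have h6 : a * (r + s) ≤ a * (a - 2 * p.1) := by linarith
    have h7 : r + s ≤ a - 2 * p.1 := le_of_mul_le_mul_left h6 ha
    linarith
  have hmem : Phi a p ∈ Ioi (1 : ℝ) ×ˢ Ioo (-1 : ℝ) 1 := by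
    refine ⟨?_, ?_, ?_⟩
    · show 1 < (r + s) / a
      rw [one_lt_div ha]
      exact hsum
    · show -1 < (r - s) / a
      rw [lt_div_iff₀ ha]
      linarith
    · show (r - s) / a < 1
      rw [div_lt_one ha]
      exact hd1
  refine ⟨hmem, Prod.ext ?_ ?_⟩
  · show a / 2 + a / 2 * ((r + s) / a * ((r - s) / a)) = p.1
    have : (r + s) / a * ((r - s) / a) = (2 * p.1 - a) / a := by
      rw [div_mul_div_comm, mul_comm (r + s), hprod]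
      field_simp
    rw [this]
    field_simp
    ring
  · show a / 2 * (Real.sqrt (((r + s) / a) ^ 2 - 1) * Real.sqrt (1 - ((r - s) / a) ^ 2)) = p.2
    have hq1 : 0 < ((r + s) / a) ^ 2 - 1 := C2_pos1 hmem
    rw [← Real.sqrt_mul hq1.le]
    have e : (((r + s) / a) ^ 2 - 1) * (1 - ((r - s) / a) ^ 2) = (2 * p.2 / a) ^ 2 := by
      have e1 : (((r + s) / a) ^ 2 - 1) * (1 - ((r - s) / a) ^ 2)
          = (2 * (r ^ 2 + s ^ 2) * a ^ 2 - ((r - s) * (r + s)) ^ 2 - a ^ 4) / a ^ 4 := by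
        field_simp
        ring
      rw [e1, hprod, r2, s2]
      field_simp
      ring
    rw [e, Real.sqrt_sq (by positivity)]
    field_simp

theorem Psi_image {a : ℝ} (ha : 0 < a) :
    Psi a '' (Ioi (1 : ℝ) ×ˢ Ioo (-1 : ℝ) 1) = (univ : Set ℝ) ×ˢ Ioi (0 : ℝ) := by
  ext p
  constructor
  · rintro ⟨q, hq, rfl⟩
    refine ⟨mem_univ _, ?_⟩
    show 0 < a / 2 * (Real.sqrt (q.1 ^ 2 - 1) * Real.sqrt (1 - q.2 ^ 2))
    have h1 := Real.sqrt_pos.2 (C2_pos1 hq)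
    have h2 := Real.sqrt_pos.2 (C2_pos2 hq)
    positivity
  · rintro ⟨-, hp⟩
    obtain ⟨h1, h2⟩ := C2_mem ha (p := p) hp
    exact ⟨_, h1, h2⟩

/-- the derivative of `Psi` -/
private noncomputable def C2_der (a : ℝ) (q : ℝ × ℝ) : ℝ × ℝ →L[ℝ] ℝ × ℝ :=
  (Matrix.toLin (.finTwoProd ℝ) (.finTwoProd ℝ)
    !![a / 2 * q.2, a / 2 * q.1;
      a / 2 * (q.1 / Real.sqrt (q.1 ^ 2 - 1) * Real.sqrt (1 - q.2 ^ 2)),
      a / 2 * (Real.sqrt (q.1 ^ 2 - 1) * (-q.2 / Real.sqrt (1 - q.2 ^ 2)))]).toContinuousLinearMap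

private theorem C2_hasFDerivAt (a : ℝ) {q : ℝ × ℝ} (hq : q ∈ Ioi (1 : ℝ) ×ˢ Ioo (-1 : ℝ) 1) :
    HasFDerivAt (Psi a) (C2_der a q) q := by
  have p1 := C2_pos1 hq
  have p2 := C2_pos2 hq
  have d1 : HasDerivAt (fun s : ℝ => Real.sqrt (s ^ 2 - 1)) (q.1 / Real.sqrt (q.1 ^ 2 - 1)) q.1 := by
    have h := (((hasDerivAt_id q.1).pow 2).sub_const 1).sqrt p1.ne'
    refine h.congr_deriv ?_
    simp only [Pi.pow_apply, id, Nat.cast_ofNat, Nat.add_one_sub_one, pow_one, mul_one]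
    rw [mul_div_mul_left _ _ (two_ne_zero)]
  have d2 : HasDerivAt (fun s : ℝ => Real.sqrt (1 - s ^ 2)) (-q.2 / Real.sqrt (1 - q.2 ^ 2)) q.2 := by
    have h := (((hasDerivAt_id q.2).pow 2).const_sub 1).sqrt p2.ne'
    refine h.congr_deriv ?_
    simp only [Pi.pow_apply, id, Nat.cast_ofNat, Nat.add_one_sub_one, pow_one, mul_one]
    rw [← mul_neg, mul_div_mul_left _ _ (two_ne_zero)]
  unfold C2_der
  rw [Matrix.toLin_finTwoProd_toContinuousLinearMap]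
  have k1 := (((hasFDerivAt_fst (𝕜 := ℝ) (E := ℝ) (F := ℝ) (p := q)).mul
    (hasFDerivAt_snd (𝕜 := ℝ) (E := ℝ) (F := ℝ) (p := q))).const_mul (a / 2)).const_add (a / 2)
  have k2 := ((d1.comp_hasFDerivAt q (hasFDerivAt_fst (𝕜 := ℝ) (E := ℝ) (F := ℝ))).mul
    (d2.comp_hasFDerivAt q (hasFDerivAt_snd (𝕜 := ℝ) (E := ℝ) (F := ℝ)))).const_mul (a / 2)
  have k := k1.prodMk k2
  refine k.congr_fderiv ?_
  refine ContinuousLinearMap.ext fun v => Prod.ext ?_ ?_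
  · simp
    ring
  · simp
    ring

private theorem C2_det (a : ℝ) {q : ℝ × ℝ} (hq : q ∈ Ioi (1 : ℝ) ×ˢ Ioo (-1 : ℝ) 1) :
    |(C2_der a q).det| = (a / 2) ^ 2 * (q.1 ^ 2 - q.2 ^ 2) /
          (Real.sqrt (q.1 ^ 2 - 1) * Real.sqrt (1 - q.2 ^ 2)) := by
  have p1 := C2_pos1 hq
  have p2 := C2_pos2 hq
  have h1 := Real.sqrt_pos.2 p1
  have h2 := Real.sqrt_pos.2 p2
  have e1 : Real.sqrt (q.1 ^ 2 - 1) ^ 2 = q.1 ^ 2 - 1 := Real.sq_sqrt p1.le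
  have e2 : Real.sqrt (1 - q.2 ^ 2) ^ 2 = 1 - q.2 ^ 2 := Real.sq_sqrt p2.le
  have hdet : (C2_der a q).det = -((a / 2) ^ 2 * (q.1 ^ 2 - q.2 ^ 2) /
          (Real.sqrt (q.1 ^ 2 - 1) * Real.sqrt (1 - q.2 ^ 2))) := by
    unfold C2_der
    simp only [LinearMap.det_toContinuousLinearMap, LinearMap.det_toLin, Matrix.det_fin_two_of]
    have h3 : a / 2 * q.2 * (a / 2 * (Real.sqrt (q.1 ^ 2 - 1) * (-q.2 / Real.sqrt (1 - q.2 ^ 2))))
        - a / 2 * q.1 * (a / 2 * (q.1 / Real.sqrt (q.1 ^ 2 - 1) * Real.sqrt (1 - q.2 ^ 2)))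
        = -((a / 2) ^ 2 * (q.2 ^ 2 * Real.sqrt (q.1 ^ 2 - 1) ^ 2
            + q.1 ^ 2 * Real.sqrt (1 - q.2 ^ 2) ^ 2) /
          (Real.sqrt (q.1 ^ 2 - 1) * Real.sqrt (1 - q.2 ^ 2))) := by
      field_simp
      ring
    rw [h3, e1, e2]
    congr 3
    ring
  rw [hdet, abs_neg, abs_of_nonneg]
  have : 0 ≤ q.1 ^ 2 - q.2 ^ 2 := by linarith
  positivity

/-- change of variables (`lintegral_image_eq_lintegral_abs_det_fderiv_mul`) -/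
theorem lintegral_Psi {a : ℝ} (ha : 0 < a) (g : ℝ × ℝ → ℝ≥0∞) :
    ∫⁻ p in (univ : Set ℝ) ×ˢ Ioi (0 : ℝ), g p =
      ∫⁻ q in Ioi (1 : ℝ) ×ˢ Ioo (-1 : ℝ) 1,
        ENNReal.ofReal ((a / 2) ^ 2 * (q.1 ^ 2 - q.2 ^ 2) /
          (Real.sqrt (q.1 ^ 2 - 1) * Real.sqrt (1 - q.2 ^ 2))) * g (Psi a q) := by
  have hinj : InjOn (Psi a) (Ioi (1 : ℝ) ×ˢ Ioo (-1 : ℝ) 1) := fun x hx y hy h => by
    rw [← Phi_Psi ha hx, ← Phi_Psi ha hy, h]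
  have hm : MeasurableSet (Ioi (1 : ℝ) ×ˢ Ioo (-1 : ℝ) 1) := measurableSet_Ioi.prod measurableSet_Ioo
  rw [← Psi_image ha, lintegral_image_eq_lintegral_abs_det_fderiv_mul volume hm
    (fun q hq => (C2_hasFDerivAt a hq).hasFDerivWithinAt) hinj g]
  refine setLIntegral_congr_fun hm fun q hq => ?_
  simp only [C2_det a hq]

end Pool.Agent.Lib.MP_b8b490_an
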