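import Pool.Agent.Lib.MP_b8b490_an.C1
import Pool.Agent.Lib.MP_b8b490_an.C2
import Pool.Agent.Lib.MP_b8b490_an.B1

open MeasureTheory Set Filter Topology
open scoped ENNReal

namespace Pool.Agent.Lib.MP_b8b490_an

private theorem C3_coord (a : ℝ) (x : Fin 3 → ℝ) :
    (Cc a x, tt a x) = Phi a (x 0, Real.sqrt (x 1 ^ 2 + x 2 ^ 2)) := by
  have e : Real.sqrt (x 1 ^ 2 + x 2 ^ 2) ^ 2 = x 1 ^ 2 + x 2 ^ 2 := Real.sq_sqrt (by positivity)
  have h : ∀ b : ℝ, rr b x = Real.sqrt ((x 0 - b) ^ 2 + Real.sqrt (x 1 ^ 2 + x 2 ^ 2) ^ 2) := by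
    intro b
    rw [e]
    unfold rr euc pt
    rw [Fin.sum_univ_three]
    simp [add_assoc]
  unfold Cc tt Phi
  rw [h 0, h a]
  simp

private theorem C3_measurable_Phi (a : ℝ) : Measurable (Phi a) := by
  unfold Phi
  fun_prop

private theorem C3_meas : MeasurableSet (Ioi (1 : ℝ) ×ˢ Ioo (-1 : ℝ) 1) :=
  measurableSet_Ioi.prod measurableSet_Ioo

private theorem C3_nonneg {a : ℝ} (ha : 0 < a) {q : ℝ × ℝ}
    (hq : q ∈ Ioi (1 : ℝ) ×ˢ Ioo (-1 : ℝ) 1) :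
    0 ≤ 2 * Real.pi * (a / 2) ^ 3 * (q.1 ^ 2 - q.2 ^ 2) := by
  have hC : (1 : ℝ) < q.1 := hq.1
  have h1 : (-1 : ℝ) < q.2 := hq.2.1
  have h2 : q.2 < (1 : ℝ) := hq.2.2
  have : 0 ≤ q.1 ^ 2 - q.2 ^ 2 := by nlinarith
  have := Real.pi_pos
  positivity

/-- Row C3: integrals of functions of `(C, t)` over `ℝ³` -/
theorem lintegral_Ct {a : ℝ} (ha : 0 < a) {f : ℝ × ℝ → ℝ≥0∞} (hf : Measurable f) :
    ∫⁻ x : Fin 3 → ℝ, f (Cc a x, tt a x) =
      ∫⁻ q in Ioi (1 : ℝ) ×ˢ Ioo (-1 : ℝ) 1,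
        ENNReal.ofReal (2 * Real.pi * (a / 2) ^ 3 * (q.1 ^ 2 - q.2 ^ 2)) * f q := by
  have h1 := lintegral_axisym (g := fun p => f (Phi a p)) (hf.comp (C3_measurable_Phi a))
  simp only [C3_coord a]
  rw [h1, lintegral_Psi ha]
  refine setLIntegral_congr_fun C3_meas fun q hq => ?_
  have hC : (1 : ℝ) < q.1 := hq.1
  have h1 : (-1 : ℝ) < q.2 := hq.2.1
  have h2 : q.2 < (1 : ℝ) := hq.2.2
  have p1 : 0 < Real.sqrt (q.1 ^ 2 - 1) := Real.sqrt_pos.2 (by nlinarith)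
  have p2 : 0 < Real.sqrt (1 - q.2 ^ 2) := Real.sqrt_pos.2 (by nlinarith)
  have hJ : 0 ≤ (a / 2) ^ 2 * (q.1 ^ 2 - q.2 ^ 2) /
      (Real.sqrt (q.1 ^ 2 - 1) * Real.sqrt (1 - q.2 ^ 2)) := by
    have : 0 ≤ q.1 ^ 2 - q.2 ^ 2 := by nlinarith
    positivity
  simp only [Phi_Psi ha hq]
  rw [← mul_assoc, ← ENNReal.ofReal_mul hJ]
  congr 2
  simp only [Psi]
  field_simp

private noncomputable def C3_T (a : ℝ) (x : Fin 3 → ℝ) : ℝ × ℝ := (Cc a x, tt a x)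

private theorem C3_measurable_T (a : ℝ) : Measurable (C3_T a) :=
  ((continuous_Cc a).prodMk (continuous_tt a)).measurable

private noncomputable def C3_rho (a : ℝ) (q : ℝ × ℝ) : ℝ :=
  2 * Real.pi * (a / 2) ^ 3 * (q.1 ^ 2 - q.2 ^ 2)

private theorem C3_measurable_rho (a : ℝ) : Measurable (fun q => ENNReal.ofReal (C3_rho a q)) := by
  unfold C3_rho
  fun_prop

private theorem C3_map {a : ℝ} (ha : 0 < a) :
    Measure.map (C3_T a) (volume : Measure (Fin 3 → ℝ)) =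
      ((volume : Measure (ℝ × ℝ)).restrict (Ioi (1 : ℝ) ×ˢ Ioo (-1 : ℝ) 1)).withDensity
        (fun q => ENNReal.ofReal (C3_rho a q)) := by
  refine Measure.ext fun s hs => ?_
  rw [Measure.map_apply (C3_measurable_T a) hs, withDensity_apply _ hs]
  have h := lintegral_Ct ha (f := s.indicator 1) (measurable_one.indicator hs)
  have h1 : ∫⁻ x : Fin 3 → ℝ, s.indicator (1 : ℝ × ℝ → ℝ≥0∞) (Cc a x, tt a x)
      = volume (C3_T a ⁻¹' s) := by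
    rw [← lintegral_indicator_one (C3_measurable_T a hs)]
    rfl
  rw [← h1, h, ← lintegral_indicator hs]
  refine lintegral_congr fun q => ?_
  by_cases hq : q ∈ s
  · simp [hq, C3_rho]
  · simp [hq]

theorem integral_Ct {a : ℝ} (ha : 0 < a) {f : ℝ × ℝ → ℝ} (hf : Measurable f) :
    ∫ x : Fin 3 → ℝ, f (Cc a x, tt a x) =
      ∫ q in Ioi (1 : ℝ) ×ˢ Ioo (-1 : ℝ) 1,
        (2 * Real.pi * (a / 2) ^ 3 * (q.1 ^ 2 - q.2 ^ 2)) * f q := by
  have h1 : ∫ x : Fin 3 → ℝ, f (Cc a x, tt a x) =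
      ∫ q, f q ∂(Measure.map (C3_T a) (volume : Measure (Fin 3 → ℝ))) := by
    rw [integral_map (C3_measurable_T a).aemeasurable hf.aestronglyMeasurable]
    rfl
  rw [h1, C3_map ha, integral_withDensity_eq_integral_toReal_smul (C3_measurable_rho a)
    (Eventually.of_forall fun q => ENNReal.ofReal_lt_top)]
  refine setIntegral_congr_fun C3_meas fun q hq => ?_
  show (ENNReal.ofReal (2 * Real.pi * (a / 2) ^ 3 * (q.1 ^ 2 - q.2 ^ 2))).toReal * f q = _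
  rw [ENNReal.toReal_ofReal (C3_nonneg ha hq)]

end Pool.Agent.Lib.MP_b8b490_an
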