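import Pool.Agent.Lib.MP_b8b490_an.B2
import Pool.Agent.Lib.MP_b8b490_an.C3

open MeasureTheory Set Filter Topology
open scoped ENNReal

namespace Pool.Agent.Lib.MP_b8b490_an

/-- the ring lies in the spheroid `C < 2 / a + 1` -/
theorem Cc_lt_of_ring {k : ℕ} {a : ℝ} (ha0 : 0 < a) {x : Fin (k + 1) → ℝ} (hx : x ∈ ring a) :
    1 < Cc a x ∧ Cc a x < 2 / a + 1 := by
  obtain ⟨h1, h2⟩ := hx
  refine ⟨(one_lt_Cc_iff ha0 x).2 h2, ?_⟩
  have h3 : rr 0 x < 1 := by rw [rr_zero_eq]; exact h1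
  have h4 : rr a x ≤ rr 0 x + a := by
    have h5 := (tt_le ha0 x).1
    rw [tt, le_div_iff₀ ha0] at h5
    linarith
  have h6 : 2 / a + 1 = (2 + a) / a := by field_simp
  rw [Cc, h6, div_lt_div_iff_of_pos_right ha0]
  linarith

private theorem C5_rpow {c D E : ℝ} (hc : 0 < c) (hD : 0 < D) (hE : 0 ≤ E) :
    2 * Real.pi * c ^ 3 * D * Real.sqrt (E / (c ^ 2 * D)) ^ ((3 : ℝ) / 2) =
      2 * Real.pi * c ^ ((3 : ℝ) / 2) * D ^ ((1 : ℝ) / 4) * E ^ ((3 : ℝ) / 4) := by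
  have hD2 : 0 < c ^ 2 * D := by positivity
  have h1 : Real.sqrt (E / (c ^ 2 * D)) ^ ((3 : ℝ) / 2) = (E / (c ^ 2 * D)) ^ ((3 : ℝ) / 4) := by
    rw [Real.sqrt_eq_rpow, ← Real.rpow_mul (by positivity)]
    norm_num
  have h2 : (c ^ 2 * D) ^ ((3 : ℝ) / 4) = c ^ ((3 : ℝ) / 2) * D ^ ((3 : ℝ) / 4) := by
    rw [Real.mul_rpow (by positivity) hD.le, ← Real.rpow_natCast, ← Real.rpow_mul hc.le]
    norm_num
  rw [h1, Real.div_rpow hE hD2.le, h2]
  have h3 : c ^ 3 = c ^ ((3 : ℝ) / 2) * c ^ ((3 : ℝ) / 2) := by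
    rw [← Real.rpow_add hc, ← Real.rpow_natCast]
    norm_num
  have h4 : D = D ^ ((1 : ℝ) / 4) * D ^ ((3 : ℝ) / 4) := by
    rw [← Real.rpow_add hD]
    norm_num
  have h5 : 0 < c ^ ((3 : ℝ) / 2) := Real.rpow_pos_of_pos hc _
  have h6 : 0 < D ^ ((3 : ℝ) / 4) := Real.rpow_pos_of_pos hD _
  rw [h3]
  nth_rewrite 1 [h4]
  field_simp

private theorem C5_meas {M : ℝ} {α αC αt : ℝ → ℝ → ℝ} (hα : IsC1 α αC αt) :
    Measurable (({p : ℝ × ℝ | 1 < p.1 ∧ p.1 < M} : Set (ℝ × ℝ)).indicator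
      fun p => α p.1 p.2) := by
  have ho : IsOpen {p : ℝ × ℝ | 1 < p.1 ∧ p.1 < M} :=
    (isOpen_lt continuous_const continuous_fst).inter (isOpen_lt continuous_fst continuous_const)
  have hc : ContinuousOn (fun p : ℝ × ℝ => α p.1 p.2) {p : ℝ × ℝ | 1 < p.1 ∧ p.1 < M} := by
    intro p hp
    exact ((hα.deriv p.1 p.2 hp.1).continuousAt).continuousWithinAt
  classical
  have h := ContinuousOn.measurable_piecewise (g := (0 : ℝ × ℝ → ℝ)) hc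
    continuousOn_const ho.measurableSet
  rw [Set.piecewise_eq_indicator] at h
  exact h

/-- Row C5: the `L^{3/2}` norm of the field in the coordinates `(C, t)` -/
theorem energy_le {a : ℝ} (ha0 : 0 < a) {α αC αt β βC βt : ℝ → ℝ → ℝ}
    (hα : IsC1 α αC αt) (hβ : IsC1 β βC βt) :
    ∫⁻ x in ring (k := 2) a, ENNReal.ofReal (euc (fun i => fld a α β i x) ^ ((3 : ℝ) / 2)) ≤
      ∫⁻ q in Ioo (1 : ℝ) (2 / a + 1) ×ˢ Ioo (-1 : ℝ) 1,
        ENNReal.ofReal (2 * Real.pi * (a / 2) ^ ((3 : ℝ) / 2) * (q.1 ^ 2 - q.2 ^ 2) ^ ((1 : ℝ) / 4) *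
          (α q.1 q.2 ^ 2 * (q.1 ^ 2 - 1) + β q.1 q.2 ^ 2 * (1 - q.2 ^ 2)) ^ ((3 : ℝ) / 4)) := by
  set M : ℝ := 2 / a + 1 with hM
  set S : Set (ℝ × ℝ) := {p : ℝ × ℝ | 1 < p.1 ∧ p.1 < M} with hS
  have hSm : MeasurableSet S :=
    ((isOpen_lt continuous_const continuous_fst).inter
      (isOpen_lt continuous_fst continuous_const)).measurableSet
  set α' : ℝ × ℝ → ℝ := S.indicator fun p => α p.1 p.2 with hα'
  set β' : ℝ × ℝ → ℝ := S.indicator fun p => β p.1 p.2 with hβ'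
  have hα'm : Measurable α' := C5_meas hα
  have hβ'm : Measurable β' := C5_meas hβ
  set f : ℝ × ℝ → ℝ≥0∞ := S.indicator fun q => ENNReal.ofReal
    (Real.sqrt ((α' q ^ 2 * (q.1 ^ 2 - 1) + β' q ^ 2 * (1 - q.2 ^ 2)) /
      ((a / 2) ^ 2 * (q.1 ^ 2 - q.2 ^ 2))) ^ ((3 : ℝ) / 2)) with hf
  have hfm : Measurable f := by
    refine Measurable.indicator ?_ hSm
    refine ENNReal.measurable_ofReal.comp ?_
    refine Measurable.pow_const ?_ _
    refine Real.continuous_sqrt.measurable.comp ?_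
    fun_prop
  have hring : MeasurableSet (ring (k := 2) a) := by
    refine MeasurableSet.diff ?_ (isClosed_slit a).measurableSet
    have h1 : {x : Fin (2 + 1) → ℝ | euc x < 1} = {x | rr 0 x < 1} := by
      ext x
      rw [mem_ofPred_eq, mem_ofPred_eq, rr_zero_eq]
    rw [h1]
    exact (isOpen_lt (continuous_rr 0) continuous_const).measurableSet
  have hstep1 : ∫⁻ x in ring (k := 2) a,
      ENNReal.ofReal (euc (fun i => fld a α β i x) ^ ((3 : ℝ) / 2)) ≤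
      ∫⁻ x in ring (k := 2) a, f (Cc a x, tt a x) := by
    refine setLIntegral_mono' hring fun x hx => ?_
    have h1 := Cc_lt_of_ring ha0 hx
    have h2 : (Cc a x, tt a x) ∈ S := h1
    rw [hf, indicator_of_mem h2, hα', hβ', indicator_of_mem h2, indicator_of_mem h2,
      fld_norm ha0 hx.2, rr_mul_rr ha0 x]
  refine hstep1.trans ((setLIntegral_le_lintegral _ _).trans ?_)
  rw [lintegral_Ct ha0 hfm]
  have hset : Ioo (1 : ℝ) M ×ˢ Ioo (-1 : ℝ) 1 = S ∩ (Ioi (1 : ℝ) ×ˢ Ioo (-1 : ℝ) 1) := by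
    ext q
    simp only [mem_prod, mem_Ioo, mem_inter_iff, mem_Ioi, hS, mem_ofPred_eq]
    constructor
    · rintro ⟨⟨h1, h2⟩, h3⟩
      exact ⟨⟨h1, h2⟩, h1, h3⟩
    · rintro ⟨⟨h1, h2⟩, _, h3⟩
      exact ⟨⟨h1, h2⟩, h3⟩
  rw [hset, ← Measure.restrict_restrict hSm, ← lintegral_indicator hSm]
  refine setLIntegral_mono' (measurableSet_Ioi.prod measurableSet_Ioo) fun q hq => ?_
  by_cases hqS : q ∈ S
  · rw [indicator_of_mem hqS, hf, indicator_of_mem hqS, hα', hβ', indicator_of_mem hqS,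
      indicator_of_mem hqS]
    have h1 : 1 < q.1 := hqS.1
    have h2 : -1 < q.2 := hq.2.1
    have h3 : q.2 < 1 := hq.2.2
    have h4 : 0 < 1 - q.2 ^ 2 := by nlinarith
    have h5 : 0 < q.1 ^ 2 - 1 := by nlinarith
    have hD : 0 < q.1 ^ 2 - q.2 ^ 2 := by linarith
    have hE : 0 ≤ α q.1 q.2 ^ 2 * (q.1 ^ 2 - 1) + β q.1 q.2 ^ 2 * (1 - q.2 ^ 2) := by positivity
    have hc : 0 < a / 2 := by linarith
    rw [← ENNReal.ofReal_mul (by positivity)]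
    exact (congrArg ENNReal.ofReal (C5_rpow hc hD hE)).le
  · rw [indicator_of_notMem hqS, hf, indicator_of_notMem hqS, mul_zero]

/-- `C` as a function of `σ`, `σ⁴ = 1 - C⁻²` -/
noncomputable def wC (σ : ℝ) : ℝ := 1 / Real.sqrt (1 - σ ^ 4)

/-- `σ` as a function of `C` -/
noncomputable def sM (M : ℝ) : ℝ := Real.sqrt (Real.sqrt (1 - 1 / M ^ 2))

theorem sM_mem {M : ℝ} (hM : 1 < M) : 0 < sM M ∧ sM M < 1 ∧ 1 - sM M ^ 4 = 1 / M ^ 2 := by
  have h0 : 0 < 1 / M ^ 2 := by positivity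
  have h1 : 1 / M ^ 2 < 1 := by
    rw [div_lt_one (by positivity)]
    nlinarith
  have h2 : 0 < 1 - 1 / M ^ 2 := by linarith
  have h3 : sM M ^ 4 = 1 - 1 / M ^ 2 := by
    have h4 : sM M ^ 4 = (sM M ^ 2) ^ 2 := by ring
    rw [h4, sM, Real.sq_sqrt (Real.sqrt_nonneg _), Real.sq_sqrt h2.le]
  have h5 : 0 < sM M := Real.sqrt_pos.2 (Real.sqrt_pos.2 h2)
  refine ⟨h5, ?_, by rw [h3]; ring⟩
  by_contra h6
  rw [not_lt] at h6
  have h7 : 1 ≤ sM M ^ 4 := one_le_pow₀ h6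
  linarith

private theorem C5_hasDerivAt {σ : ℝ} (h : 0 < 1 - σ ^ 4) :
    HasDerivAt wC (2 * σ ^ 3 * wC σ ^ 3) σ := by
  have h1 : HasDerivAt (fun s : ℝ => 1 - s ^ 4) (-(4 * σ ^ 3)) σ := by
    have := (hasDerivAt_pow 4 σ).const_sub 1
    simpa using this
  have h2 := h1.sqrt h.ne'
  have h3 := (hasDerivAt_const σ (1 : ℝ)).div h2 (Real.sqrt_pos.2 h).ne'
  have h4 : (fun s : ℝ => (1 : ℝ) / Real.sqrt (1 - s ^ 4)) = wC := by
    funext s
    rfl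
  have h5 : HasDerivAt wC ((0 * Real.sqrt (1 - σ ^ 4) -
      1 * (-(4 * σ ^ 3) / (2 * Real.sqrt (1 - σ ^ 4)))) / Real.sqrt (1 - σ ^ 4) ^ 2) σ := h3
  have h6 : (0 * Real.sqrt (1 - σ ^ 4) -
      1 * (-(4 * σ ^ 3) / (2 * Real.sqrt (1 - σ ^ 4)))) / Real.sqrt (1 - σ ^ 4) ^ 2 =
      2 * σ ^ 3 * wC σ ^ 3 := by
    have h7 : 0 < Real.sqrt (1 - σ ^ 4) := Real.sqrt_pos.2 h
    rw [wC]
    field_simp
    ring
  rwa [h6] at h5

/-- Row C6: substitution `C = wC σ` -/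
theorem lintegral_wC {M : ℝ} (hM : 1 < M) (g : ℝ → ℝ≥0∞) :
    ∫⁻ C in Ioo 1 M, g C =
      ∫⁻ σ in Ioo 0 (sM M), ENNReal.ofReal (2 * σ ^ 3 * wC σ ^ 3) * g (wC σ) := by
  obtain ⟨hM1, hM2, hM3⟩ := sM_mem hM
  have hpos : ∀ σ ∈ Ioo 0 (sM M), 0 < 1 - σ ^ 4 := by
    intro σ hσ
    have h1 : σ ^ 4 < sM M ^ 4 := pow_lt_pow_left₀ hσ.2 hσ.1.le (by norm_num)
    have h2 : 0 < 1 / M ^ 2 := by positivity
    linarith
  have hinj : InjOn wC (Ioo 0 (sM M)) := by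
    intro σ hσ τ hτ h
    have h1 := hpos σ hσ
    have h2 := hpos τ hτ
    rw [wC, wC, one_div, one_div, inv_inj, Real.sqrt_inj h1.le h2.le] at h
    have h3 : σ ^ 4 = τ ^ 4 := by linarith
    exact (pow_left_inj₀ hσ.1.le hτ.1.le (by norm_num)).1 h3
  have himg : wC '' Ioo 0 (sM M) = Ioo 1 M := by
    ext C
    constructor
    · rintro ⟨σ, hσ, rfl⟩
      have h1 := hpos σ hσ
      have h2 : 0 < σ ^ 4 := pow_pos hσ.1 4
      have h3 : σ ^ 4 < sM M ^ 4 := pow_lt_pow_left₀ hσ.2 hσ.1.le (by norm_num)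
      have h4 : 0 < Real.sqrt (1 - σ ^ 4) := Real.sqrt_pos.2 h1
      constructor
      · rw [wC, lt_div_iff₀ h4, one_mul]
        rw [Real.sqrt_lt' one_pos]
        linarith
      · rw [wC, div_lt_iff₀ h4]
        have h5 : 1 / M < Real.sqrt (1 - σ ^ 4) := by
          rw [Real.lt_sqrt (by positivity), div_pow, one_pow]
          linarith
        rw [div_lt_iff₀ (by linarith)] at h5
        linarith [mul_comm M (Real.sqrt (1 - σ ^ 4))]
    · rintro ⟨h1, h2⟩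
      obtain ⟨hC1, hC2, hC3⟩ := sM_mem h1
      have hC0 : 0 < C := by linarith
      refine ⟨sM C, ⟨hC1, ?_⟩, ?_⟩
      · have h3 : 1 / M ^ 2 < 1 / C ^ 2 := by
          apply one_div_lt_one_div_of_lt (by positivity)
          exact pow_lt_pow_left₀ h2 hC0.le (by norm_num)
        have h4 : sM C ^ 4 < sM M ^ 4 := by linarith
        exact lt_of_pow_lt_pow_left₀ 4 hM1.le h4
      · rw [wC, hC3, one_div (C ^ 2), Real.sqrt_inv, Real.sqrt_sq hC0.le, one_div, inv_inv]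
  rw [← himg, lintegral_image_eq_lintegral_abs_deriv_mul measurableSet_Ioo
    (fun σ hσ => (C5_hasDerivAt (hpos σ hσ)).hasDerivWithinAt) hinj]
  refine setLIntegral_congr_fun measurableSet_Ioo fun σ hσ => ?_
  have h1 : 0 ≤ 2 * σ ^ 3 * wC σ ^ 3 := by
    have h2 : 0 ≤ wC σ := by rw [wC]; positivity
    have h3 : 0 < σ := hσ.1
    positivity
  show ENNReal.ofReal |2 * σ ^ 3 * wC σ ^ 3| * g (wC σ) = _
  rw [abs_of_nonneg h1]

end Pool.Agent.Lib.MP_b8b490_an
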