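import Pool.Agent.Lib.MP_b8b490_an.Defs

open MeasureTheory Set Filter Topology
open scoped ENNReal

namespace Pool.Agent.Lib.MP_b8b490_an

/-! ### The capacity is finite and positive -/

private theorem Cap_pd_cont {n : ℕ} {χ : (Fin n → ℝ) → ℝ} (hχ : ContDiff ℝ 1 χ) (i : Fin n) :
    Continuous (pd χ i) := by
  have h1 : pd χ i = fun x => fderiv ℝ χ x (Pi.single i 1) := by
    funext x
    have h1 : HasDerivAt (Function.update x i) (Pi.single i 1) (x i) := hasDerivAt_update x i (x i)
    have h2 : HasFDerivAt χ (fderiv ℝ χ x) (Function.update x i (x i)) := by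
      rw [Function.update_eq_self]
      exact (hχ.differentiable one_ne_zero x).hasFDerivAt
    exact (h2.comp_hasDerivAt (x i) h1).deriv
  rw [h1]
  exact (hχ.continuous_fderiv one_ne_zero).clm_apply continuous_const

theorem cap_ne_top {n : ℕ} {R C0 C1 : Set (Fin n → ℝ)} (hRb : Bornology.IsBounded R)
    {χ : (Fin n → ℝ) → ℝ} (hχ : ContDiff ℝ 1 χ) (h0 : ∀ x ∈ C0, χ x = 0)
    (h1 : ∀ x ∈ C1, χ x = 1) : cap R C0 C1 ≠ ⊤ := by
  have hadm : Admissible R C0 C1 χ := by
    refine ⟨hχ.continuous.continuousOn, ?_, h0, h1⟩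
    intro l u _ _ i
    refine Filter.Eventually.of_forall fun x _ => ?_
    exact (hχ.comp (contDiff_update 1 x i)).contDiffOn.absolutelyContinuousOnInterval
  have hc : Continuous fun x => euc (fun i => pd χ i x) ^ n := by
    unfold euc
    have hi := fun i => Cap_pd_cont hχ i
    fun_prop
  have hint : IntegrableOn (fun x => euc (fun i => pd χ i x) ^ n) R := by
    have h2 : IsCompact (closure R) := hRb.isCompact_closure
    exact (hc.continuousOn.integrableOn_compact h2).mono_set subset_closure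
  have hlt : dirichlet R χ < ⊤ := hint.lintegral_lt_top
  have hle : cap R C0 C1 ≤ dirichlet R χ := iInf_le_of_le χ (iInf_le _ hadm)
  exact (lt_of_le_of_lt hle hlt).ne

theorem cap_ne_zero {n : ℕ} {R C0 C1 : Set (Fin n → ℝ)} {S N p q : ℝ} (hS : 0 < S)
    (hp : 0 < p) (hq : 0 ≤ q)
    (h : ∀ f, Admissible R C0 C1 f → dirichlet R f ≠ ⊤ →
      ENNReal.ofReal S ≤ dirichlet R f ^ p * ENNReal.ofReal N ^ q) : cap R C0 C1 ≠ 0 := by
  set K : ℝ≥0∞ := ENNReal.ofReal N ^ q with hK
  have hKt : K ≠ ⊤ := ENNReal.rpow_ne_top_of_nonneg hq ENNReal.ofReal_ne_top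
  have hlow : (ENNReal.ofReal S / K) ^ (1 / p) ≤ cap R C0 C1 := by
    unfold cap
    refine le_iInf fun f => le_iInf fun hf => ?_
    by_cases hne : dirichlet R f = ⊤
    · rw [hne]
      exact le_top
    · have h1 := h f hf hne
      have h2 : ENNReal.ofReal S / K ≤ dirichlet R f ^ p := ENNReal.div_le_of_le_mul h1
      have h3 := ENNReal.rpow_le_rpow h2 (by positivity : 0 ≤ 1 / p)
      rwa [← ENNReal.rpow_mul, mul_one_div_cancel hp.ne', ENNReal.rpow_one] at h3
  have hpos : (ENNReal.ofReal S / K) ^ (1 / p) ≠ 0 := by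
    intro h1
    rw [ENNReal.rpow_eq_zero_iff] at h1
    rcases h1 with ⟨h2, -⟩ | ⟨-, h2⟩
    · rw [ENNReal.div_eq_zero_iff] at h2
      rcases h2 with h3 | h3
      · rw [ENNReal.ofReal_eq_zero] at h3
        linarith
      · exact hKt h3
    · have : 0 < 1 / p := by positivity
      linarith
  exact (lt_of_lt_of_le (pos_iff_ne_zero.2 hpos) hlow).ne'

end Pool.Agent.Lib.MP_b8b490_an
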