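import Mathlib

namespace Pool.Agent.Lib.MP_b8b490_an

/-! ### The cell certificate: computable definitions -/

/-- `Ef y T = 1 + y ∑ e / 2²⁰ yᵐ Tⁿ`, the sum over the elements `(m, n, e)` of `EL` -/
def EL : List (ℕ × ℕ × ℤ) := [
  (0, 0, -477184), (0, 1, 116736), (0, 2, 2191360), (1, 0, 54289), (1, 1, 190594),
  (1, 2, -313631), (1, 3, -93732), (1, 4, 961716), (2, 1, -217156), (2, 2, -181740),
  (2, 3, 215712), (2, 4, 183184), (3, 5, -11128832), (3, 6, 13152256), (4, 5, 2532244),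
  (4, 6, 71136), (4, 7, -11197004), (4, 8, 10360168), (5, 6, -3683264), (5, 7, 300352),
  (5, 8, 3382912), (7, 10, 29528356), (7, 11, -54175992), (7, 12, 25623780), (8, 11, -15618304),
  (8, 12, 15618304), (19, 21, -86478848), (19, 22, 90501120), (20, 21, 19677316), (20, 22, 11202656),
  (20, 23, -88311260), (20, 24, 60942920), (21, 22, -36608960), (21, 23, 2985280), (21, 24, 33623680),
  (23, 26, 458912168), (23, 27, -712138544), (23, 28, 257107240), (24, 27, -310469120), (24, 28, 310469120),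
  (39, 42, 1783035076), (39, 43, -2189015480), (39, 44, 409837700), (40, 43, -1542918400), (40, 44, 1542918400)]

/-- `pm s m = ∫₀ˢ (1 - σ⁴)ᵐ dσ` -/
def pm {K : Type} [Field K] (s : K) : ℕ → K
  | 0 => s
  | m + 1 => (s * (1 - s ^ 4) ^ (m + 1) + 4 * ((m : K) + 1) * pm s m) / (4 * ((m : K) + 1) + 1)

/-- the smallest `X` with `2⁵⁶ ≤ X Y³` -/
def XX (Y : ℕ) : ℕ := (2 ^ 56 + Y ^ 3 - 1) / Y ^ 3

/-- a list of cells `(t₁, Y)` in the variable `t` (unit `1 / 1024`), starting from `t₀` -/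
def DL : ℕ → List (ℕ × ℕ) → ℕ
  | _, [] => 0
  | t0, (t1, Y) :: L => (XX Y + 3 * Y) * (t1 - t0) + DL t1 L

def XL : ℕ → List (ℕ × ℕ) → ℕ
  | _, [] => 0
  | t0, (t1, Y) :: L => XX Y * (t1 ^ 3 - t0 ^ 3) + XL t1 L

def WL (n : ℕ) : ℕ → List (ℕ × ℕ) → ℕ
  | _, [] => 0
  | t0, (t1, Y) :: L => Y * (t1 ^ (2 * n + 1) - t0 ^ (2 * n + 1)) + WL n t1 L

/-- the cells fill the interval from `t₀` to `1024` and `Y > 0` -/
def okL : ℕ → List (ℕ × ℕ) → Bool
  | t0, [] => t0 == 1024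
  | t0, (t1, Y) :: L => decide (t0 < t1) && (decide (0 < Y) && okL t1 L)

/-- the coefficient of the monomial of number `q` in a row -/
def wq {K : Type} [Field K] (L : List (ℕ × ℕ)) (q : ℕ × ℕ × ℤ) : K :=
  ((q.2.2 : K) / 2 ^ 20) *
    ((WL q.2.1 0 L : K) / (16384 * (2 * (q.2.1 : K) + 1) * 1024 ^ (2 * q.2.1 + 1)))

/-- upper bound for the integral of `hh` over `[s₀, s₁]`, `s₁ < 1` -/
def rowV {K : Type} [Field K] (s0 s1 : K) (L : List (ℕ × ℕ)) : K :=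
  ((DL 0 L : K) / 2 ^ 26 - 1) * (1 / (1 - s0 ^ 4) + 1 / (1 - s1 ^ 4)) * (s1 - s0) -
    (XL 0 L : K) / (6 * 16384 * 1024 ^ 3) * (s1 - s0) +
    3 / 2 * (EL.map fun q => wq L q * (pm s1 q.1 - pm s0 q.1)).sum

/-- the last row `[s₀, 1]` with one cell and `X = Y = 1` -/
def lastV {K : Type} [Field K] (s0 : K) : K :=
  -(1 / 6) * (1 - s0) +
    3 / 2 * (EL.map fun q => ((q.2.2 : K) / 2 ^ 20) / (2 * (q.2.1 : K) + 1) *
      (pm 1 q.1 - pm s0 q.1)).sum

/-- the sum over a list of rows `(s₁, cells)`, starting from `s₀` (unit `1 / 1024`) -/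
def totV (K : Type) [Field K] : ℕ → List (ℕ × List (ℕ × ℕ)) → K
  | _, [] => 0
  | s0, (s1, L) :: R => rowV ((s0 : K) / 1024) ((s1 : K) / 1024) L + totV K s1 R

/-- validity of a list of rows from `s₀` to `e` -/
def okR (e : ℕ) : ℕ → List (ℕ × List (ℕ × ℕ)) → Bool
  | s0, [] => s0 == e
  | s0, (s1, L) :: R => decide (s0 < s1) && (decide (s1 < 1024) && (okL 0 L &&
      (decide (2 ^ 26 ≤ DL 0 L) && okR e s1 R)))

end Pool.Agent.Lib.MP_b8b490_an
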