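import Pool.Agent.Lib.MP_b8b490_an.B2

open MeasureTheory Set Filter Topology
open scoped ENNReal

namespace Pool.Agent.Lib.MP_b8b490_an

/-! ### The explicit field. The stream function is
`g = t - t (1 - t²) (a₀ y + a₁ y t² + a₂ y⁴ t¹⁰ + a₃ y²⁰ t⁴²)`, `y = 1 / C²`. -/

/-- `∂g/∂t` as a function of `y = 1 / C²` and `T = t²` -/
noncomputable def Af (y T : ℝ) : ℝ :=
  1 - 233 / 1024 * y * (1 - 3 * T) - 214 / 1024 * y * (3 * T - 5 * T ^ 2) -
    494 / 1024 * y ^ 4 * (11 * T ^ 5 - 13 * T ^ 6) -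
    982 / 1024 * y ^ 20 * (43 * T ^ 21 - 45 * T ^ 22)

/-- `y ∂P/∂y` -/
noncomputable def Sf (y T : ℝ) : ℝ :=
  233 / 1024 * y + 214 / 1024 * y * T + 4 * (494 / 1024) * y ^ 4 * T ^ 5 +
    20 * (982 / 1024) * y ^ 20 * T ^ 21

/-- the energy density -/
noncomputable def Ef (y T : ℝ) : ℝ := Af y T ^ 2 + 4 * T * (1 - T) * (1 - y) * Sf y T ^ 2

noncomputable def al (a C t : ℝ) : ℝ := Af (1 / C ^ 2) (t ^ 2) / (a / 2 * (C ^ 2 - 1))

noncomputable def be (a C t : ℝ) : ℝ := -(2 * t / C) * Sf (1 / C ^ 2) (t ^ 2) / (a / 2)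

private noncomputable def D1_Ay (y T : ℝ) : ℝ :=
  -(233 / 1024 * (1 - 3 * T)) - 214 / 1024 * (3 * T - 5 * T ^ 2) -
    494 / 1024 * (4 * y ^ 3) * (11 * T ^ 5 - 13 * T ^ 6) -
    982 / 1024 * (20 * y ^ 19) * (43 * T ^ 21 - 45 * T ^ 22)

private noncomputable def D1_ST (y T : ℝ) : ℝ :=
  214 / 1024 * y + 4 * (494 / 1024) * y ^ 4 * (5 * T ^ 4) +
    20 * (982 / 1024) * y ^ 20 * (21 * T ^ 20)

private theorem D1_hasAy (y T : ℝ) : HasDerivAt (fun y => Af y T) (D1_Ay y T) y := by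
  have h1 := (hasDerivAt_id' y).mul_const (233 / 1024 * (1 - 3 * T))
  have h2 := (hasDerivAt_id' y).mul_const (214 / 1024 * (3 * T - 5 * T ^ 2))
  have h3 := (hasDerivAt_pow 4 y).mul_const (494 / 1024 * (11 * T ^ 5 - 13 * T ^ 6))
  have h4 := (hasDerivAt_pow 20 y).mul_const (982 / 1024 * (43 * T ^ 21 - 45 * T ^ 22))
  have h := (((hasDerivAt_const y (1 : ℝ)).sub h1).sub h2).sub h3 |>.sub h4
  refine (h.congr_deriv ?_).congr_of_eventuallyEq ?_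
  · unfold D1_Ay
    push_cast
    ring
  · refine Filter.Eventually.of_forall fun z => ?_
    simp only [Af, Pi.sub_apply]
    ring

private theorem D1_hasST (y T : ℝ) : HasDerivAt (fun T => Sf y T) (D1_ST y T) T := by
  have h2 := (hasDerivAt_id' T).mul_const (214 / 1024 * y)
  have h3 := (hasDerivAt_pow 5 T).mul_const (4 * (494 / 1024) * y ^ 4)
  have h4 := (hasDerivAt_pow 21 T).mul_const (20 * (982 / 1024) * y ^ 20)
  have h := (((hasDerivAt_const T (233 / 1024 * y)).add h2).add h3).add h4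
  refine (h.congr_deriv ?_).congr_of_eventuallyEq ?_
  · unfold D1_ST
    push_cast
    ring
  · refine Filter.Eventually.of_forall fun z => ?_
    simp only [Sf, Pi.add_apply]
    ring

private theorem D1_ident (y T : ℝ) :
    -(y * D1_Ay y T) = (Sf y T + 2 * T * D1_ST y T) * (1 - T) - 2 * T * Sf y T := by
  unfold D1_Ay D1_ST Sf
  ring

private theorem D1_c1 {f : ℝ → ℝ → ℝ}
    (hf : ∀ C t, 1 < C → ContDiffAt ℝ 2 (fun p : ℝ × ℝ => f p.1 p.2) (C, t)) :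
    ∃ fC ft : ℝ → ℝ → ℝ, IsC1 f fC ft ∧
      (∀ C t, 1 < C → HasDerivAt (fun s => f s t) (fC C t) C) ∧
      ∀ C t, 1 < C → HasDerivAt (fun s => f C s) (ft C t) t := by
  obtain ⟨F, hF⟩ : ∃ F : ℝ × ℝ → ℝ, F = fun p : ℝ × ℝ => f p.1 p.2 := ⟨_, rfl⟩
  rw [← hF] at hf
  have hd : ∀ C t, 1 < C → HasFDerivAt F (fderiv ℝ F (C, t)) (C, t) := fun C t hC =>
    ((hf C t hC).differentiableAt (by norm_num)).hasFDerivAt
  have hcont : ContinuousOn (fderiv ℝ F) {p | 1 < p.1} := by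
    rintro ⟨C, t⟩ hC
    exact ((hf C t hC).fderiv_right (m := 1) (by norm_num)).continuousAt.continuousWithinAt
  refine ⟨fun C t => fderiv ℝ F (C, t) (1, 0), fun C t => fderiv ℝ F (C, t) (0, 1), ⟨?_, ?_, ?_⟩,
    ?_, ?_⟩
  · intro C t hC
    rw [← hF]
    refine (hd C t hC).congr_fderiv ?_
    ext <;> simp
  · exact hcont.clm_apply continuousOn_const
  · exact hcont.clm_apply continuousOn_const
  · intro C t hC
    have h1 : HasDerivAt (fun s : ℝ => (s, t)) ((1 : ℝ), (0 : ℝ)) C :=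
      (hasDerivAt_id' C).prodMk (hasDerivAt_const C t)
    have h2 := (hd C t hC).comp_hasDerivAt C h1
    rw [hF] at h2 ⊢
    exact h2
  · intro C t hC
    have h1 : HasDerivAt (fun s : ℝ => (C, s)) ((0 : ℝ), (1 : ℝ)) t :=
      (hasDerivAt_const t C).prodMk (hasDerivAt_id' t)
    have h2 := (hd C t hC).comp_hasDerivAt t h1
    rw [hF] at h2 ⊢
    exact h2

private theorem D1_al_smooth {a : ℝ} (ha : 0 < a) (C t : ℝ) (hC : 1 < C) :
    ContDiffAt ℝ 2 (fun p : ℝ × ℝ => al a p.1 p.2) (C, t) := by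
  have hC0 : C ^ 2 ≠ 0 := by positivity
  have hC1 : a / 2 * (C ^ 2 - 1) ≠ 0 := by
    have : 0 < C ^ 2 - 1 := by nlinarith
    positivity
  have hy : ContDiffAt ℝ 2 (fun p : ℝ × ℝ => 1 / p.1 ^ 2) (C, t) :=
    contDiffAt_const.div (contDiffAt_fst.pow 2) hC0
  have hden : ContDiffAt ℝ 2 (fun p : ℝ × ℝ => a / 2 * (p.1 ^ 2 - 1)) (C, t) := by fun_prop
  have hA : ContDiff ℝ 2 (fun q : ℝ × ℝ => Af q.1 q.2) := by
    unfold Af
    fun_prop
  have hT : ContDiffAt ℝ 2 (fun p : ℝ × ℝ => p.2 ^ 2) (C, t) := by fun_prop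
  have hA' : ContDiffAt ℝ 2 (fun p : ℝ × ℝ => Af (1 / p.1 ^ 2) (p.2 ^ 2)) (C, t) :=
    hA.contDiffAt.comp (C, t) (hy.prodMk hT)
  exact hA'.div hden hC1

private theorem D1_be_smooth {a : ℝ} (C t : ℝ) (hC : 1 < C) :
    ContDiffAt ℝ 2 (fun p : ℝ × ℝ => be a p.1 p.2) (C, t) := by
  have hC0 : C ^ 2 ≠ 0 := by positivity
  have hC1 : C ≠ 0 := by positivity
  have hy : ContDiffAt ℝ 2 (fun p : ℝ × ℝ => 1 / p.1 ^ 2) (C, t) :=
    contDiffAt_const.div (contDiffAt_fst.pow 2) hC0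
  have hS : ContDiff ℝ 2 (fun q : ℝ × ℝ => Sf q.1 q.2) := by
    unfold Sf
    fun_prop
  have hT : ContDiffAt ℝ 2 (fun p : ℝ × ℝ => p.2 ^ 2) (C, t) := by fun_prop
  have hS' : ContDiffAt ℝ 2 (fun p : ℝ × ℝ => Sf (1 / p.1 ^ 2) (p.2 ^ 2)) (C, t) :=
    hS.contDiffAt.comp (C, t) (hy.prodMk hT)
  have h1 : ContDiffAt ℝ 2 (fun p : ℝ × ℝ => 2 * p.2 / p.1) (C, t) :=
    (by fun_prop : ContDiffAt ℝ 2 (fun p : ℝ × ℝ => 2 * p.2) (C, t)).div contDiffAt_fst hC1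
  exact (h1.neg.mul hS').div_const _

/-- Row D1: first derivatives of `al a`, `be a` -/
theorem exists_derivs {a : ℝ} (ha : 0 < a) :
    ∃ αC αt βC βt : ℝ → ℝ → ℝ, IsC1 (al a) αC αt ∧ IsC1 (be a) βC βt ∧
      ∀ C t, 1 < C → αC C t * (C ^ 2 - 1) + ((2 : ℕ) : ℝ) * C * al a C t +
        βt C t * (1 - t ^ 2) - ((2 : ℕ) : ℝ) * t * be a C t = 0 := by
  obtain ⟨αC, αt, hα, hαC, -⟩ := D1_c1 (D1_al_smooth ha)
  obtain ⟨βC, βt, hβ, -, hβt⟩ := D1_c1 (f := be a) D1_be_smooth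
  refine ⟨αC, αt, βC, βt, hα, hβ, fun C t hC => ?_⟩
  have hC0 : C ≠ 0 := by positivity
  have hC1 : C ^ 2 - 1 ≠ 0 := by
    have : 0 < C ^ 2 - 1 := by nlinarith
    positivity
  have hy : HasDerivAt (fun s : ℝ => 1 / s ^ 2) (-(2 / C ^ 3)) C := by
    have h1 := (hasDerivAt_pow 2 C).inv (pow_ne_zero 2 hC0)
    refine (h1.congr_deriv ?_).congr_of_eventuallyEq ?_
    · push_cast
      field_simp
    · exact Filter.Eventually.of_forall fun z => by simp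
  have hden : HasDerivAt (fun s : ℝ => a / 2 * (s ^ 2 - 1)) (a / 2 * (2 * C)) C := by
    have h1 := ((hasDerivAt_pow 2 C).sub_const 1).const_mul (a / 2)
    simpa using h1
  have hA : HasDerivAt (fun s : ℝ => Af (1 / s ^ 2) (t ^ 2))
      (D1_Ay (1 / C ^ 2) (t ^ 2) * (-(2 / C ^ 3))) C :=
    HasDerivAt.comp (h₂ := fun y => Af y (t ^ 2)) C (D1_hasAy (1 / C ^ 2) (t ^ 2)) hy
  have e1 := (hαC C t hC).unique (hA.div hden (mul_ne_zero (by positivity) hC1))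
  have hT : HasDerivAt (fun s : ℝ => s ^ 2) (2 * t) t := by
    simpa using hasDerivAt_pow 2 t
  have hS : HasDerivAt (fun s : ℝ => Sf (1 / C ^ 2) (s ^ 2))
      (D1_ST (1 / C ^ 2) (t ^ 2) * (2 * t)) t :=
    HasDerivAt.comp (h₂ := fun T => Sf (1 / C ^ 2) T) t (D1_hasST (1 / C ^ 2) (t ^ 2)) hT
  have hlin : HasDerivAt (fun s : ℝ => -(2 * s / C)) (-(2 / C)) t := by
    have h1 := (((hasDerivAt_id' t).const_mul 2).div_const C).fun_neg
    simpa using h1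
  have e2 := (hβt C t hC).unique ((hlin.mul hS).div_const (a / 2))
  have e3 := D1_ident (1 / C ^ 2) (t ^ 2)
  rw [e1, e2]
  unfold al be
  generalize D1_Ay (1 / C ^ 2) (t ^ 2) = X at *
  generalize D1_ST (1 / C ^ 2) (t ^ 2) = Z at *
  generalize Af (1 / C ^ 2) (t ^ 2) = V at *
  generalize Sf (1 / C ^ 2) (t ^ 2) = W at *
  have ha0 : a ≠ 0 := ha.ne'
  push_cast
  have e4 : X = -(C ^ 2 * ((W + 2 * t ^ 2 * Z) * (1 - t ^ 2) - 2 * t ^ 2 * W)) := by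
    rw [← e3]
    field_simp
  rw [e4]
  field_simp
  ring

theorem al_flux {a : ℝ} (ha : 0 < a) {C : ℝ} (hC : 1 < C) :
    ∫ t in (-1 : ℝ)..1, al a C t = 4 / (a * (C ^ 2 - 1)) := by
  have hC1 : C ^ 2 - 1 ≠ 0 := by
    have : 0 < C ^ 2 - 1 := by nlinarith
    positivity
  obtain ⟨y, hy⟩ : ∃ y : ℝ, y = 1 / C ^ 2 := ⟨_, rfl⟩
  have hd : ∀ t : ℝ, HasDerivAt (fun t : ℝ => t - 233 / 1024 * y * (t - t ^ 3) -
      214 / 1024 * y * (t ^ 3 - t ^ 5) - 494 / 1024 * y ^ 4 * (t ^ 11 - t ^ 13) -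
      982 / 1024 * y ^ 20 * (t ^ 43 - t ^ 45)) (Af y (t ^ 2)) t := by
    intro t
    have h1 := ((hasDerivAt_id' t).sub (hasDerivAt_pow 3 t)).const_mul (233 / 1024 * y)
    have h2 := ((hasDerivAt_pow 3 t).sub (hasDerivAt_pow 5 t)).const_mul (214 / 1024 * y)
    have h3 := ((hasDerivAt_pow 11 t).sub (hasDerivAt_pow 13 t)).const_mul (494 / 1024 * y ^ 4)
    have h4 := ((hasDerivAt_pow 43 t).sub (hasDerivAt_pow 45 t)).const_mul (982 / 1024 * y ^ 20)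
    have h := ((((hasDerivAt_id' t).sub h1).sub h2).sub h3).sub h4
    refine h.congr_deriv ?_
    unfold Af
    push_cast
    ring
  have hint : ∫ t in (-1 : ℝ)..1, Af y (t ^ 2) = 2 := by
    rw [intervalIntegral.integral_eq_sub_of_hasDerivAt (fun t _ => hd t)]
    · norm_num
    · apply Continuous.intervalIntegrable
      unfold Af
      fun_prop
  have h1 : ∀ t, al a C t = Af y (t ^ 2) / (a / 2 * (C ^ 2 - 1)) := fun t => by
    unfold al
    rw [hy]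
  simp only [h1]
  rw [intervalIntegral.integral_div, hint]
  have ha0 : a ≠ 0 := ha.ne'
  field_simp
  norm_num

theorem al_be_energy {a : ℝ} (ha : 0 < a) {C t : ℝ} (hC : 1 < C) :
    al a C t ^ 2 * (C ^ 2 - 1) + be a C t ^ 2 * (1 - t ^ 2) =
      Ef (1 / C ^ 2) (t ^ 2) / ((a / 2) ^ 2 * (C ^ 2 - 1)) := by
  have hC0 : C ≠ 0 := by positivity
  have hC1 : C ^ 2 - 1 ≠ 0 := by
    have : 0 < C ^ 2 - 1 := by nlinarith
    positivity
  have ha0 : a ≠ 0 := ha.ne'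
  unfold al be Ef
  generalize Af (1 / C ^ 2) (t ^ 2) = V
  generalize Sf (1 / C ^ 2) (t ^ 2) = W
  field_simp
  ring

end Pool.Agent.Lib.MP_b8b490_an
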