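import Pool.Agent.Lib.MP_b8b490_an.C5
import Pool.Agent.Lib.MP_b8b490_an.D1

open MeasureTheory Set Filter Topology
open scoped ENNReal

namespace Pool.Agent.Lib.MP_b8b490_an

/-- the integrand in the coordinates `(σ, t)` -/
noncomputable def H0 (σ t : ℝ) : ℝ :=
  (1 - t ^ 2 * (1 - σ ^ 4)) ^ ((1 : ℝ) / 4) * Ef (1 - σ ^ 4) (t ^ 2) ^ ((3 : ℝ) / 4)

/-- the integral over `t` -/
noncomputable def G0 (σ : ℝ) : ℝ := ∫ t in (0 : ℝ)..1, H0 σ t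

private theorem D2_cont_Ef : Continuous (fun p : ℝ × ℝ => Ef p.1 p.2) := by
  unfold Ef Af Sf
  fun_prop

theorem continuous_H0 : Continuous (fun p : ℝ × ℝ => H0 p.1 p.2) := by
  unfold H0
  refine Continuous.mul ?_ ?_
  · exact Continuous.rpow_const (by fun_prop) (fun _ => Or.inr (by norm_num))
  · refine Continuous.rpow_const ?_ (fun _ => Or.inr (by norm_num))
    exact D2_cont_Ef.comp (f := fun p : ℝ × ℝ => (1 - p.1 ^ 4, p.2 ^ 2)) (by fun_prop)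

theorem continuous_G0 : Continuous G0 :=
  intervalIntegral.continuous_parametric_intervalIntegral_of_continuous' continuous_H0 0 1

private theorem D2_ofReal {f : ℝ → ℝ} {u v : ℝ} (huv : u ≤ v) (hf : ContinuousOn f (Icc u v))
    (h0 : ∀ x ∈ Icc u v, 0 ≤ f x) :
    ∫⁻ x in Ioo u v, ENNReal.ofReal (f x) = ENNReal.ofReal (∫ x in u..v, f x) := by
  rw [intervalIntegral.integral_of_le huv, integral_Ioc_eq_integral_Ioo,
    ofReal_integral_eq_lintegral_ofReal]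
  · exact hf.integrableOn_Icc.mono_set Ioo_subset_Icc_self
  · exact (ae_restrict_iff' measurableSet_Ioo).2
      (ae_of_all _ fun x hx => h0 x (Ioo_subset_Icc_self hx))

private theorem D2_Ef_nonneg {y T : ℝ} (hy : y ≤ 1) (h0 : 0 ≤ T) (h1 : T ≤ 1) : 0 ≤ Ef y T := by
  unfold Ef
  have h2 : 0 ≤ 4 * T * (1 - T) * (1 - y) :=
    mul_nonneg (mul_nonneg (by linarith) (by linarith)) (by linarith)
  have h3 := mul_nonneg h2 (sq_nonneg (Sf y T))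
  have h4 := sq_nonneg (Af y T)
  linarith

private theorem D2_sq_le {t : ℝ} (h : t ∈ Icc (-1 : ℝ) 1) : t ^ 2 ≤ 1 := by
  have := abs_le.2 ⟨h.1, h.2⟩
  rw [← sq_abs]
  exact pow_le_one₀ (abs_nonneg _) this

private theorem D2_H0_nonneg {σ t : ℝ} (hσ : 0 ≤ σ) (hσ1 : σ ≤ 1) (ht : t ∈ Icc (-1 : ℝ) 1) :
    0 ≤ H0 σ t := by
  have h1 : σ ^ 4 ≤ 1 := pow_le_one₀ hσ hσ1
  have h0 : 0 ≤ σ ^ 4 := by positivity
  have h2 := D2_sq_le ht
  unfold H0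
  refine mul_nonneg (Real.rpow_nonneg ?_ _) (Real.rpow_nonneg ?_ _)
  · nlinarith [sq_nonneg t]
  · exact D2_Ef_nonneg (by linarith) (sq_nonneg t) h2

/-- the integral over `t` in terms of `G0` -/
private theorem D2_inner {σ : ℝ} (hσ : 0 ≤ σ) (hσ1 : σ < 1) :
    ∫⁻ t in Ioo (-1 : ℝ) 1, ENNReal.ofReal (4 * Real.pi / (1 - σ ^ 4) * H0 σ t) =
      ENNReal.ofReal (4 * Real.pi * (2 / (1 - σ ^ 4) * G0 σ)) := by
  have h4 : σ ^ 4 < 1 := pow_lt_one₀ hσ hσ1 (by norm_num)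
  have hc : 0 ≤ 4 * Real.pi / (1 - σ ^ 4) := div_nonneg (by positivity) (by linarith)
  have hcont : Continuous (fun t => H0 σ t) :=
    continuous_H0.comp (f := fun t : ℝ => (σ, t)) (by fun_prop)
  rw [D2_ofReal (by norm_num) (by fun_prop) (fun t ht => mul_nonneg hc
    (D2_H0_nonneg hσ hσ1.le ht)), intervalIntegral.integral_const_mul]
  congr 1
  have hsplit : ∫ t in (-1 : ℝ)..1, H0 σ t =
      (∫ t in (-1 : ℝ)..0, H0 σ t) + ∫ t in (0 : ℝ)..1, H0 σ t :=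
    (intervalIntegral.integral_add_adjacent_intervals (hcont.intervalIntegrable _ _)
      (hcont.intervalIntegrable _ _)).symm
  have heven : ∫ t in (-1 : ℝ)..0, H0 σ t = ∫ t in (0 : ℝ)..1, H0 σ t := by
    have h1 : ∫ t in (0 : ℝ)..1, H0 σ (-t) = ∫ t in (-1 : ℝ)..(-0), H0 σ t :=
      intervalIntegral.integral_comp_neg (fun t => H0 σ t)
    rw [neg_zero] at h1
    rw [← h1]
    refine intervalIntegral.integral_congr fun t _ => ?_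
    show H0 σ (-t) = H0 σ t
    unfold H0
    rw [neg_sq]
  rw [hsplit, heven]
  unfold G0
  ring

/-- the integrand after the substitution -/
private theorem D2_sub {a : ℝ} (ha0 : 0 < a) {σ t : ℝ} (hσ : 0 < σ) (hσ1 : σ < 1)
    (ht : t ∈ Icc (-1 : ℝ) 1) :
    2 * σ ^ 3 * wC σ ^ 3 * (2 * Real.pi * (a / 2) ^ ((3 : ℝ) / 2) *
      (wC σ ^ 2 - t ^ 2) ^ ((1 : ℝ) / 4) *
      (al a (wC σ) t ^ 2 * (wC σ ^ 2 - 1) + be a (wC σ) t ^ 2 * (1 - t ^ 2)) ^ ((3 : ℝ) / 4)) =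
      4 * Real.pi / (1 - σ ^ 4) * H0 σ t := by
  have h4 : σ ^ 4 < 1 := pow_lt_one₀ hσ.le hσ1 (by norm_num)
  have h4' : 0 < σ ^ 4 := by positivity
  have hy : 0 < 1 - σ ^ 4 := by linarith
  have ht2 := D2_sq_le ht
  have hw0 : 0 < wC σ := by
    unfold wC
    have := Real.sqrt_pos.2 hy
    positivity
  have hw2 : wC σ ^ 2 = 1 / (1 - σ ^ 4) := by
    unfold wC
    rw [div_pow, one_pow, Real.sq_sqrt hy.le]
  have hw1 : 1 < wC σ := by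
    have : 1 < wC σ ^ 2 := by
      rw [hw2, lt_div_iff₀ hy]
      linarith
    nlinarith
  have hy2 : 1 / wC σ ^ 2 = 1 - σ ^ 4 := by
    rw [hw2, one_div_one_div]
  rw [al_be_energy ha0 hw1, hy2]
  have e1 : wC σ ^ 2 - t ^ 2 = wC σ ^ 2 * (1 - t ^ 2 * (1 - σ ^ 4)) := by
    rw [hw2]
    field_simp
  have e2 : wC σ ^ 2 - 1 = (σ ^ 2 * wC σ) ^ 2 := by
    have : (σ ^ 2 * wC σ) ^ 2 = σ ^ 4 * wC σ ^ 2 := by ring
    rw [this, hw2]
    field_simp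
    ring
  have n1 : 0 ≤ 1 - t ^ 2 * (1 - σ ^ 4) := by nlinarith [sq_nonneg t]
  have n2 : 0 ≤ Ef (1 - σ ^ 4) (t ^ 2) := D2_Ef_nonneg (by linarith) (sq_nonneg t) ht2
  have e3 : (wC σ ^ 2 * (1 - t ^ 2 * (1 - σ ^ 4))) ^ ((1 : ℝ) / 4) =
      wC σ ^ ((1 : ℝ) / 2) * (1 - t ^ 2 * (1 - σ ^ 4)) ^ ((1 : ℝ) / 4) := by
    rw [Real.mul_rpow (by positivity) n1, ← Real.rpow_natCast, ← Real.rpow_mul hw0.le]
    norm_num
  have e4 : (a / 2) ^ 2 * (σ ^ 2 * wC σ) ^ 2 = (a / 2 * (σ ^ 2 * wC σ)) ^ 2 := by ring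
  have e5 : (Ef (1 - σ ^ 4) (t ^ 2) / ((a / 2) ^ 2 * (σ ^ 2 * wC σ) ^ 2)) ^ ((3 : ℝ) / 4) =
      Ef (1 - σ ^ 4) (t ^ 2) ^ ((3 : ℝ) / 4) /
        ((a / 2) ^ ((3 : ℝ) / 2) * (σ ^ 3 * wC σ ^ ((3 : ℝ) / 2))) := by
    have hσ3 : (σ ^ 2) ^ ((3 : ℝ) / 2) = σ ^ 3 := by
      rw [← Real.rpow_natCast σ 2, ← Real.rpow_mul hσ.le, ← Real.rpow_natCast σ 3]
      norm_num
    rw [e4, Real.div_rpow n2 (by positivity), ← Real.rpow_natCast (a / 2 * (σ ^ 2 * wC σ)) 2,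
      ← Real.rpow_mul (by positivity)]
    rw [show ((2 : ℕ) : ℝ) * ((3 : ℝ) / 4) = (3 : ℝ) / 2 by norm_num,
      Real.mul_rpow (by positivity) (by positivity), Real.mul_rpow (by positivity) hw0.le, hσ3]
  have e6 : wC σ ^ ((3 : ℝ) / 2) = wC σ * wC σ ^ ((1 : ℝ) / 2) := by
    rw [show ((3 : ℝ) / 2) = 1 + 1 / 2 by norm_num, Real.rpow_add hw0, Real.rpow_one]
  rw [e1, e3, e2, e5, e6]
  have p1 : 0 < wC σ ^ ((1 : ℝ) / 2) := Real.rpow_pos_of_pos hw0 _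
  have p2 : 0 < (a / 2) ^ ((3 : ℝ) / 2) := Real.rpow_pos_of_pos (by positivity) _
  unfold H0
  set X := (1 - t ^ 2 * (1 - σ ^ 4)) ^ ((1 : ℝ) / 4)
  set Y := Ef (1 - σ ^ 4) (t ^ 2) ^ ((3 : ℝ) / 4)
  set W := wC σ
  set Z := W ^ ((1 : ℝ) / 2)
  set B := (a / 2) ^ ((3 : ℝ) / 2)
  have e7 : 4 * Real.pi / (1 - σ ^ 4) = 4 * Real.pi * W ^ 2 := by
    rw [hw2]
    ring
  rw [e7]
  field_simp
  ring

/-- Row D2: the `L^{3/2}` norm of the explicit field -/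
theorem energy_al {a : ℝ} (ha0 : 0 < a) {M : ℝ} (hM : M = 2 / a + 1) :
    ∫⁻ x in ring (k := 2) a,
        ENNReal.ofReal (euc (fun i => fld a (al a) (be a) i x) ^ ((3 : ℝ) / 2)) ≤
      ENNReal.ofReal (4 * Real.pi * ∫ σ in (0 : ℝ)..sM M, 2 / (1 - σ ^ 4) * G0 σ) := by
  obtain ⟨αC, αt, βC, βt, hα, hβ, -⟩ := exists_derivs ha0
  have hM1 : 1 < M := by
    rw [hM]
    have : 0 < 2 / a := by positivity
    linarith
  obtain ⟨s0, s1, -⟩ := sM_mem hM1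
  refine (energy_le ha0 hα hβ).trans (le_of_eq ?_)
  rw [← hM]
  set F : ℝ × ℝ → ℝ := fun q => 2 * Real.pi * (a / 2) ^ ((3 : ℝ) / 2) *
    (q.1 ^ 2 - q.2 ^ 2) ^ ((1 : ℝ) / 4) *
    (al a q.1 q.2 ^ 2 * (q.1 ^ 2 - 1) + be a q.1 q.2 ^ 2 * (1 - q.2 ^ 2)) ^ ((3 : ℝ) / 4)
    with hF
  have hFm : Measurable F := by
    rw [hF]
    unfold al be Af Sf
    fun_prop
  have h1 : ∫⁻ q in Ioo (1 : ℝ) M ×ˢ Ioo (-1 : ℝ) 1, ENNReal.ofReal (F q) =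
      ∫⁻ C in Ioo (1 : ℝ) M, ∫⁻ t in Ioo (-1 : ℝ) 1, ENNReal.ofReal (F (C, t)) := by
    rw [Measure.volume_eq_prod, ← Measure.prod_restrict,
      lintegral_prod _ (hFm.ennreal_ofReal).aemeasurable]
  rw [h1, lintegral_wC hM1 (fun C => ∫⁻ t in Ioo (-1 : ℝ) 1, ENNReal.ofReal (F (C, t)))]
  have h2 : ∫⁻ σ in Ioo 0 (sM M), ENNReal.ofReal (2 * σ ^ 3 * wC σ ^ 3) *
      ∫⁻ t in Ioo (-1 : ℝ) 1, ENNReal.ofReal (F (wC σ, t)) =
      ∫⁻ σ in Ioo 0 (sM M), ENNReal.ofReal (4 * Real.pi * (2 / (1 - σ ^ 4) * G0 σ)) := by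
    refine setLIntegral_congr_fun measurableSet_Ioo fun σ hσ => ?_
    have hσ1 : σ < 1 := hσ.2.trans s1
    have hw0 : 0 ≤ 2 * σ ^ 3 * wC σ ^ 3 := by
      have : 0 ≤ wC σ := by unfold wC; positivity
      have := hσ.1
      positivity
    show ENNReal.ofReal (2 * σ ^ 3 * wC σ ^ 3) *
      ∫⁻ t in Ioo (-1 : ℝ) 1, ENNReal.ofReal (F (wC σ, t)) =
      ENNReal.ofReal (4 * Real.pi * (2 / (1 - σ ^ 4) * G0 σ))
    rw [← D2_inner hσ.1.le hσ1, ← lintegral_const_mul' _ _ ENNReal.ofReal_ne_top]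
    refine setLIntegral_congr_fun measurableSet_Ioo fun t ht => ?_
    show ENNReal.ofReal (2 * σ ^ 3 * wC σ ^ 3) * ENNReal.ofReal (F (wC σ, t)) =
      ENNReal.ofReal (4 * Real.pi / (1 - σ ^ 4) * H0 σ t)
    rw [← ENNReal.ofReal_mul hw0]
    congr 1
    exact D2_sub ha0 hσ.1 hσ1 (Ioo_subset_Icc_self ht)
  rw [h2, D2_ofReal s0.le, intervalIntegral.integral_const_mul]
  · refine continuousOn_const.mul (ContinuousOn.mul ?_ continuous_G0.continuousOn)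
    refine ContinuousOn.div continuousOn_const (by fun_prop) fun x hx => ?_
    have : x ^ 4 < 1 := pow_lt_one₀ hx.1 (hx.2.trans_lt s1) (by norm_num)
    linarith
  · intro x hx
    have hx1 : x < 1 := hx.2.trans_lt s1
    have : x ^ 4 < 1 := pow_lt_one₀ hx.1 hx1 (by norm_num)
    have hG : 0 ≤ G0 x := by
      unfold G0
      exact intervalIntegral.integral_nonneg (by norm_num) fun t ht =>
        D2_H0_nonneg hx.1 hx1.le ⟨by linarith [ht.1], ht.2⟩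
    have h3 : 0 ≤ 2 / (1 - x ^ 4) := div_nonneg (by norm_num) (by linarith)
    positivity

end Pool.Agent.Lib.MP_b8b490_an
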