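import Pool.Agent.Lib.MP_b8b490_an.D2

open MeasureTheory Set Filter Topology
open scoped ENNReal

namespace Pool.Agent.Lib.MP_b8b490_an

/-- the regularised integrand -/
noncomputable def hh (σ : ℝ) : ℝ := 2 / (1 - σ ^ 4) * (G0 σ - 1)

private theorem D3_pos {s : ℝ} (h0 : 0 ≤ s) (h1 : s < 1) {x : ℝ} (hx : x ∈ Set.uIcc 0 s) :
    0 ≤ x ∧ x < 1 ∧ 0 < 1 - x ^ 4 := by
  rw [Set.uIcc_of_le h0] at hx
  have hx1 : x < 1 := lt_of_le_of_lt hx.2 h1
  have : x ^ 4 < 1 := pow_lt_one₀ hx.1 hx1 (by norm_num)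
  exact ⟨hx.1, hx1, by linarith⟩

private theorem D3_cont {s : ℝ} (h0 : 0 ≤ s) (h1 : s < 1) :
    ContinuousOn (fun σ : ℝ => 2 / (1 - σ ^ 4)) (Set.uIcc 0 s) := by
  refine ContinuousOn.div continuousOn_const (by fun_prop) ?_
  intro x hx
  exact (D3_pos h0 h1 hx).2.2.ne'

/-- Row D3: `∫ 2 / (1 - σ⁴) = ln (1 + σ) - ln (1 - σ) ...` -/
theorem integral_two_div {s : ℝ} (h0 : 0 ≤ s) (h1 : s < 1) :
    ∫ σ in (0 : ℝ)..s, 2 / (1 - σ ^ 4) =
      Real.log (1 + s) + Real.log (1 + s ^ 2) / 2 - Real.log (1 - s ^ 4) / 2 + Real.arctan s := by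
  have hd : ∀ x ∈ Set.uIcc 0 s, HasDerivAt (fun σ : ℝ => Real.log (1 + σ) +
      Real.log (1 + σ ^ 2) / 2 - Real.log (1 - σ ^ 4) / 2 + Real.arctan σ) (2 / (1 - x ^ 4)) x := by
    intro x hx
    obtain ⟨hx0, hx1, hx2⟩ := D3_pos h0 h1 hx
    have a1 : (1 + x) ≠ 0 := by positivity
    have a2 : (1 + x ^ 2) ≠ 0 := by positivity
    have d1 : HasDerivAt (fun σ : ℝ => Real.log (1 + σ)) (1 / (1 + x)) x := by
      have := ((hasDerivAt_id x).const_add 1).log a1
      simpa using this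
    have d2 : HasDerivAt (fun σ : ℝ => Real.log (1 + σ ^ 2)) (2 * x / (1 + x ^ 2)) x := by
      have := ((hasDerivAt_pow 2 x).const_add 1).log a2
      simpa using this
    have d3 : HasDerivAt (fun σ : ℝ => Real.log (1 - σ ^ 4)) (-(4 * x ^ 3) / (1 - x ^ 4)) x := by
      have := ((hasDerivAt_pow 4 x).const_sub 1).log hx2.ne'
      simpa using this
    have d4 := Real.hasDerivAt_arctan x
    have := ((d1.add (d2.div_const 2)).sub (d3.div_const 2)).add d4
    refine this.congr_deriv ?_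
    have e : 1 - x ^ 4 = (1 - x) * (1 + x) * (1 + x ^ 2) := by ring
    have a3 : (1 - x) ≠ 0 := by linarith [hx1] |> ne_of_gt
    rw [e]
    field_simp
    ring
  rw [intervalIntegral.integral_eq_sub_of_hasDerivAt hd (D3_cont h0 h1).intervalIntegrable]
  simp

theorem integral_split {s : ℝ} (h0 : 0 ≤ s) (h1 : s < 1) :
    ∫ σ in (0 : ℝ)..s, 2 / (1 - σ ^ 4) * G0 σ =
      Real.log (1 + s) + Real.log (1 + s ^ 2) / 2 - Real.log (1 - s ^ 4) / 2 + Real.arctan s +
        ∫ σ in (0 : ℝ)..s, hh σ := by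
  have hc : ContinuousOn hh (Set.uIcc 0 s) :=
    (D3_cont h0 h1).mul (continuous_G0.sub continuous_const).continuousOn
  rw [← integral_two_div h0 h1,
    ← intervalIntegral.integral_add (D3_cont h0 h1).intervalIntegrable hc.intervalIntegrable]
  refine intervalIntegral.integral_congr ?_
  intro x _
  simp only [hh]
  ring

end Pool.Agent.Lib.MP_b8b490_an
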