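import Pool.Agent.Lib.MP_b8b490_an.D4a

open MeasureTheory Set Filter Topology
open scoped ENNReal

namespace Pool.Agent.Lib.MP_b8b490_an

/-! ### Row D4b: the bound for `G0` from a list of cells -/

theorem d4b_int_sum (g : (ℕ × ℕ × ℤ) → ℝ → ℝ) (hg : ∀ q, Continuous (g q)) (a b : ℝ) :
    ∀ E : List (ℕ × ℕ × ℤ), Continuous (fun t => (E.map fun q => g q t).sum) ∧
      ∫ t in a..b, (E.map fun q => g q t).sum = (E.map fun q => ∫ t in a..b, g q t).sum
  | [] => by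
    constructor
    · simpa using continuous_const
    · simp
  | q :: E => by
    obtain ⟨h1, h2⟩ := d4b_int_sum g hg a b E
    simp only [List.map_cons, List.sum_cons]
    refine ⟨(hg q).add h1, ?_⟩
    rw [intervalIntegral.integral_add ((hg q).intervalIntegrable _ _)
      (h1.intervalIntegrable _ _), h2]

theorem d4b_cell {σ a b X Y : ℝ} (h0 : 0 ≤ σ) (h1 : σ ≤ 1) (ha : 0 ≤ a) (hab : a ≤ b)
    (hb : b ≤ 1) (hX : 0 < X) (hY : 0 < Y) (hXY : 1 ≤ X * Y ^ 3) :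
    ∫ t in a..b, H0 σ t ≤ (X + 3 * Y) / 4 * (b - a) + (1 - σ ^ 4) * (-(X / 12 * (b ^ 3 - a ^ 3)) +
      3 * Y / 4 * (EL.map fun q => ((q.2.2 : ℝ) / 2 ^ 20) *
        ((b ^ (2 * q.2.1 + 1) - a ^ (2 * q.2.1 + 1)) / (2 * (q.2.1 : ℝ) + 1)) *
          (1 - σ ^ 4) ^ q.1).sum) := by
  set c : ℝ := 1 - σ ^ 4 with hc
  have hcH : Continuous (fun t => H0 σ t) :=
    continuous_H0.comp (continuous_const.prodMk continuous_id)
  set g : (ℕ × ℕ × ℤ) → ℝ → ℝ := fun q t => ((q.2.2 : ℝ) / 2 ^ 20) * c ^ q.1 * (t ^ 2) ^ q.2.1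
    with hg
  have hgc : ∀ q, Continuous (g q) := fun q => by
    show Continuous fun t => ((q.2.2 : ℝ) / 2 ^ 20) * c ^ q.1 * (t ^ 2) ^ q.2.1
    fun_prop
  obtain ⟨s1, s2⟩ := d4b_int_sum g hgc a b EL
  have k1 : Continuous fun t : ℝ => X / 4 * (1 - t ^ 2 * c) := by fun_prop
  have k2 : Continuous fun t : ℝ => 3 * Y / 4 * (1 + c * (EL.map fun q => g q t).sum) := by
    exact continuous_const.mul (continuous_const.add (continuous_const.mul s1))
  have hm := intervalIntegral.integral_mono_on (μ := volume) hab (hcH.intervalIntegrable a b)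
    ((k1.add k2).intervalIntegrable a b) (fun t ht => by
      have ht0 : 0 ≤ t := ha.trans ht.1
      have ht1 : t ≤ 1 := ht.2.trans hb
      have h := H0_le h0 h1 ht0 ht1 hX hY hXY
      rw [Ef_eq] at h
      exact h)
  refine hm.trans (le_of_eq ?_)
  simp only [Pi.add_apply]
  rw [intervalIntegral.integral_add (k1.intervalIntegrable a b) (k2.intervalIntegrable a b)]
  have i1 : ∫ t in a..b, X / 4 * (1 - t ^ 2 * c) = X / 4 * ((b - a) - c * (b ^ 3 - a ^ 3) / 3) := by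
    rw [intervalIntegral.integral_const_mul, intervalIntegral.integral_sub
      (by simp) (by
        have : Continuous fun t : ℝ => t ^ 2 * c := by fun_prop
        exact this.intervalIntegrable a b),
      intervalIntegral.integral_mul_const, integral_pow, intervalIntegral.integral_const]
    simp only [smul_eq_mul]
    push_cast
    ring
  have i2 : ∫ t in a..b, 3 * Y / 4 * (1 + c * (EL.map fun q => g q t).sum) =
      3 * Y / 4 * ((b - a) + c * (EL.map fun q => ∫ t in a..b, g q t).sum) := by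
    have s3 : IntervalIntegrable (fun t => c * (EL.map fun q => g q t).sum) volume a b :=
      (s1.intervalIntegrable a b).const_mul c
    rw [intervalIntegral.integral_const_mul, intervalIntegral.integral_add (by simp) s3,
      intervalIntegral.integral_const_mul, s2, intervalIntegral.integral_const]
    simp only [smul_eq_mul, mul_one]
  have i3 : ∀ q : ℕ × ℕ × ℤ, ∫ t in a..b, g q t = ((q.2.2 : ℝ) / 2 ^ 20) *
        ((b ^ (2 * q.2.1 + 1) - a ^ (2 * q.2.1 + 1)) / (2 * (q.2.1 : ℝ) + 1)) * c ^ q.1 := by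
    intro q
    show ∫ t in a..b, ((q.2.2 : ℝ) / 2 ^ 20) * c ^ q.1 * (t ^ 2) ^ q.2.1 = _
    simp only [← pow_mul]
    rw [intervalIntegral.integral_const_mul, integral_pow]
    push_cast
    ring
  rw [i1, i2]
  simp only [i3]
  ring

theorem d4b_ind {σ : ℝ} (h0 : 0 ≤ σ) (h1 : σ ≤ 1) : ∀ (L : List (ℕ × ℕ)) (t0 : ℕ), okL t0 L = true →
    t0 ≤ 1024 ∧ ∫ t in ((t0 : ℝ) / 1024)..1, H0 σ t ≤ (DL t0 L : ℝ) / 2 ^ 26 + (1 - σ ^ 4) *
      (-(XL t0 L : ℝ) / (12 * 16384 * 1024 ^ 3) +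
        3 / 4 * (EL.map fun q => ((q.2.2 : ℝ) / 2 ^ 20) *
          ((WL q.2.1 t0 L : ℝ) / (16384 * (2 * (q.2.1 : ℝ) + 1) * 1024 ^ (2 * q.2.1 + 1))) *
            (1 - σ ^ 4) ^ q.1).sum)
  | [], t0, h => by
    have ht : t0 = 1024 := by simpa [okL] using h
    subst ht
    refine ⟨le_rfl, ?_⟩
    simp [DL, XL, WL]
  | (t1, Y) :: L, t0, h => by
    simp only [okL, Bool.and_eq_true, decide_eq_true_eq] at h
    obtain ⟨ht, hY, hL⟩ := h
    obtain ⟨ih1, ih2⟩ := d4b_ind h0 h1 L t1 hL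
    refine ⟨by omega, ?_⟩
    have hY' : (0 : ℝ) < Y := by exact_mod_cast hY
    have hX : 0 < XX Y := by
      by_contra hx
      have := XX_spec hY
      rw [Nat.eq_zero_of_not_pos hx] at this
      omega
    have hX' : (0 : ℝ) < XX Y := by exact_mod_cast hX
    have ht' : (t0 : ℝ) ≤ t1 := by exact_mod_cast ht.le
    have ht1 : (t1 : ℝ) ≤ 1024 := by exact_mod_cast ih1
    have hXY : (1 : ℝ) ≤ (XX Y : ℝ) / 16384 * ((Y : ℝ) / 16384) ^ 3 := by
      have h2 : (2 : ℝ) ^ 56 ≤ (XX Y : ℝ) * (Y : ℝ) ^ 3 := by exact_mod_cast XX_spec hY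
      have e : (XX Y : ℝ) / 16384 * ((Y : ℝ) / 16384) ^ 3 = (XX Y : ℝ) * (Y : ℝ) ^ 3 / 2 ^ 56 := by
        ring
      rw [e, le_div_iff₀ (by positivity), one_mul]
      exact h2
    have hc := d4b_cell (a := (t0 : ℝ) / 1024) (b := (t1 : ℝ) / 1024) h0 h1 (by positivity)
      (by gcongr) (by rw [div_le_one (by norm_num)]; exact ht1)
      (X := (XX Y : ℝ) / 16384) (Y := (Y : ℝ) / 16384) (by positivity) (by positivity) hXY
    have hcH : Continuous (fun t => H0 σ t) :=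
      continuous_H0.comp (continuous_const.prodMk continuous_id)
    rw [← intervalIntegral.integral_add_adjacent_intervals
      (hcH.intervalIntegrable ((t0 : ℝ) / 1024) ((t1 : ℝ) / 1024))
      (hcH.intervalIntegrable ((t1 : ℝ) / 1024) 1)]
    refine (add_le_add hc ih2).trans (le_of_eq ?_)
    have w : ∀ q : ℕ × ℕ × ℤ, (WL q.2.1 t0 ((t1, Y) :: L) : ℝ) =
        Y * ((t1 : ℝ) ^ (2 * q.2.1 + 1) - (t0 : ℝ) ^ (2 * q.2.1 + 1)) + WL q.2.1 t1 L := by
      intro q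
      have : t0 ^ (2 * q.2.1 + 1) ≤ t1 ^ (2 * q.2.1 + 1) := Nat.pow_le_pow_left ht.le _
      simp only [WL]
      push_cast [Nat.cast_sub this]
      ring
    have d : (DL t0 ((t1, Y) :: L) : ℝ) = ((XX Y : ℝ) + 3 * Y) * ((t1 : ℝ) - t0) + DL t1 L := by
      simp only [DL]
      push_cast [Nat.cast_sub ht.le]
      ring
    have x : (XL t0 ((t1, Y) :: L) : ℝ) = (XX Y : ℝ) * ((t1 : ℝ) ^ 3 - (t0 : ℝ) ^ 3) + XL t1 L := by
      have : t0 ^ 3 ≤ t1 ^ 3 := Nat.pow_le_pow_left ht.le _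
      simp only [XL]
      push_cast [Nat.cast_sub this]
      ring
    rw [d, x]
    have s : (EL.map fun q => ((q.2.2 : ℝ) / 2 ^ 20) *
          ((WL q.2.1 t0 ((t1, Y) :: L) : ℝ) / (16384 * (2 * (q.2.1 : ℝ) + 1) *
            1024 ^ (2 * q.2.1 + 1))) * (1 - σ ^ 4) ^ q.1).sum =
        (Y : ℝ) / 16384 * (EL.map fun q => ((q.2.2 : ℝ) / 2 ^ 20) *
          ((((t1 : ℝ) / 1024) ^ (2 * q.2.1 + 1) - ((t0 : ℝ) / 1024) ^ (2 * q.2.1 + 1)) /
            (2 * (q.2.1 : ℝ) + 1)) * (1 - σ ^ 4) ^ q.1).sum +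
        (EL.map fun q => ((q.2.2 : ℝ) / 2 ^ 20) *
          ((WL q.2.1 t1 L : ℝ) / (16384 * (2 * (q.2.1 : ℝ) + 1) * 1024 ^ (2 * q.2.1 + 1))) *
            (1 - σ ^ 4) ^ q.1).sum := by
      rw [← List.sum_map_mul_left, ← List.sum_map_add]
      congr 1
      refine List.map_congr_left fun q _ => ?_
      rw [w q]
      have : (2 * (q.2.1 : ℝ) + 1) ≠ 0 := by positivity
      rw [div_pow, div_pow]
      field_simp
    rw [s]
    ring

/-- Induction on `L` for the integral over `[t₀ / 1024, 1]` (the induction step integrates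
`H0_le` with `X = XX Y / 16384`, `Y / 16384` over the cell, using `Ef_eq`). -/
theorem G0_le {σ : ℝ} (h0 : 0 ≤ σ) (h1 : σ ≤ 1) {L : List (ℕ × ℕ)} (hL : okL 0 L = true) :
    G0 σ ≤ (DL 0 L : ℝ) / 2 ^ 26 + (1 - σ ^ 4) *
      (-(XL 0 L : ℝ) / (12 * 16384 * 1024 ^ 3) +
        3 / 4 * (EL.map fun q => wq (K := ℝ) L q * (1 - σ ^ 4) ^ q.1).sum) := by
  have h := (d4b_ind h0 h1 L 0 hL).2
  rw [Nat.cast_zero, zero_div] at h
  exact h

/-- the same with the single cell `[0, 1]` and `X = Y = 1` -/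
theorem G0_le_one {σ : ℝ} (h0 : 0 ≤ σ) (h1 : σ ≤ 1) :
    G0 σ ≤ 1 + (1 - σ ^ 4) * (-(1 / 12) +
      3 / 4 * (EL.map fun q => ((q.2.2 : ℝ) / 2 ^ 20) / (2 * (q.2.1 : ℝ) + 1) *
        (1 - σ ^ 4) ^ q.1).sum) := by
  have h := d4b_cell (a := 0) (b := 1) (X := 1) (Y := 1) h0 h1 le_rfl zero_le_one le_rfl
    one_pos one_pos (by norm_num)
  refine h.trans (le_of_eq ?_)
  have e : ∀ q : ℕ × ℕ × ℤ, ((q.2.2 : ℝ) / 2 ^ 20) *
      (((1 : ℝ) ^ (2 * q.2.1 + 1) - 0 ^ (2 * q.2.1 + 1)) / (2 * (q.2.1 : ℝ) + 1)) *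
      (1 - σ ^ 4) ^ q.1 = ((q.2.2 : ℝ) / 2 ^ 20) / (2 * (q.2.1 : ℝ) + 1) * (1 - σ ^ 4) ^ q.1 := by
    intro q
    rw [one_pow, zero_pow (Nat.succ_ne_zero _)]
    ring
  simp only [e]
  ring

end Pool.Agent.Lib.MP_b8b490_an
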