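import Pool.Agent.Lib.MP_b8b490_an.D4b

open MeasureTheory Set Filter Topology
open scoped ENNReal

namespace Pool.Agent.Lib.MP_b8b490_an

/-! ### Row D4c: the bounds for the rows -/

private theorem D4c_pos {σ : ℝ} (h0 : 0 ≤ σ) (h1 : σ < 1) : 0 < 1 - σ ^ 4 :=
  sub_pos.2 (pow_lt_one₀ h0 h1 (by norm_num))

theorem continuousOn_hh : ContinuousOn hh (Ico 0 1) := by
  have h1 : ContinuousOn (fun σ : ℝ => 2 / (1 - σ ^ 4)) (Ico 0 1) := by
    refine ContinuousOn.div continuousOn_const (by fun_prop) fun σ hσ => ?_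
    exact (D4c_pos hσ.1 hσ.2).ne'
  exact h1.mul ((continuous_G0.sub continuous_const).continuousOn)

private theorem D4c_int {s0 s1 : ℝ} (h0 : 0 ≤ s0) (h01 : s0 ≤ s1) (h1 : s1 < 1) :
    IntervalIntegrable hh volume s0 s1 := by
  refine (continuousOn_hh.mono ?_).intervalIntegrable
  rw [uIcc_of_le h01]
  intro x hx
  exact ⟨h0.trans hx.1, hx.2.trans_lt h1⟩

private theorem D4c_cont (l : List (ℕ × ℕ × ℤ)) (f : ℕ × ℕ × ℤ → ℝ) :
    Continuous fun σ : ℝ => (l.map fun q => f q * (1 - σ ^ 4) ^ q.1).sum := by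
  induction l with
  | nil => simpa using continuous_const
  | cons q l ih =>
    simp only [List.map_cons, List.sum_cons]
    exact (by fun_prop : Continuous fun σ : ℝ => f q * (1 - σ ^ 4) ^ q.1).add ih

private theorem D4c_sum (l : List (ℕ × ℕ × ℤ)) (f : ℕ × ℕ × ℤ → ℝ) (s0 s1 : ℝ) :
    ∫ σ in s0..s1, (l.map fun q => f q * (1 - σ ^ 4) ^ q.1).sum =
      (l.map fun q => f q * (pm s1 q.1 - pm s0 q.1)).sum := by
  induction l with
  | nil => simp
  | cons q l ih =>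
    simp only [List.map_cons, List.sum_cons]
    rw [intervalIntegral.integral_add, ih, intervalIntegral.integral_const_mul, integral_pm]
    · exact (by fun_prop : Continuous fun σ : ℝ => f q * (1 - σ ^ 4) ^ q.1).intervalIntegrable _ _
    · exact (D4c_cont l f).intervalIntegrable _ _

/-- a bound `G0 ≤ 1 + d + (1 - σ⁴) (a + 3/4 ∑)` gives a bound for the integral of `hh` -/
private theorem D4c_gen {s0 s1 : ℝ} (h0 : 0 ≤ s0) (h01 : s0 ≤ s1) (h1 : s1 < 1) {d a : ℝ} (hd : 0 ≤ d)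
    (f : ℕ × ℕ × ℤ → ℝ)
    (hG : ∀ σ : ℝ, 0 ≤ σ → σ ≤ 1 → G0 σ ≤ 1 + d + (1 - σ ^ 4) *
      (a + 3 / 4 * (EL.map fun q => f q * (1 - σ ^ 4) ^ q.1).sum)) :
    ∫ σ in s0..s1, hh σ ≤ d * (1 / (1 - s0 ^ 4) + 1 / (1 - s1 ^ 4)) * (s1 - s0) + 2 * a * (s1 - s0) +
      3 / 2 * (EL.map fun q => f q * (pm s1 q.1 - pm s0 q.1)).sum := by
  have hinv : IntervalIntegrable (fun σ : ℝ => 1 / (1 - σ ^ 4)) volume s0 s1 := by
    refine ContinuousOn.intervalIntegrable (ContinuousOn.div continuousOn_const (by fun_prop) fun σ hσ => ?_)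
    rw [uIcc_of_le h01] at hσ
    exact (D4c_pos (h0.trans hσ.1) (hσ.2.trans_lt h1)).ne'
  have hc := (D4c_cont EL f).intervalIntegrable (μ := volume) s0 s1
  have hle : ∫ σ in s0..s1, hh σ ≤ ∫ σ in s0..s1, (2 * d * (1 / (1 - σ ^ 4)) + 2 * a +
      3 / 2 * (EL.map fun q => f q * (1 - σ ^ 4) ^ q.1).sum) := by
    refine intervalIntegral.integral_mono_on h01 (D4c_int h0 h01 h1)
      (((hinv.const_mul _).add intervalIntegrable_const).add (hc.const_mul _)) fun σ hσ => ?_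
    have hσ0 : 0 ≤ σ := h0.trans hσ.1
    have hσ1 : σ < 1 := hσ.2.trans_lt h1
    have hpos := D4c_pos hσ0 hσ1
    have h2 := hG σ hσ0 hσ1.le
    have h3 : hh σ = 2 * (G0 σ - 1) / (1 - σ ^ 4) := by
      rw [hh]
      ring
    rw [h3, div_le_iff₀ hpos]
    have h4 : (2 * d * (1 / (1 - σ ^ 4)) + 2 * a +
        3 / 2 * (EL.map fun q => f q * (1 - σ ^ 4) ^ q.1).sum) * (1 - σ ^ 4) =
        2 * d + (1 - σ ^ 4) * (2 * a + 3 / 2 * (EL.map fun q => f q * (1 - σ ^ 4) ^ q.1).sum) := by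
      field_simp
      ring
    rw [h4]
    linarith
  refine hle.trans ?_
  have i1 : ∫ σ in s0..s1, 2 * d * (1 / (1 - σ ^ 4)) = 2 * d * ∫ σ in s0..s1, 1 / (1 - σ ^ 4) :=
    intervalIntegral.integral_const_mul _ _
  have i2 : ∫ σ in s0..s1, 2 * a = 2 * a * (s1 - s0) := by
    rw [intervalIntegral.integral_const, smul_eq_mul, mul_comm]
  have i3 : ∫ σ in s0..s1, 3 / 2 * (EL.map fun q => f q * (1 - σ ^ 4) ^ q.1).sum =
      3 / 2 * (EL.map fun q => f q * (pm s1 q.1 - pm s0 q.1)).sum := by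
    rw [intervalIntegral.integral_const_mul, D4c_sum]
  rw [intervalIntegral.integral_add ((hinv.const_mul _).add intervalIntegrable_const) (hc.const_mul _),
    intervalIntegral.integral_add (hinv.const_mul _) intervalIntegrable_const, i1, i2, i3]
  have h5 := mul_le_mul_of_nonneg_left (integral_inv_le h0 h01 h1) (by positivity : 0 ≤ 2 * d)
  have h6 : 2 * d * ((1 / (1 - s0 ^ 4) + 1 / (1 - s1 ^ 4)) / 2 * (s1 - s0)) =
      d * (1 / (1 - s0 ^ 4) + 1 / (1 - s1 ^ 4)) * (s1 - s0) := by ring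
  linarith

theorem row_le {s0 s1 : ℝ} (h0 : 0 ≤ s0) (h01 : s0 < s1) (h1 : s1 < 1) {L : List (ℕ × ℕ)}
    (hL : okL 0 L = true) (hD : 2 ^ 26 ≤ DL 0 L) :
    ∫ σ in s0..s1, hh σ ≤ rowV s0 s1 L := by
  have hd : (0 : ℝ) ≤ (DL 0 L : ℝ) / 2 ^ 26 - 1 := by
    rw [sub_nonneg, le_div_iff₀ (by positivity), one_mul]
    exact_mod_cast hD
  have h2 := D4c_gen h0 h01.le h1 (a := -(XL 0 L : ℝ) / (12 * 16384 * 1024 ^ 3)) hd
    (fun q => wq (K := ℝ) L q) (fun σ hσ0 hσ1 => by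
      have h3 := G0_le hσ0 hσ1 hL
      linarith)
  refine h2.trans (le_of_eq ?_)
  rw [rowV]
  ring

theorem last_le {s0 s : ℝ} (h0 : 0 ≤ s0) (h01 : s0 ≤ s) (h1 : s < 1) :
    ∫ σ in s0..s, hh σ ≤ -(1 / 6) * (s - s0) +
      3 / 2 * (EL.map fun q => ((q.2.2 : ℝ) / 2 ^ 20) / (2 * (q.2.1 : ℝ) + 1) *
        (pm s q.1 - pm s0 q.1)).sum := by
  have h2 := D4c_gen h0 h01 h1 (d := 0) (a := -(1 / 12)) le_rfl
    (fun q => ((q.2.2 : ℝ) / 2 ^ 20) / (2 * (q.2.1 : ℝ) + 1)) (fun σ hσ0 hσ1 => by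
      have h3 := G0_le_one hσ0 hσ1
      linarith)
  refine h2.trans (le_of_eq ?_)
  ring

private theorem D4c_ok (e : ℕ) (R : List (ℕ × List (ℕ × ℕ))) :
    ∀ s0 : ℕ, s0 < 1024 → okR e s0 R = true → s0 ≤ e ∧ e < 1024 := by
  induction R with
  | nil =>
    intro s0 hs0 h
    have : s0 = e := by simpa [okR] using h
    omega
  | cons p R ih =>
    intro s0 hs0 h
    obtain ⟨s1, L⟩ := p
    simp only [okR, Bool.and_eq_true, decide_eq_true_eq] at h
    obtain ⟨h1, h2, -, -, h5⟩ := h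
    have := ih s1 h2 h5
    omega

/-- induction on the list of rows -/
theorem tot_le (e : ℕ) (he : e ≤ 1024) (R : List (ℕ × List (ℕ × ℕ))) :
    ∀ s0 : ℕ, okR e s0 R = true →
      ∫ σ in ((s0 : ℝ) / 1024)..((e : ℝ) / 1024), hh σ ≤ totV ℝ s0 R := by
  induction R with
  | nil =>
    intro s0 h
    have : s0 = e := by simpa [okR] using h
    rw [this, intervalIntegral.integral_same, totV]
  | cons p R ih =>
    intro s0 h
    obtain ⟨s1, L⟩ := p
    simp only [okR, Bool.and_eq_true, decide_eq_true_eq] at h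
    obtain ⟨h1, h2, h3, h4, h5⟩ := h
    have h6 := D4c_ok e R s1 h2 h5
    have e0 : (0 : ℝ) ≤ (s0 : ℝ) / 1024 := by positivity
    have e1 : (s0 : ℝ) / 1024 < (s1 : ℝ) / 1024 := by
      have : (s0 : ℝ) < s1 := by exact_mod_cast h1
      linarith
    have e2 : (s1 : ℝ) / 1024 < 1 := by
      have : (s1 : ℝ) < 1024 := by exact_mod_cast h2
      linarith
    have e3 : (s1 : ℝ) / 1024 ≤ (e : ℝ) / 1024 := by
      have : (s1 : ℝ) ≤ e := by exact_mod_cast h6.1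
      linarith
    have e4 : (e : ℝ) / 1024 < 1 := by
      have : (e : ℝ) < 1024 := by exact_mod_cast h6.2
      linarith
    rw [← intervalIntegral.integral_add_adjacent_intervals (D4c_int e0 e1.le e2)
      (D4c_int (e0.trans e1.le) e3 e4), totV]
    exact add_le_add (row_le e0 e1 e2 h3 h4) (ih s1 h5)

end Pool.Agent.Lib.MP_b8b490_an
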