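import Mathlib

/-!
Definitions for the Groetzsch ring constants (problem MP_b8b490_an).
The space is `Fin n → ℝ`, the Euclidean norm is written out, `volume` is Lebesgue measure.
-/

open MeasureTheory Set Filter Topology
open scoped ENNReal

namespace Pool.Agent.Lib.MP_b8b490_an

/-- The derivative of `f` in direction `i` at `x` (zero if it does not exist). -/
noncomputable def pd {n : ℕ} (f : (Fin n → ℝ) → ℝ) (i : Fin n) (x : Fin n → ℝ) : ℝ :=
  deriv (fun s : ℝ => f (Function.update x i s)) (x i)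

/-- The Euclidean norm of a vector of `ℝⁿ`. -/
noncomputable def euc {n : ℕ} (v : Fin n → ℝ) : ℝ := Real.sqrt (∑ i, v i ^ 2)

/-- `f` is absolutely continuous on lines in `R`: for every closed box `[l, u] ⊆ R` and every
direction `i`, `f` is absolutely continuous on almost every segment of the box in direction `i`. -/
def ACL {n : ℕ} (R : Set (Fin n → ℝ)) (f : (Fin n → ℝ) → ℝ) : Prop :=
  ∀ l u : Fin n → ℝ, l ≤ u → Set.Icc l u ⊆ R → ∀ i : Fin n,
    ∀ᵐ x : Fin n → ℝ, (∀ j, j ≠ i → x j ∈ Set.Icc (l j) (u j)) →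
      AbsolutelyContinuousOnInterval (fun s : ℝ => f (Function.update x i s)) (l i) (u i)

/-- The `n`-Dirichlet integral of `f` over `R ⊆ ℝⁿ`. -/
noncomputable def dirichlet {n : ℕ} (R : Set (Fin n → ℝ)) (f : (Fin n → ℝ) → ℝ) : ℝ≥0∞ :=
  ∫⁻ x in R, ENNReal.ofReal (euc (fun i => pd f i x) ^ n)

/-- The functions admitted in the definition of the capacity of the ring `R` with complementary
components `C0` and `C1`. -/
def Admissible {n : ℕ} (R C0 C1 : Set (Fin n → ℝ)) (f : (Fin n → ℝ) → ℝ) : Prop :=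
  ContinuousOn f (R ∪ C0 ∪ C1) ∧ ACL R f ∧ (∀ x ∈ C0, f x = 0) ∧ ∀ x ∈ C1, f x = 1

/-- The conformal capacity of the ring `R` with complementary components `C0` and `C1`. -/
noncomputable def cap {n : ℕ} (R C0 C1 : Set (Fin n → ℝ)) : ℝ≥0∞ :=
  ⨅ (f : (Fin n → ℝ) → ℝ) (_ : Admissible R C0 C1 f), dirichlet R f

/-- The area of the unit sphere of `ℝⁿ`. -/
noncomputable def sphereArea (n : ℕ) : ℝ :=
  n * Real.pi ^ ((n : ℝ) / 2) / Real.Gamma (1 + (n : ℝ) / 2)

/-- The modulus of a ring in `ℝⁿ`. -/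
noncomputable def modulus {n : ℕ} (R C0 C1 : Set (Fin n → ℝ)) : ℝ :=
  (sphereArea n / (cap R C0 C1).toReal) ^ (1 / ((n : ℝ) - 1))

/-- The radial slit `{(x, 0, ..., 0) : 0 ≤ x ≤ a}` in `ℝ^(k+1)`. -/
def slit {k : ℕ} (a : ℝ) : Set (Fin (k + 1) → ℝ) :=
  {x | 0 ≤ x 0 ∧ x 0 ≤ a ∧ ∀ i, i ≠ 0 → x i = 0}

/-- The exterior `{x : |x| ≥ 1}` of the unit ball. -/
def outer {n : ℕ} : Set (Fin n → ℝ) := {x | 1 ≤ euc x}

/-- The Groetzsch ring `G(k+1, a)`: the open unit ball minus the radial slit from `0` to `a`. -/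
def ring {k : ℕ} (a : ℝ) : Set (Fin (k + 1) → ℝ) := {x | euc x < 1} \ slit a

/-- The modulus of the Groetzsch ring `G(k+1, a)`. -/
noncomputable def ringMod (k : ℕ) (a : ℝ) : ℝ :=
  modulus (ring (k := k) a) (slit a) outer

/-! ### Local absolute continuity on lines -/

/-- On almost every line in direction `i`, `f` is absolutely continuous near every point of `R`. -/
def LocAC {n : ℕ} (R : Set (Fin n → ℝ)) (f : (Fin n → ℝ) → ℝ) : Prop :=
  ∀ i : Fin n, ∀ᵐ x : Fin n → ℝ, ∀ s : ℝ, Function.update x i s ∈ R →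
    ∃ δ > 0, AbsolutelyContinuousOnInterval (fun r : ℝ => f (Function.update x i r))
      (s - δ) (s + δ)

/-! ### Prolate spheroidal coordinates -/

/-- The coordinates of the point `(b, 0, ..., 0)`. -/
def pt {k : ℕ} (b : ℝ) (i : Fin (k + 1)) : ℝ := if i = 0 then b else 0

/-- Distance to the point `(b, 0, ..., 0)`. -/
noncomputable def rr {k : ℕ} (b : ℝ) (x : Fin (k + 1) → ℝ) : ℝ := euc (fun i => x i - pt b i)

/-- The coordinate `C = (r1 + r2) / a`. -/
noncomputable def Cc {k : ℕ} (a : ℝ) (x : Fin (k + 1) → ℝ) : ℝ := (rr 0 x + rr a x) / a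

/-- The coordinate `t = (r1 - r2) / a`. -/
noncomputable def tt {k : ℕ} (a : ℝ) (x : Fin (k + 1) → ℝ) : ℝ := (rr 0 x - rr a x) / a

/-- Derivative in direction `i` of `Cc`. -/
noncomputable def dC {k : ℕ} (a : ℝ) (i : Fin (k + 1)) (x : Fin (k + 1) → ℝ) : ℝ :=
  (x i / rr 0 x + (x i - pt a i) / rr a x) / a

/-- Derivative in direction `i` of `tt`. -/
noncomputable def dT {k : ℕ} (a : ℝ) (i : Fin (k + 1)) (x : Fin (k + 1) → ℝ) : ℝ :=
  (x i / rr 0 x - (x i - pt a i) / rr a x) / a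

/-- The field `α(C, t) ∇C + β(C, t) ∇t`. -/
noncomputable def fld {k : ℕ} (a : ℝ) (α β : ℝ → ℝ → ℝ) (i : Fin (k + 1))
    (x : Fin (k + 1) → ℝ) : ℝ :=
  α (Cc a x) (tt a x) * dC a i x + β (Cc a x) (tt a x) * dT a i x

end Pool.Agent.Lib.MP_b8b490_an
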