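import Pool.Agent.Lib.MP_b8b490_an.A6
import Pool.Agent.Lib.MP_b8b490_an.Cap
import Pool.Agent.Lib.MP_b8b490_an.C4
import Pool.Agent.Lib.MP_b8b490_an.D5

open MeasureTheory Set Filter Topology
open scoped ENNReal

namespace Pool.Agent.Lib.MP_b8b490_an

/-! ### Assembly -/

theorem continuous_euc {n : ℕ} : Continuous (euc (n := n)) := by
  unfold euc
  fun_prop

theorem isOpen_ring {k : ℕ} (a : ℝ) : IsOpen (ring (k := k) a) := by
  have h1 : IsOpen {x : Fin (k + 1) → ℝ | euc x < 1} := isOpen_lt continuous_euc continuous_const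
  exact h1.sdiff (isClosed_slit a)

theorem abs_le_euc {n : ℕ} (x : Fin n → ℝ) (i : Fin n) : |x i| ≤ euc x := by
  unfold euc
  rw [← Real.sqrt_sq_eq_abs]
  exact Real.sqrt_le_sqrt (Finset.single_le_sum (f := fun i => x i ^ 2)
    (fun j _ => sq_nonneg (x j)) (Finset.mem_univ i))

theorem isBounded_ring {k : ℕ} (a : ℝ) : Bornology.IsBounded (ring (k := k) a) := by
  refine (Metric.isBounded_closedBall (x := (0 : Fin (k + 1) → ℝ)) (r := 1)).subset ?_
  intro x hx
  rw [mem_closedBall_zero_iff, pi_norm_le_iff_of_nonneg zero_le_one]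
  intro i
  rw [Real.norm_eq_abs]
  exact (abs_le_euc x i).trans (le_of_lt hx.1)

theorem G0_nonneg {σ : ℝ} (h0 : 0 ≤ σ) (h1 : σ ≤ 1) : 0 ≤ G0 σ := by
  refine intervalIntegral.integral_nonneg zero_le_one fun t ht => ?_
  have hy0 : 0 ≤ 1 - σ ^ 4 := by
    have := pow_le_one₀ (n := 4) h0 h1
    linarith
  have hy1 : 1 - σ ^ 4 ≤ 1 := by
    have := pow_nonneg h0 4
    linarith
  have ht2 : t ^ 2 ≤ 1 := pow_le_one₀ ht.1 ht.2
  have hE : 0 ≤ Ef (1 - σ ^ 4) (t ^ 2) := by
    unfold Ef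
    have h2 : 0 ≤ 1 - t ^ 2 := by linarith
    have h3 : 0 ≤ 1 - (1 - σ ^ 4) := by linarith
    positivity
  have hQ : 0 ≤ 1 - t ^ 2 * (1 - σ ^ 4) := by nlinarith [sq_nonneg t]
  unfold H0
  positivity

/-- the duality inequality for the explicit field -/
theorem duality {a : ℝ} (ha0 : 0 < a) (ha1 : a < 1) :
    0 ≤ (∫ σ in (0 : ℝ)..sM (2 / a + 1), 2 / (1 - σ ^ 4) * G0 σ) ∧
    cap (ring (k := 2) a) (slit a) outer ≠ ⊤ ∧
    ∀ f, Admissible (ring (k := 2) a) (slit a) outer f →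
      dirichlet (ring (k := 2) a) f ≠ ⊤ →
      ENNReal.ofReal (4 * Real.pi) ≤ dirichlet (ring (k := 2) a) f ^ ((1 : ℝ) / 3) *
        ENNReal.ofReal (4 * Real.pi * ∫ σ in (0 : ℝ)..sM (2 / a + 1),
          2 / (1 - σ ^ 4) * G0 σ) ^ ((2 : ℝ) / 3) := by
  obtain ⟨αC, αt, βC, βt, hα, hβ, hid⟩ := exists_derivs ha0
  obtain ⟨χ, U0, U1, hχ, hU0, hU1, h0, h1, hχ0, hχ1, hfl⟩ :=
    exists_chi ha0 ha1 hα hβ (fun C hC => al_flux ha0 hC)
  have hM : 1 < 2 / a + 1 := by
    have : 0 < 2 / a := by positivity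
    linarith
  obtain ⟨hs0, hs1, hs4⟩ := sM_mem hM
  have hJ : 0 ≤ ∫ σ in (0 : ℝ)..sM (2 / a + 1), 2 / (1 - σ ^ 4) * G0 σ := by
    refine intervalIntegral.integral_nonneg hs0.le fun σ hσ => ?_
    have hσ1 : σ ≤ 1 := hσ.2.trans hs1.le
    have h3 : 0 ≤ 1 - σ ^ 4 := by
      have := pow_le_one₀ (n := 4) hσ.1 hσ1
      linarith
    exact mul_nonneg (div_nonneg zero_le_two h3) (G0_nonneg hσ.1 hσ1)
  refine ⟨hJ, cap_ne_top (isBounded_ring a) hχ (fun x hx => hχ0 x (h0 hx))
    (fun x hx => hχ1 x (h1 hx)), fun f hf hfin => ?_⟩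
  have hsub : ring (k := 2) a ⊆ (slit a)ᶜ := fun x hx => hx.2
  have hd := dual (k := 2) (by norm_num) (isOpen_ring a) (isBounded_ring a)
    (C0 := slit a) (C1 := outer) (fun x => by
      by_cases hx : x ∈ slit a
      · exact Or.inr (Or.inl hx)
      · rcases lt_or_ge (euc x) 1 with h | h
        · exact Or.inl ⟨h, hx⟩
        · exact Or.inr (Or.inr h))
    (F := fld a (al a) (be a)) (dF := dfld a (al a) αC αt (be a) βC βt)
    (fun i => (fld_cont ha0 hα hβ i).mono hsub) (fun i => (dfld_cont ha0 hα hβ i).mono hsub)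
    (fun i x hx => fld_deriv ha0 hα hβ i (hsub hx)) (fun x hx => fld_div ha0 hid (hsub hx))
    hχ hU0 hU1 h0 h1 hχ0 hχ1 hf hfin
  rw [hfl] at hd
  refine hd.trans ?_
  have e1 : ((1 : ℝ) / ((2 + 1 : ℕ) : ℝ)) = 1 / 3 := by norm_num
  have e2 : ((((2 + 1 : ℕ) : ℝ)) / ((2 : ℕ) : ℝ)) = 3 / 2 := by norm_num
  have e3 : (((2 : ℕ) : ℝ) / ((2 + 1 : ℕ) : ℝ)) = 2 / 3 := by norm_num
  rw [e1, e2, e3]
  exact mul_le_mul_right (ENNReal.rpow_le_rpow (energy_al ha0 rfl) (by norm_num)) _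

/-- the capacity is positive and finite -/
theorem cap_pos_lt_top {a : ℝ} (ha0 : 0 < a) (ha1 : a < 1) :
    0 < cap (ring (k := 2) a) (slit a) outer ∧ cap (ring (k := 2) a) (slit a) outer < ⊤ := by
  obtain ⟨-, h1, h2⟩ := duality ha0 ha1
  exact ⟨pos_iff_ne_zero.2 (cap_ne_zero (by positivity) (by norm_num) (by norm_num) h2),
    lt_top_iff_ne_top.2 h1⟩

/-- the bound for every `a` -/
theorem ringMod_le {a : ℝ} (ha0 : 0 < a) (ha1 : a < 1) :
    ringMod 2 a ≤ ∫ σ in (0 : ℝ)..sM (2 / a + 1), 2 / (1 - σ ^ 4) * G0 σ := by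
  obtain ⟨hJ, -, h2⟩ := duality ha0 ha1
  have hπ : 0 < 4 * Real.pi := by positivity
  have key : ringMod 2 a ≤
      (4 * Real.pi * ∫ σ in (0 : ℝ)..sM (2 / a + 1), 2 / (1 - σ ^ 4) * G0 σ) / (4 * Real.pi) :=
    modulus_le (mul_nonneg hπ.le hJ) h2
  rwa [mul_div_cancel_left₀ _ hπ.ne'] at key

theorem numeric : 5 / 2 * Real.log 2 + Real.pi / 4 - 2787 / 10000 < Real.log (939 / 100) := by
  have h1 : Real.exp (1602 / 10000) ≤ 939 / 800 := by
    have := Real.exp_bound' (x := 1602 / 10000) (by norm_num) (by norm_num) (n := 5) (by norm_num)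
    refine this.trans ?_
    norm_num [Finset.sum_range_succ, Nat.factorial]
  have h2 : 1602 / 10000 ≤ Real.log (939 / 800) := by
    rw [Real.le_log_iff_exp_le (by norm_num)]
    exact h1
  have h3 : Real.log (939 / 100) = 3 * Real.log 2 + Real.log (939 / 800) := by
    have : (939 / 100 : ℝ) = 2 ^ 3 * (939 / 800) := by norm_num
    rw [this, Real.log_mul (by norm_num) (by norm_num), Real.log_pow]
    norm_num
  have h4 := Real.log_two_gt_d9
  have h5 := Real.pi_lt_d4
  rw [h3]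
  linarith

/-- asymptotic bound -/
theorem eventually_le :
    ∀ᶠ a in 𝓝[>] (0 : ℝ), ringMod 2 a + Real.log a ≤ Real.log (939 / 100) := by
  set ε : ℝ := (Real.log (939 / 100) - (5 / 2 * Real.log 2 + Real.pi / 4 - 2787 / 10000)) / 2
    with hεdef
  have hε : 0 < ε := by
    have := numeric
    rw [hεdef]
    linarith
  have hM : Tendsto (fun a : ℝ => 2 / a + 1) (𝓝[>] 0) atTop := by
    refine tendsto_atTop_add_const_right _ _ ?_
    have h2 := (tendsto_inv_nhdsGT_zero (𝕜 := ℝ)).const_mul_atTop (zero_lt_two (α := ℝ))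
    refine h2.congr fun a => ?_
    rw [div_eq_mul_inv]
  have hs : Tendsto (fun a : ℝ => sM (2 / a + 1)) (𝓝[>] 0) (𝓝[<] 1) := by
    rw [tendsto_nhdsWithin_iff]
    constructor
    · have h1 : Tendsto (fun M : ℝ => 1 - 1 / M ^ 2) atTop (𝓝 1) := by
        have h2 : Tendsto (fun M : ℝ => 1 / M ^ 2) atTop (𝓝 0) := by
          have := tendsto_pow_neg_atTop (𝕜 := ℝ) (n := 2) (by norm_num)
          refine this.congr fun M => ?_
          rw [zpow_neg, one_div]
          norm_cast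
        simpa using (tendsto_const_nhds (x := (1 : ℝ))).sub h2
      have h2 : Tendsto (fun M : ℝ => sM M) atTop (𝓝 1) := by
        have h3 : Continuous fun x : ℝ => Real.sqrt (Real.sqrt x) := by fun_prop
        have h4 := (h3.tendsto 1).comp h1
        simpa [sM, Function.comp_def] using h4
      exact h2.comp hM
    · filter_upwards [self_mem_nhdsWithin] with a ha
      have ha' : (0 : ℝ) < a := ha
      have : 0 < 2 / a := by positivity
      exact (sM_mem (M := 2 / a + 1) (by linarith)).2.1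
  have hev := hs.eventually (integral_hh_le hε)
  have hsmall : ∀ᶠ a in 𝓝[>] (0 : ℝ), a < min 1 ε := by
    filter_upwards [Ioo_mem_nhdsGT (lt_min one_pos hε)] with a ha using ha.2
  filter_upwards [hev, hsmall, self_mem_nhdsWithin] with a h1 h2 h3
  have ha0 : (0 : ℝ) < a := h3
  have ha1 : a < 1 := lt_of_lt_of_le h2 (min_le_left _ _)
  have haε : a < ε := lt_of_lt_of_le h2 (min_le_right _ _)
  have hpos : 0 < 2 / a := by positivity
  obtain ⟨hs0, hs1, hs4⟩ := sM_mem (M := 2 / a + 1) (by linarith)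
  have hb := ringMod_le ha0 ha1
  rw [integral_split hs0.le hs1, hs4] at hb
  set s := sM (2 / a + 1)
  have e1 : Real.log (1 + s) ≤ Real.log 2 := Real.log_le_log (by linarith) (by linarith)
  have e2 : Real.log (1 + s ^ 2) ≤ Real.log 2 := by
    refine Real.log_le_log (by positivity) ?_
    have := pow_le_one₀ (n := 2) hs0.le hs1.le
    linarith
  have e3 : Real.arctan s ≤ Real.pi / 4 := by
    rw [← Real.arctan_one]
    exact Real.arctan_strictMono.monotone hs1.le
  have e4 : Real.log (1 / (2 / a + 1) ^ 2) = -2 * Real.log (2 / a + 1) := by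
    rw [Real.log_div one_ne_zero (by positivity), Real.log_one, Real.log_pow]
    push_cast
    ring
  have e5 : Real.log (2 / a + 1) + Real.log a = Real.log (2 + a) := by
    rw [← Real.log_mul (by positivity) ha0.ne']
    congr 1
    field_simp
  have e6 : Real.log (2 + a) ≤ Real.log 2 + ε := by
    have h6 : (2 + a : ℝ) = 2 * (1 + a / 2) := by ring
    rw [h6, Real.log_mul (by norm_num) (by positivity)]
    have h7 := Real.log_le_sub_one_of_pos (x := 1 + a / 2) (by positivity)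
    linarith
  rw [e4] at hb
  have hfin : 2 * ε = Real.log (939 / 100) -
      (5 / 2 * Real.log 2 + Real.pi / 4 - 2787 / 10000) := by
    rw [hεdef]
    ring
  linarith

end Pool.Agent.Lib.MP_b8b490_an
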